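import Pool.Agent.TH259.CO.Stm

/-! CO-A: the second moment identity -/

set_option autoImplicit false

open MeasureTheory Set Real Filter Topology Metric TH259.NS
open Pool.Agent.TH298.Sch (Sol Sol.fin)
open Pool.Agent.TH298.AN (rad_fd rad_c1 int_mul)
open scoped ContDiff

namespace TH259.CO

namespace CoA

/-- directional derivative of `B m (lam |y|² / 4) g y` -/
theorem mul_fd (m : ℕ) (lam : ℝ) {g : ℂ → ℝ} {g' : ℂ →L[ℝ] ℝ} {x : ℂ} (hg : HasFDerivAt g g' x) :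
    ∃ L : ℂ →L[ℝ] ℝ, HasFDerivAt (fun y : ℂ => B m (lam * ‖y‖ ^ 2 / 4) * g y) L x ∧
      ∀ v : ℂ, L v = -(lam / 2) * B (m + 1) (lam * ‖x‖ ^ 2 / 4) * (x.re * v.re + x.im * v.im) * g x +
        B m (lam * ‖x‖ ^ 2 / 4) * g' v := by
  refine ⟨_, (rad_fd m lam x).mul hg, fun v => ?_⟩
  have i5 : (inner ℝ x v : ℝ) = x.re * v.re + x.im * v.im := by
    simp [Complex.inner]
    ring
  simp only [add_apply, smul_apply, smul_eq_mul, innerSL_apply_apply, nsmul_eq_mul,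
    Nat.cast_ofNat, i5]
  ring

theorem g_fd (x : ℂ) : ∃ L : ℂ →L[ℝ] ℝ, HasFDerivAt (fun y : ℂ => y.re ^ 2 - y.im ^ 2) L x ∧
    ∀ v : ℂ, L v = 2 * x.re * v.re - 2 * x.im * v.im := by
  have hre : HasFDerivAt (fun y : ℂ => y.re) Complex.reCLM x := Complex.reCLM.hasFDerivAt
  have him : HasFDerivAt (fun y : ℂ => y.im) Complex.imCLM x := Complex.imCLM.hasFDerivAt
  refine ⟨_, (hre.pow 2).sub (him.pow 2), fun v => ?_⟩
  simp [Complex.reCLM_apply, Complex.imCLM_apply]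

theorem gr_fd (x : ℂ) :
    ∃ L : ℂ →L[ℝ] ℝ, HasFDerivAt (fun y : ℂ => y.re * (y.re ^ 2 - y.im ^ 2)) L x ∧
    ∀ v : ℂ, L v = x.re * (2 * x.re * v.re - 2 * x.im * v.im) +
      (x.re ^ 2 - x.im ^ 2) * v.re := by
  have hre : HasFDerivAt (fun y : ℂ => y.re) Complex.reCLM x := Complex.reCLM.hasFDerivAt
  obtain ⟨L, hL, hLv⟩ := g_fd x
  refine ⟨_, hre.mul hL, fun v => ?_⟩
  simp [hLv, Complex.reCLM_apply]

theorem gi_fd (x : ℂ) :
    ∃ L : ℂ →L[ℝ] ℝ, HasFDerivAt (fun y : ℂ => y.im * (y.re ^ 2 - y.im ^ 2)) L x ∧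
    ∀ v : ℂ, L v = x.im * (2 * x.re * v.re - 2 * x.im * v.im) +
      (x.re ^ 2 - x.im ^ 2) * v.im := by
  have him : HasFDerivAt (fun y : ℂ => y.im) Complex.imCLM x := Complex.imCLM.hasFDerivAt
  obtain ⟨L, hL, hLv⟩ := g_fd x
  refine ⟨_, him.mul hL, fun v => ?_⟩
  simp [hLv, Complex.imCLM_apply]

/-- `H = B_2 (re² - im²)` -/
noncomputable def H (lam : ℝ) (y : ℂ) : ℝ := B 2 (lam * ‖y‖ ^ 2 / 4) * (y.re ^ 2 - y.im ^ 2)

/-- `∂H/∂x` -/
noncomputable def H1 (lam : ℝ) (y : ℂ) : ℝ :=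
  -(lam / 2) * (B 3 (lam * ‖y‖ ^ 2 / 4) * (y.re * (y.re ^ 2 - y.im ^ 2))) +
    2 * (B 2 (lam * ‖y‖ ^ 2 / 4) * y.re)

/-- `∂H/∂y` -/
noncomputable def H2 (lam : ℝ) (y : ℂ) : ℝ :=
  -(lam / 2) * (B 3 (lam * ‖y‖ ^ 2 / 4) * (y.im * (y.re ^ 2 - y.im ^ 2))) -
    2 * (B 2 (lam * ‖y‖ ^ 2 / 4) * y.im)

theorem H_fd (lam : ℝ) (x v : ℂ) :
    fderiv ℝ (H lam) x v = H1 lam x * v.re + H2 lam x * v.im := by
  obtain ⟨L, hL, hLv⟩ := g_fd x
  obtain ⟨M, hM, hMv⟩ := mul_fd 2 lam hL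
  rw [show H lam = fun y : ℂ => B 2 (lam * ‖y‖ ^ 2 / 4) * (y.re ^ 2 - y.im ^ 2) from rfl,
    hM.fderiv, hMv, hLv, H1, H2]
  ring

theorem H1_fd (lam : ℝ) (x v : ℂ) :
    fderiv ℝ (H1 lam) x v =
      -(lam / 2) * (-(lam / 2) * B 4 (lam * ‖x‖ ^ 2 / 4) * (x.re * v.re + x.im * v.im) *
        (x.re * (x.re ^ 2 - x.im ^ 2)) + B 3 (lam * ‖x‖ ^ 2 / 4) *
        (x.re * (2 * x.re * v.re - 2 * x.im * v.im) + (x.re ^ 2 - x.im ^ 2) * v.re)) +
      2 * (-(lam / 2) * B 3 (lam * ‖x‖ ^ 2 / 4) * (x.re * v.re + x.im * v.im) * x.re +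
        B 2 (lam * ‖x‖ ^ 2 / 4) * v.re) := by
  have hre : HasFDerivAt (fun y : ℂ => y.re) Complex.reCLM x := Complex.reCLM.hasFDerivAt
  obtain ⟨L, hL, hLv⟩ := gr_fd x
  obtain ⟨M, hM, hMv⟩ := mul_fd 3 lam hL
  obtain ⟨P, hP, hPv⟩ := mul_fd 2 lam hre
  have h := (hM.const_mul (-(lam / 2))).add (hP.const_mul 2)
  rw [show H1 lam = _ from rfl, show fderiv ℝ (H1 lam) x = _ from h.fderiv]
  simp only [add_apply, smul_apply, smul_eq_mul]
  rw [hMv, hPv, hLv]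
  simp only [Complex.reCLM_apply]

theorem H2_fd (lam : ℝ) (x v : ℂ) :
    fderiv ℝ (H2 lam) x v =
      -(lam / 2) * (-(lam / 2) * B 4 (lam * ‖x‖ ^ 2 / 4) * (x.re * v.re + x.im * v.im) *
        (x.im * (x.re ^ 2 - x.im ^ 2)) + B 3 (lam * ‖x‖ ^ 2 / 4) *
        (x.im * (2 * x.re * v.re - 2 * x.im * v.im) + (x.re ^ 2 - x.im ^ 2) * v.im)) -
      2 * (-(lam / 2) * B 3 (lam * ‖x‖ ^ 2 / 4) * (x.re * v.re + x.im * v.im) * x.im +
        B 2 (lam * ‖x‖ ^ 2 / 4) * v.im) := by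
  have him : HasFDerivAt (fun y : ℂ => y.im) Complex.imCLM x := Complex.imCLM.hasFDerivAt
  obtain ⟨L, hL, hLv⟩ := gi_fd x
  obtain ⟨M, hM, hMv⟩ := mul_fd 3 lam hL
  obtain ⟨P, hP, hPv⟩ := mul_fd 2 lam him
  have h := (hM.const_mul (-(lam / 2))).sub (hP.const_mul 2)
  rw [show H2 lam = _ from rfl, show fderiv ℝ (H2 lam) x = _ from h.fderiv]
  simp only [sub_apply, smul_apply, smul_eq_mul]
  rw [hMv, hPv, hLv]
  simp only [Complex.imCLM_apply]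

theorem re_c1 : ContDiff ℝ 1 (fun y : ℂ => y.re) := Complex.reCLM.contDiff

theorem im_c1 : ContDiff ℝ 1 (fun y : ℂ => y.im) := Complex.imCLM.contDiff

theorem g_c1 : ContDiff ℝ 1 (fun y : ℂ => y.re ^ 2 - y.im ^ 2) :=
  (re_c1.pow 2).sub (im_c1.pow 2)

theorem H_c1 (lam : ℝ) : ContDiff ℝ 1 (H lam) := (rad_c1 2 lam).mul g_c1

theorem H1_c1 (lam : ℝ) : ContDiff ℝ 1 (H1 lam) :=
  (contDiff_const.mul ((rad_c1 3 lam).mul (re_c1.mul g_c1))).add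
    (contDiff_const.mul ((rad_c1 2 lam).mul re_c1))

theorem H2_c1 (lam : ℝ) : ContDiff ℝ 1 (H2 lam) :=
  (contDiff_const.mul ((rad_c1 3 lam).mul (im_c1.mul g_c1))).sub
    (contDiff_const.mul ((rad_c1 2 lam).mul im_c1))

theorem laplace (lam : ℝ) (x : ℂ) :
    fderiv ℝ (H1 lam) x 1 + fderiv ℝ (H2 lam) x Complex.I = -lam * H lam x := by
  rw [H1_fd, H2_fd, H]
  simp only [Complex.one_re, Complex.one_im, Complex.I_re, Complex.I_im]
  have h1 := B_ode 2 (lam * ‖x‖ ^ 2 / 4)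
  have h2 : ‖x‖ ^ 2 = x.re ^ 2 + x.im ^ 2 := by
    rw [← Complex.normSq_eq_norm_sq, Complex.normSq_apply]
    ring
  have h4 : lam * ‖x‖ ^ 2 / 4 * B 4 (lam * ‖x‖ ^ 2 / 4) =
      lam * (x.re ^ 2 + x.im ^ 2) / 4 * B 4 (lam * ‖x‖ ^ 2 / 4) := by rw [← h2]
  have h5 : lam * ‖x‖ ^ 2 / 4 * B 4 (lam * ‖x‖ ^ 2 / 4) - 3 * B 3 (lam * ‖x‖ ^ 2 / 4) +
      B 2 (lam * ‖x‖ ^ 2 / 4) = 0 := by
    have h6 : ((2 : ℕ) : ℝ) + 1 = 3 := by norm_num
    rw [h6] at h1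
    exact h1
  rw [h4] at h5
  linear_combination lam * (x.re ^ 2 - x.im ^ 2) * h5

end CoA

open CoA

theorem co_a : S_A := by
  intro Ω lam c u G hb hm h hlam hc
  have hfin := Sol.fin hb
  have hui := h.ui hb
  have huc : IntegrableOn (fun x => u x - c) Ω := hui.sub (integrable_const c)
  have w0 := (Pool.Agent.W632.Schiffer.weak_all hb hm h.h1 h.h2 _ (H_c1 lam)).2
  have w1 := (Pool.Agent.W632.Schiffer.weak_all hb hm h.h1 h.h2 _ (H1_c1 lam)).1 1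
  have w2 := (Pool.Agent.W632.Schiffer.weak_all hb hm h.h1 h.h2 _ (H2_c1 lam)).1 Complex.I
  simp only [H_fd] at w0
  have i3 : ∀ x : ℂ, (inner ℝ x (1 : ℂ) : ℝ) = x.re := fun x => by simp [Complex.inner]
  have i4 : ∀ x : ℂ, (inner ℝ x Complex.I : ℝ) = x.im := fun x => by simp [Complex.inner]
  simp only [i3, i4] at w1 w2
  have hGr : IntegrableOn (fun x => (G x).re) Ω := (h.Gi hb).re
  have hGim : IntegrableOn (fun x => (G x).im) Ω := (h.Gi hb).im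
  have c1 : Continuous fun x => fderiv ℝ (H1 lam) x 1 :=
    ((H1_c1 lam).continuous_fderiv (by simp)).clm_apply continuous_const
  have c2 : Continuous fun x => fderiv ℝ (H2 lam) x Complex.I :=
    ((H2_c1 lam).continuous_fderiv (by simp)).clm_apply continuous_const
  have j1 := int_mul hb hm huc c1
  have j2 := int_mul hb hm huc c2
  have j3 := int_mul hb hm hGr (H1_c1 lam).continuous
  have j4 := int_mul hb hm hGim (H2_c1 lam).continuous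
  have j5 := int_mul hb hm hui (H_c1 lam).continuous
  have j6 : IntegrableOn (fun x => c * H lam x) Ω :=
    int_mul hb hm (integrable_const c) (H_c1 lam).continuous
  have e1 : (∫ x in Ω, (u x - c) * fderiv ℝ (H1 lam) x 1) +
      ∫ x in Ω, (u x - c) * fderiv ℝ (H2 lam) x Complex.I =
      -lam * ((∫ x in Ω, u x * H lam x) - ∫ x in Ω, c * H lam x) := by
    rw [← integral_add j1 j2, ← integral_sub j5 j6, ← integral_const_mul]
    refine integral_congr_ae (Eventually.of_forall fun x => ?_)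
    simp only []
    linear_combination (u x - c) * laplace lam x
  have e2 : ∫ x in Ω, (H1 lam x * (G x).re + H2 lam x * (G x).im) =
      (∫ x in Ω, (G x).re * H1 lam x) + ∫ x in Ω, (G x).im * H2 lam x := by
    rw [← integral_add j3 j4]
    refine integral_congr_ae (Eventually.of_forall fun x => ?_)
    simp only []
    ring
  rw [e2] at w0
  have e3 : ∫ x in Ω, c * H lam x = c * ∫ x in Ω, H lam x := integral_const_mul _ _
  rw [e3] at e1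
  have h5 : lam * (c * ∫ x in Ω, H lam x) = 0 := by
    rw [w1, w2] at e1
    linear_combination -e1 - w0
  rcases mul_eq_zero.1 h5 with h6 | h6
  · exact absurd h6 hlam.ne'
  · exact (mul_eq_zero.1 h6).resolve_left hc

end TH259.CO
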