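import Mathlib
import Pool.Agent.TH298.AN.Disc

/-! Project CO (convex ovals, all frequencies): the statements of the pieces. -/

set_option autoImplicit false

open MeasureTheory Set Real Filter Topology Metric TH259.NS
open Pool.Agent.TH298.Sch (Sol)

namespace TH259.CO

/-- `J_0` -/
noncomputable def j (t : ℝ) : ℝ := B 0 (t ^ 2 / 4)

/-- `t J_1(t)` -/
noncomputable def e (t : ℝ) : ℝ := t ^ 2 / 2 * B 1 (t ^ 2 / 4)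

/-- CO-A -/
def S_A : Prop := ∀ (Ω : Set ℂ) (lam c : ℝ) (u : ℂ → ℝ) (G : ℂ → ℂ), Bornology.IsBounded Ω →
  MeasurableSet Ω → Sol Ω lam c u G → 0 < lam → c ≠ 0 →
  ∫ x in Ω, B 2 (lam * ‖x‖ ^ 2 / 4) * (x.re ^ 2 - x.im ^ 2) = 0

/-- CO-B -/
def S_B : Prop := ∀ (T : ℝ → ℝ), Measurable T → ∀ L q U : ℝ, L < q → q < U →
  (∀ φ, T φ ∈ Ico L U) →
  (∀ φ ψ, cos (2 * φ) ≤ cos (2 * ψ) → T φ ≤ T ψ) →
  ∀ e p : ℝ → ℝ, Continuous e → Continuous p →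
  (∀ t ∈ Ico L q, e t < 0) → e q = 0 → (∀ t ∈ Ioc q U, 0 < e t) →
  MonotoneOn p (Icc L q) → (∀ t ∈ Ico L q, p t < 0) → p q = 0 → (∀ t ∈ Ioc q U, 0 < p t) →
  (∀ t ∈ Icc L U, p t ≤ e t) →
  ∫ φ in Ioo (-π) π, e (T φ) = 0 → ∫ φ in Ioo (-π) π, p (T φ) * cos (2 * φ) = 0 →
  ∀ᵐ φ ∂(volume.restrict (Ioo (-π) π)), T φ = q

/-- the radial function of a starlike set -/
noncomputable def rad (Ω : Set ℂ) (φ : ℝ) : ℝ :=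
  sSup {t : ℝ | 0 < t ∧ (t : ℂ) * Complex.exp (φ * Complex.I) ∈ Ω}

/-- CO-P -/
def S_P : Prop := ∀ (Ω : Set ℂ) (a R : ℝ), IsOpen Ω → Convex ℝ Ω → 0 < a → ball (0 : ℂ) a ⊆ Ω →
  (∀ x ∈ Ω, ‖x‖ ≤ R) →
  Measurable (rad Ω) ∧
  (∀ (φ t : ℝ), 0 < t → ((t : ℂ) * Complex.exp (φ * Complex.I) ∈ Ω ↔ t < rad Ω φ)) ∧
  ∀ F : ℂ → ℝ, Continuous F → ∀ g : ℝ → ℝ → ℝ,
    (∀ φ t : ℝ, HasDerivAt (g φ) (t * F ((t : ℂ) * Complex.exp (φ * Complex.I))) t) →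
    (∀ φ, g φ 0 = 0) →
    ∫ x in Ω, F x = ∫ φ in Ioo (-π) π, g φ (rad Ω φ)

/-- CO-N: numerical values -/
def S_N : Prop := 0.545 < √(2 * π) * j (2 * π) ∧ √(2 * π) * j (2 * π) < 0.56 ∧
  0.568 < -(e (2 * π) / √(2 * π)) + j (2 * π) / (2 * √(2 * π)) ∧
  -(e (2 * π) / √(2 * π)) + j (2 * π) / (2 * √(2 * π)) < 0.585

/-- CO-C -/
def S_C : Prop := ∀ k : ℕ, 2 ≤ k → ∃ q : ℝ, k * π < q ∧ q < (k + 1) * π ∧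
  (∀ t ∈ Ico (k * π) q, (-1) ^ k * e t < 0) ∧ e q = 0 ∧
  (∀ t ∈ Ioc q ((k + 1) * π), 0 < (-1) ^ k * e t) ∧
  (∀ t ∈ Icc (k * π) q, 0 < (-1) ^ k * j t) ∧
  (∀ t ∈ Ioc q ((k + 1) * π), 2 * ((-1) ^ k * (j q - j t)) < (-1) ^ k * e t)

end TH259.CO
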