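import Mathlib
import Pool.Agent.TH259.CO.Stm

/-! Project CO, piece B: the angular argument. -/

set_option autoImplicit false

open MeasureTheory Set Real Filter Topology Metric

namespace TH259.CO

private theorem B_zero {x : ℝ} (v : ℝ) :
    ∀ᵐ φ ∂(volume.restrict (Ioo (-x) x)), cos (2 * φ) ≠ v := by
  refine ae_restrict_of_ae ?_
  have hc : ({φ : ℝ | cos (2 * φ) = v}).Countable := by
    rcases Set.eq_empty_or_nonempty {φ : ℝ | cos (2 * φ) = v} with h | ⟨φ₀, h₀⟩
    · rw [h]
      exact Set.countable_empty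
    · have hsub : {φ : ℝ | cos (2 * φ) = v} ⊆
          (Set.range fun k : ℤ => φ₀ + k * π) ∪ (Set.range fun k : ℤ => -φ₀ + k * π) := by
        intro φ hφ
        have h1 : cos (2 * φ₀) = cos (2 * φ) := by
          rw [h₀, hφ]
        obtain ⟨k, hk | hk⟩ := Real.cos_eq_cos_iff.1 h1
        · left
          exact ⟨k, by simp only; linarith⟩
        · right
          exact ⟨k, by simp only; linarith⟩
      exact ((Set.countable_range _).union (Set.countable_range _)).mono hsub
  have h0 := hc.measure_zero (volume : Measure ℝ)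
  rw [ae_iff]
  simpa using h0

private theorem B_cos : ∫ φ in Ioo (-π) π, cos (2 * φ) = 0 := by
  have h1 : ∫ φ in (-π)..π, cos (2 * φ) = 0 := by
    rw [intervalIntegral.integral_comp_mul_left (fun x => cos x) two_ne_zero, integral_cos]
    have h2 : sin (2 * π) = 0 := Real.sin_two_pi
    have h3 : sin (2 * -π) = 0 := by
      rw [mul_neg, Real.sin_neg, h2, neg_zero]
    rw [h2, h3]
    simp
  rw [intervalIntegral.integral_of_le (by linarith [Real.pi_pos]),
    integral_Ioc_eq_integral_Ioo] at h1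
  exact h1

private theorem B_main (μ : Measure ℝ) [IsFiniteMeasure μ]
    (hμ : ∀ v : ℝ, ∀ᵐ φ ∂μ, cos (2 * φ) ≠ v) (hc0 : ∫ φ, cos (2 * φ) ∂μ = 0)
    (T : ℝ → ℝ) (hT : Measurable T) (L q U : ℝ) (hLq : L < q) (hqU : q < U)
    (hTr : ∀ φ, T φ ∈ Ico L U)
    (hmon : ∀ φ ψ, cos (2 * φ) ≤ cos (2 * ψ) → T φ ≤ T ψ)
    (e p : ℝ → ℝ) (he : Continuous e) (hp : Continuous p)
    (e1 : ∀ t ∈ Ico L q, e t < 0) (e3 : ∀ t ∈ Ioc q U, 0 < e t)
    (pm : MonotoneOn p (Icc L q)) (p1 : ∀ t ∈ Ico L q, p t < 0) (p2 : p q = 0)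
    (p3 : ∀ t ∈ Ioc q U, 0 < p t) (hpe : ∀ t ∈ Icc L U, p t ≤ e t)
    (hE : ∫ φ, e (T φ) ∂μ = 0) (hP : ∫ φ, p (T φ) * cos (2 * φ) ∂μ = 0) :
    ∀ᵐ φ ∂μ, T φ = q := by
  have hbd : ∀ f : ℝ → ℝ, Continuous f → ∃ M, ∀ φ, ‖f (T φ)‖ ≤ M := by
    intro f hf
    obtain ⟨M, hM⟩ := isCompact_Icc.exists_bound_of_continuousOn (s := Icc L U) hf.continuousOn
    exact ⟨M, fun φ => hM _ ⟨(hTr φ).1, (hTr φ).2.le⟩⟩
  have hi1 : ∀ f : ℝ → ℝ, Continuous f → Integrable (fun φ => f (T φ)) μ := by
    intro f hf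
    obtain ⟨M, hM⟩ := hbd f hf
    exact Integrable.of_bound (hf.measurable.comp hT).aestronglyMeasurable M
      (Eventually.of_forall hM)
  have hcm : Measurable fun φ : ℝ => cos (2 * φ) := by fun_prop
  have hi2 : ∀ f : ℝ → ℝ, Continuous f → Integrable (fun φ => f (T φ) * cos (2 * φ)) μ := by
    intro f hf
    obtain ⟨M, hM⟩ := hbd f hf
    refine Integrable.of_bound ((hf.measurable.comp hT).mul hcm).aestronglyMeasurable M
      (Eventually.of_forall fun φ => ?_)
    rw [norm_mul]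
    have h1 : ‖cos (2 * φ)‖ ≤ 1 := by
      rw [Real.norm_eq_abs]
      exact Real.abs_cos_le_one _
    calc ‖f (T φ)‖ * ‖cos (2 * φ)‖ ≤ ‖f (T φ)‖ * 1 :=
          mul_le_mul_of_nonneg_left h1 (norm_nonneg _)
      _ ≤ M := by rw [mul_one]; exact hM φ
  have hic : Integrable (fun φ : ℝ => cos (2 * φ)) μ :=
    Integrable.of_bound hcm.aestronglyMeasurable 1
      (Eventually.of_forall fun φ => by
        rw [Real.norm_eq_abs]
        exact Real.abs_cos_le_one _)
  have hpq : ∀ t ∈ Icc L q, p t ≤ 0 := by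
    intro t ht
    rcases ht.2.lt_or_eq with h | h
    · exact (p1 t ⟨ht.1, h⟩).le
    · rw [h, p2]
  have hc4 : cos (2 * (π / 4)) = 0 := by
    rw [show 2 * (π / 4) = π / 2 by ring, Real.cos_pi_div_two]
  by_cases h4 : T (π / 4) ≤ q
  · -- case (i)
    have hT0 : T (π / 4) ∈ Icc L q := ⟨(hTr _).1, h4⟩
    have hF : ∀ φ, 0 ≤ (p (T φ) - p (T (π / 4))) * cos (2 * φ) := by
      intro φ
      rcases le_total 0 (cos (2 * φ)) with hc | hc
      · refine mul_nonneg ?_ hc
        have h1 : T (π / 4) ≤ T φ := hmon _ _ (by rw [hc4]; exact hc)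
        rw [sub_nonneg]
        by_cases h2 : T φ ≤ q
        · exact pm hT0 ⟨(hTr _).1, h2⟩ h1
        · push Not at h2
          exact (hpq _ hT0).trans (p3 _ ⟨h2, (hTr _).2.le⟩).le
      · refine mul_nonneg_of_nonpos_of_nonpos ?_ hc
        have h1 : T φ ≤ T (π / 4) := hmon _ _ (by rw [hc4]; exact hc)
        rw [sub_nonpos]
        exact pm ⟨(hTr _).1, h1.trans h4⟩ hT0 h1
    have hFi : Integrable (fun φ => (p (T φ) - p (T (π / 4))) * cos (2 * φ)) μ := by
      have := (hi2 p hp).sub (hic.const_mul (p (T (π / 4))))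
      refine this.congr (Eventually.of_forall fun φ => ?_)
      simp only [Pi.sub_apply]
      ring
    have hF0 : ∫ φ, (p (T φ) - p (T (π / 4))) * cos (2 * φ) ∂μ = 0 := by
      have h1 : (fun φ => (p (T φ) - p (T (π / 4))) * cos (2 * φ)) =
          fun φ => p (T φ) * cos (2 * φ) - p (T (π / 4)) * cos (2 * φ) := by
        funext φ
        ring
      rw [h1, integral_sub (hi2 p hp) (hic.const_mul _), integral_const_mul, hP, hc0]
      ring
    have hFae := (integral_eq_zero_iff_of_nonneg hF hFi).1 hF0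
    have hTq : ∀ᵐ φ ∂μ, T φ ≤ q := by
      filter_upwards [hFae, hμ 0] with φ h1 h2
      have h3 : p (T φ) = p (T (π / 4)) := by
        have h5 : (p (T φ) - p (T (π / 4))) * cos (2 * φ) = 0 := h1
        rcases mul_eq_zero.1 h5 with h | h
        · linarith
        · exact absurd h h2
      by_contra h5
      push Not at h5
      have h6 := p3 _ ⟨h5, (hTr _).2.le⟩
      rw [h3] at h6
      exact absurd (hpq _ hT0) (not_le.2 h6)
    have hEn : 0 ≤ᵐ[μ] fun φ => -e (T φ) := by
      filter_upwards [hTq] with φ h1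
      simp only [Pi.zero_apply]
      rw [neg_nonneg]
      rcases h1.lt_or_eq with h | h
      · exact (e1 _ ⟨(hTr _).1, h⟩).le
      · rw [h]
        by_contra hc
        push Not at hc
        -- `e q ≤ 0` by continuity
        have h7 : e q ≤ 0 := by
          have hcw : Tendsto e (𝓝[<] q) (𝓝 (e q)) := he.continuousAt.tendsto.mono_left
            nhdsWithin_le_nhds
          refine le_of_tendsto hcw ?_
          filter_upwards [Ico_mem_nhdsLT hLq] with t ht
          exact (e1 t ht).le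
        exact absurd h7 (not_le.2 hc)
    have hEae := (integral_eq_zero_iff_of_nonneg_ae hEn (hi1 e he).neg).1
      (by rw [integral_neg, hE, neg_zero])
    filter_upwards [hTq, hEae] with φ h1 h2
    rcases h1.lt_or_eq with h | h
    · have h3 := e1 _ ⟨(hTr φ).1, h⟩
      have h5 : -e (T φ) = 0 := h2
      linarith
    · exact h
  · -- case (ii)
    push Not at h4
    obtain ⟨S, hS⟩ : ∃ S : Set ℝ, S = {c : ℝ | ∃ φ, q < T φ ∧ cos (2 * φ) = c} := ⟨_, rfl⟩
    have hSn : (0 : ℝ) ∈ S := by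
      rw [hS]
      exact ⟨π / 4, h4, hc4⟩
    have hSb : BddBelow S := by
      refine ⟨-1, ?_⟩
      rw [hS]
      rintro c ⟨φ, -, rfl⟩
      exact Real.neg_one_le_cos _
    obtain ⟨c1, hc1⟩ : ∃ c1, c1 = sInf S := ⟨_, rfl⟩
    have hc1n : c1 ≤ 0 := by
      rw [hc1]
      exact csInf_le hSb hSn
    have hG : ∀ φ, 0 ≤ p (T φ) * (cos (2 * φ) - c1) := by
      intro φ
      rcases lt_trichotomy (T φ) q with h | h | h
      · refine mul_nonneg_of_nonpos_of_nonpos (p1 _ ⟨(hTr _).1, h⟩).le ?_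
        rw [sub_nonpos, hc1]
        refine le_csInf ⟨0, hSn⟩ ?_
        rw [hS]
        rintro c ⟨ψ, hψ, rfl⟩
        by_contra hc
        push Not at hc
        exact absurd (hmon _ _ hc.le) (not_le.2 (h.trans hψ))
      · rw [h, p2, zero_mul]
      · refine mul_nonneg (p3 _ ⟨h, (hTr _).2.le⟩).le ?_
        rw [sub_nonneg, hc1]
        refine csInf_le hSb ?_
        rw [hS]
        exact ⟨φ, h, rfl⟩
    have hGi : Integrable (fun φ => p (T φ) * (cos (2 * φ) - c1)) μ := by
      have := (hi2 p hp).sub ((hi1 p hp).const_mul c1)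
      refine this.congr (Eventually.of_forall fun φ => ?_)
      simp only [Pi.sub_apply]
      ring
    have hG0 : ∫ φ, p (T φ) * (cos (2 * φ) - c1) ∂μ = 0 := by
      refine le_antisymm ?_ (integral_nonneg hG)
      have h1 : (fun φ => p (T φ) * (cos (2 * φ) - c1)) =
          fun φ => p (T φ) * cos (2 * φ) - c1 * p (T φ) := by
        funext φ
        ring
      rw [h1, integral_sub (hi2 p hp) ((hi1 p hp).const_mul _), integral_const_mul, hP]
      have h2 : ∫ φ, p (T φ) ∂μ ≤ 0 := by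
        rw [← hE]
        exact integral_mono (hi1 p hp) (hi1 e he) fun φ => hpe _ ⟨(hTr φ).1, (hTr φ).2.le⟩
      have h3 : 0 ≤ c1 * ∫ φ, p (T φ) ∂μ := mul_nonneg_of_nonpos_of_nonpos hc1n h2
      linarith
    have hGae := (integral_eq_zero_iff_of_nonneg hG hGi).1 hG0
    filter_upwards [hGae, hμ c1] with φ h1 h2
    have h3 : p (T φ) = 0 := by
      have h5 : p (T φ) * (cos (2 * φ) - c1) = 0 := h1
      rcases mul_eq_zero.1 h5 with h | h
      · exact h
      · exact absurd (sub_eq_zero.1 h) h2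
    rcases lt_trichotomy (T φ) q with h | h | h
    · have := p1 _ ⟨(hTr φ).1, h⟩
      linarith
    · exact h
    · have := p3 _ ⟨h, (hTr φ).2.le⟩
      linarith

theorem co_b : S_B := by
  intro T hT L q U hLq hqU hTr hmon e p he hp e1 _ e3 pm p1 p2 p3 hpe hE hP
  exact B_main (volume.restrict (Ioo (-π) π)) (fun v => B_zero v) B_cos T hT L q U hLq hqU hTr
    hmon e p he hp e1 e3 pm p1 p2 p3 hpe hE hP

end TH259.CO
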