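import Pool.Agent.TH259.CO.Stm

/-! Project CO: the general version (no symmetry axes). -/

set_option autoImplicit false

open MeasureTheory Set Real Filter Topology Metric TH259.NS
open Pool.Agent.TH298.Sch (Sol)

namespace TH259.CO

/-- CO-A2 -/
def S_A2 : Prop := ∀ (Ω : Set ℂ) (lam c : ℝ) (u : ℂ → ℝ) (G : ℂ → ℂ), Bornology.IsBounded Ω →
  MeasurableSet Ω → Sol Ω lam c u G → 0 < lam → c ≠ 0 →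
  ∫ x in Ω, B 2 (lam * ‖x‖ ^ 2 / 4) * (x.re * x.im) = 0

/-- CO-B2 -/
def S_B2 : Prop := ∀ (T : ℝ → ℝ), Measurable T → ∀ L q U : ℝ, L < q → q < U →
  (∀ φ, T φ ∈ Ico L U) →
  (∀ t, ∃ α c : ℝ, ∀ φ, t < T φ ↔ c < cos (2 * (φ - α))) →
  ∀ e p : ℝ → ℝ, Continuous e → Continuous p →
  (∀ t ∈ Ico L q, e t < 0) → e q = 0 → (∀ t ∈ Ioc q U, 0 < e t) →
  MonotoneOn p (Icc L q) → (∀ t ∈ Ico L q, p t < 0) → p q = 0 → (∀ t ∈ Ioc q U, 0 < p t) →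
  (∀ t ∈ Icc L U, p t ≤ e t) →
  ∫ φ in Ioo (-π) π, e (T φ) = 0 →
  (∀ α : ℝ, ∫ φ in Ioo (-π) π, p (T φ) * cos (2 * (φ - α)) = 0) →
  ∀ᵐ φ ∂(volume.restrict (Ioo (-π) π)), T φ = q

/-- CO-H: the half circle between nested caps (used for CO-B2) -/
def S_H : Prop := ∀ (T : ℝ → ℝ) (L U : ℝ), (∀ φ, T φ ∈ Ico L U) →
  (∀ t, ∃ α c : ℝ, ∀ φ, t < T φ ↔ c < cos (2 * (φ - α))) →
  ∀ q : ℝ, (∃ α c : ℝ, 0 < c ∧ ∀ φ, q < T φ ↔ c < cos (2 * (φ - α))) →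
  (∀ φ, T φ ≤ q) ∨ ∃ m ≤ q, L ≤ m ∧ ∃ α : ℝ, (∀ φ, 0 < cos (2 * (φ - α)) → m ≤ T φ) ∧
    (∀ φ, cos (2 * (φ - α)) < 0 → T φ ≤ m)

end TH259.CO
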