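import Mathlib
import Pool.Agent.TH259.CO.Stm2

/-! Project CO, piece B2: the angular argument with caps. -/

set_option autoImplicit false

open MeasureTheory Set Real Filter Topology Metric

namespace TH259.CO

namespace B2

theorem zero {x : ℝ} (α v : ℝ) :
    ∀ᵐ φ ∂(volume.restrict (Ioo (-x) x)), cos (2 * (φ - α)) ≠ v := by
  refine ae_restrict_of_ae ?_
  have hc : ({φ : ℝ | cos (2 * (φ - α)) = v}).Countable := by
    rcases Set.eq_empty_or_nonempty {φ : ℝ | cos (2 * (φ - α)) = v} with h | ⟨φ₀, h₀⟩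
    · rw [h]
      exact Set.countable_empty
    · have hsub : {φ : ℝ | cos (2 * (φ - α)) = v} ⊆
          (Set.range fun k : ℤ => φ₀ + k * π) ∪ (Set.range fun k : ℤ => 2 * α - φ₀ + k * π) := by
        intro φ hφ
        have h1 : cos (2 * (φ₀ - α)) = cos (2 * (φ - α)) := by
          rw [h₀, hφ]
        obtain ⟨k, hk | hk⟩ := Real.cos_eq_cos_iff.1 h1
        · left
          exact ⟨k, by simp only; linarith⟩
        · right
          exact ⟨k, by simp only; linarith⟩
      exact ((Set.countable_range _).union (Set.countable_range _)).mono hsub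
  have h0 := hc.measure_zero (volume : Measure ℝ)
  rw [ae_iff]
  simpa using h0

theorem int_cos (α : ℝ) : ∫ φ in Ioo (-π) π, cos (2 * (φ - α)) = 0 := by
  have h1 : ∫ φ in (-π)..π, cos (2 * (φ - α)) = 0 := by
    have e1 : ∀ φ : ℝ, cos (2 * (φ - α)) = cos (2 * φ - 2 * α) := fun φ => by
      congr 1
      ring
    simp only [e1]
    rw [intervalIntegral.integral_comp_mul_sub (fun x => cos x) two_ne_zero, integral_cos]
    have h2 : sin (2 * π - 2 * α) = -sin (2 * α) := Real.sin_two_pi_sub _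
    have h3 : sin (2 * -π - 2 * α) = -sin (2 * α) := by
      have : 2 * -π - 2 * α = -(2 * α) - 2 * π := by ring
      rw [this, Real.sin_sub_two_pi, Real.sin_neg]
    rw [h2, h3, sub_self, smul_zero]
  rw [intervalIntegral.integral_of_le (by linarith [Real.pi_pos]),
    integral_Ioc_eq_integral_Ioo] at h1
  exact h1

theorem main (μ : Measure ℝ) [IsFiniteMeasure μ]
    (hμ : ∀ α v : ℝ, ∀ᵐ φ ∂μ, cos (2 * (φ - α)) ≠ v)
    (hc0 : ∀ α : ℝ, ∫ φ, cos (2 * (φ - α)) ∂μ = 0)
    (T : ℝ → ℝ) (hT : Measurable T) (L q U : ℝ) (hLq : L < q)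
    (hTr : ∀ φ, T φ ∈ Ico L U)
    (hcap : ∃ α c : ℝ, ∀ φ, q < T φ ↔ c < cos (2 * (φ - α)))
    (hH : (∃ α c : ℝ, 0 < c ∧ ∀ φ, q < T φ ↔ c < cos (2 * (φ - α))) →
      (∀ φ, T φ ≤ q) ∨ ∃ m ≤ q, L ≤ m ∧ ∃ α : ℝ, (∀ φ, 0 < cos (2 * (φ - α)) → m ≤ T φ) ∧
        (∀ φ, cos (2 * (φ - α)) < 0 → T φ ≤ m))
    (e p : ℝ → ℝ) (he : Continuous e) (hp : Continuous p)
    (e1 : ∀ t ∈ Ico L q, e t < 0) (e2 : e q = 0)
    (pm : MonotoneOn p (Icc L q)) (p1 : ∀ t ∈ Ico L q, p t < 0) (p2 : p q = 0)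
    (p3 : ∀ t ∈ Ioc q U, 0 < p t) (hpe : ∀ t ∈ Icc L U, p t ≤ e t)
    (hE : ∫ φ, e (T φ) ∂μ = 0)
    (hP : ∀ α : ℝ, ∫ φ, p (T φ) * cos (2 * (φ - α)) ∂μ = 0) :
    ∀ᵐ φ ∂μ, T φ = q := by
  have hbd : ∀ f : ℝ → ℝ, Continuous f → ∃ M, ∀ φ, ‖f (T φ)‖ ≤ M := by
    intro f hf
    obtain ⟨M, hM⟩ := isCompact_Icc.exists_bound_of_continuousOn (s := Icc L U) hf.continuousOn
    exact ⟨M, fun φ => hM _ ⟨(hTr φ).1, (hTr φ).2.le⟩⟩
  have hi1 : ∀ f : ℝ → ℝ, Continuous f → Integrable (fun φ => f (T φ)) μ := by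
    intro f hf
    obtain ⟨M, hM⟩ := hbd f hf
    exact Integrable.of_bound (hf.measurable.comp hT).aestronglyMeasurable M
      (Eventually.of_forall hM)
  have hcm : ∀ α : ℝ, Measurable fun φ : ℝ => cos (2 * (φ - α)) := fun α => by fun_prop
  have hi2 : ∀ (α : ℝ) (f : ℝ → ℝ), Continuous f →
      Integrable (fun φ => f (T φ) * cos (2 * (φ - α))) μ := by
    intro α f hf
    obtain ⟨M, hM⟩ := hbd f hf
    refine Integrable.of_bound ((hf.measurable.comp hT).mul (hcm α)).aestronglyMeasurable M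
      (Eventually.of_forall fun φ => ?_)
    rw [norm_mul]
    have h1 : ‖cos (2 * (φ - α))‖ ≤ 1 := by
      rw [Real.norm_eq_abs]
      exact Real.abs_cos_le_one _
    calc ‖f (T φ)‖ * ‖cos (2 * (φ - α))‖ ≤ ‖f (T φ)‖ * 1 :=
          mul_le_mul_of_nonneg_left h1 (norm_nonneg _)
      _ ≤ M := by rw [mul_one]; exact hM φ
  have hic : ∀ α : ℝ, Integrable (fun φ : ℝ => cos (2 * (φ - α))) μ := fun α =>
    Integrable.of_bound (hcm α).aestronglyMeasurable 1
      (Eventually.of_forall fun φ => by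
        rw [Real.norm_eq_abs]
        exact Real.abs_cos_le_one _)
  have hpq : ∀ t ∈ Icc L q, p t ≤ 0 := by
    intro t ht
    rcases ht.2.lt_or_eq with h | h
    · exact (p1 t ⟨ht.1, h⟩).le
    · rw [h, p2]
  -- the end of the argument
  have fin : (∀ᵐ φ ∂μ, T φ ≤ q) → ∀ᵐ φ ∂μ, T φ = q := by
    intro hTq
    have hEn : 0 ≤ᵐ[μ] fun φ => -e (T φ) := by
      filter_upwards [hTq] with φ h1
      simp only [Pi.zero_apply]
      rw [neg_nonneg]
      rcases h1.lt_or_eq with h | h
      · exact (e1 _ ⟨(hTr _).1, h⟩).le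
      · rw [h, e2]
    have hEae := (integral_eq_zero_iff_of_nonneg_ae hEn (hi1 e he).neg).1
      (by rw [integral_neg, hE, neg_zero])
    filter_upwards [hTq, hEae] with φ h1 h2
    rcases h1.lt_or_eq with h | h
    · have h3 := e1 _ ⟨(hTr φ).1, h⟩
      have h5 : -e (T φ) = 0 := h2
      linarith
    · exact h
  obtain ⟨α, c, hαc⟩ := hcap
  by_cases hc : c ≤ 0
  · have hG : ∀ φ, 0 ≤ p (T φ) * (cos (2 * (φ - α)) - c) := by
      intro φ
      rcases lt_trichotomy (T φ) q with h | h | h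
      · refine mul_nonneg_of_nonpos_of_nonpos (p1 _ ⟨(hTr _).1, h⟩).le ?_
        rw [sub_nonpos]
        by_contra hcc
        push Not at hcc
        exact absurd ((hαc φ).2 hcc) (not_lt.2 h.le)
      · rw [h, p2, zero_mul]
      · refine mul_nonneg (p3 _ ⟨h, (hTr _).2.le⟩).le ?_
        rw [sub_nonneg]
        exact ((hαc φ).1 h).le
    have hGi : Integrable (fun φ => p (T φ) * (cos (2 * (φ - α)) - c)) μ := by
      have := (hi2 α p hp).sub ((hi1 p hp).const_mul c)
      refine this.congr (Eventually.of_forall fun φ => ?_)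
      simp only [Pi.sub_apply]
      ring
    have hG0 : ∫ φ, p (T φ) * (cos (2 * (φ - α)) - c) ∂μ = 0 := by
      refine le_antisymm ?_ (integral_nonneg hG)
      have h1 : (fun φ => p (T φ) * (cos (2 * (φ - α)) - c)) =
          fun φ => p (T φ) * cos (2 * (φ - α)) - c * p (T φ) := by
        funext φ
        ring
      rw [h1, integral_sub (hi2 α p hp) ((hi1 p hp).const_mul _), integral_const_mul, hP]
      have h2 : ∫ φ, p (T φ) ∂μ ≤ 0 := by
        rw [← hE]
        exact integral_mono (hi1 p hp) (hi1 e he) fun φ => hpe _ ⟨(hTr φ).1, (hTr φ).2.le⟩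
      have h3 : 0 ≤ c * ∫ φ, p (T φ) ∂μ := mul_nonneg_of_nonpos_of_nonpos hc h2
      linarith
    have hGae := (integral_eq_zero_iff_of_nonneg hG hGi).1 hG0
    filter_upwards [hGae, hμ α c] with φ h1 h2
    have h3 : p (T φ) = 0 := by
      have h5 : p (T φ) * (cos (2 * (φ - α)) - c) = 0 := h1
      rcases mul_eq_zero.1 h5 with h | h
      · exact h
      · exact absurd (sub_eq_zero.1 h) h2
    rcases lt_trichotomy (T φ) q with h | h | h
    · have := p1 _ ⟨(hTr φ).1, h⟩
      linarith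
    · exact h
    · have := p3 _ ⟨h, (hTr φ).2.le⟩
      linarith
  · push Not at hc
    rcases hH ⟨α, c, hc, hαc⟩ with h | ⟨m, hmq, hLm, β, hb1, hb2⟩
    · exact fin (Eventually.of_forall h)
    · have hm0 : m ∈ Icc L q := ⟨hLm, hmq⟩
      have hF : ∀ φ, 0 ≤ (p (T φ) - p m) * cos (2 * (φ - β)) := by
        intro φ
        rcases lt_trichotomy (cos (2 * (φ - β))) 0 with h | h | h
        · refine mul_nonneg_of_nonpos_of_nonpos ?_ h.le
          have h1 := hb2 φ h
          rw [sub_nonpos]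
          exact pm ⟨(hTr _).1, h1.trans hmq⟩ hm0 h1
        · rw [h, mul_zero]
        · refine mul_nonneg ?_ h.le
          have h1 := hb1 φ h
          rw [sub_nonneg]
          by_cases h2 : T φ ≤ q
          · exact pm hm0 ⟨(hTr _).1, h2⟩ h1
          · push Not at h2
            exact (hpq _ hm0).trans (p3 _ ⟨h2, (hTr _).2.le⟩).le
      have hFi : Integrable (fun φ => (p (T φ) - p m) * cos (2 * (φ - β))) μ := by
        have := (hi2 β p hp).sub ((hic β).const_mul (p m))
        refine this.congr (Eventually.of_forall fun φ => ?_)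
        simp only [Pi.sub_apply]
        ring
      have hF0 : ∫ φ, (p (T φ) - p m) * cos (2 * (φ - β)) ∂μ = 0 := by
        have h1 : (fun φ => (p (T φ) - p m) * cos (2 * (φ - β))) =
            fun φ => p (T φ) * cos (2 * (φ - β)) - p m * cos (2 * (φ - β)) := by
          funext φ
          ring
        rw [h1, integral_sub (hi2 β p hp) ((hic β).const_mul _), integral_const_mul, hP, hc0]
        ring
      have hFae := (integral_eq_zero_iff_of_nonneg hF hFi).1 hF0
      refine fin ?_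
      filter_upwards [hFae, hμ β 0] with φ h1 h2
      have h3 : p (T φ) = p m := by
        have h5 : (p (T φ) - p m) * cos (2 * (φ - β)) = 0 := h1
        rcases mul_eq_zero.1 h5 with h | h
        · linarith
        · exact absurd h h2
      by_contra h5
      push Not at h5
      have h6 := p3 _ ⟨h5, (hTr _).2.le⟩
      rw [h3] at h6
      exact absurd (hpq _ hm0) (not_le.2 h6)

end B2

theorem co_b2 (hH : S_H) : S_B2 := by
  intro T hT L q U hLq _ hTr hcap e p he hp e1 e2 _ pm p1 p2 p3 hpe hE hP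
  exact B2.main (volume.restrict (Ioo (-π) π)) (fun α v => B2.zero α v) B2.int_cos T hT L q U hLq
    hTr (hcap q) (hH T L U hTr hcap q) e p he hp e1 e2 pm p1 p2 p3 hpe hE hP

end TH259.CO
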