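import Pool.Agent.TH259.CO.Stm

/-! `J_0` and `t J_1(t)` between `kπ` and `(k+1)π`. -/

set_option autoImplicit false

open MeasureTheory Set Real Filter Topology Metric TH259.NS

namespace TH259.CO

theorem j_deriv (t : ℝ) : HasDerivAt j (-(t / 2) * B 1 (t ^ 2 / 4)) t := by
  have h1 : HasDerivAt (fun t : ℝ => t ^ 2 / 4) (t / 2) t := by
    have := (hasDerivAt_pow 2 t).div_const 4
    refine this.congr_deriv ?_
    simp
    ring
  have h2 := (B_deriv 0 (t ^ 2 / 4)).comp t h1
  refine h2.congr_deriv ?_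
  simp only [zero_add]
  ring

theorem e_deriv (t : ℝ) : HasDerivAt e (t * j t) t := by
  have h1 : HasDerivAt (fun t : ℝ => t ^ 2 / 4) (t / 2) t := by
    have := (hasDerivAt_pow 2 t).div_const 4
    refine this.congr_deriv ?_
    simp
    ring
  have h2 := (B_deriv 1 (t ^ 2 / 4)).comp t h1
  have h3 : HasDerivAt (fun t : ℝ => t ^ 2 / 2) t t := by
    have := (hasDerivAt_pow 2 t).div_const 2
    refine this.congr_deriv ?_
    simp
  refine (h3.mul h2).congr_deriv ?_
  have h4 := B_ode 0 (t ^ 2 / 4)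
  simp only [Nat.cast_zero, zero_add, one_mul] at h4
  simp only [j, Function.comp_apply, Nat.reduceAdd]
  linear_combination (-t) * h4

theorem j_deriv' {t : ℝ} (ht : t ≠ 0) : HasDerivAt j (-(e t / t)) t := by
  refine (j_deriv t).congr_deriv ?_
  unfold e
  field_simp

theorem j_cont : Continuous j := continuous_iff_continuousAt.2 fun t => (j_deriv t).continuousAt
theorem e_cont : Continuous e := continuous_iff_continuousAt.2 fun t => (e_deriv t).continuousAt

noncomputable def x (t : ℝ) : ℝ := √t * j t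
noncomputable def y (t : ℝ) : ℝ := -(e t / √t) + j t / (2 * √t)

theorem x_deriv {t : ℝ} (ht : 0 < t) : HasDerivAt x (y t) t := by
  have h1 := (Real.hasDerivAt_sqrt ht.ne').mul (j_deriv' ht.ne')
  refine h1.congr_deriv ?_
  have hs : 0 < √t := Real.sqrt_pos.2 ht
  have hq : √t * √t = t := Real.mul_self_sqrt ht.le
  obtain ⟨w, hw⟩ : ∃ w, w = √t := ⟨_, rfl⟩
  rw [← hw] at hs hq ⊢
  unfold y
  rw [← hw]
  have : e t / t = e t / (w * w) := by rw [hq]
  rw [this]
  field_simp
  ring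

theorem y_deriv {t : ℝ} (ht : 0 < t) : HasDerivAt y (-(x t) * (1 + 1 / (4 * t ^ 2))) t := by
  have hs : 0 < √t := Real.sqrt_pos.2 ht
  have hq : √t * √t = t := Real.mul_self_sqrt ht.le
  have d := Real.hasDerivAt_sqrt ht.ne'
  have h1 := ((e_deriv t).div d hs.ne').neg
  have h2 := (j_deriv' ht.ne').div (d.const_mul 2) (by positivity : (2 * √t) ≠ 0)
  refine (h1.add h2).congr_deriv ?_
  unfold x
  obtain ⟨w, hw⟩ : ∃ w, w = √t := ⟨_, rfl⟩
  rw [← hw] at hs hq ⊢
  obtain ⟨E, hE⟩ : ∃ E, E = e t := ⟨_, rfl⟩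
  obtain ⟨Jv, hJ⟩ : ∃ Jv, Jv = j t := ⟨_, rfl⟩
  rw [← hE, ← hJ]
  rw [← hq]
  field_simp
  ring

noncomputable def a (t : ℝ) : ℝ := x t * cos t - y t * sin t
noncomputable def b (t : ℝ) : ℝ := x t * sin t + y t * cos t

theorem a_deriv {t : ℝ} (ht : 0 < t) : HasDerivAt a (x t * sin t / (4 * t ^ 2)) t := by
  have h := ((x_deriv ht).mul (Real.hasDerivAt_cos t)).sub ((y_deriv ht).mul (Real.hasDerivAt_sin t))
  refine h.congr_deriv ?_
  field_simp
  ring

theorem b_deriv {t : ℝ} (ht : 0 < t) : HasDerivAt b (-(x t * cos t) / (4 * t ^ 2)) t := by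
  have h := ((x_deriv ht).mul (Real.hasDerivAt_sin t)).add ((y_deriv ht).mul (Real.hasDerivAt_cos t))
  refine h.congr_deriv ?_
  field_simp
  ring

theorem x_eq (t : ℝ) : x t = a t * cos t + b t * sin t := by
  unfold a b
  have := sin_sq_add_cos_sq t
  linear_combination (-(x t)) * this

theorem y_eq (t : ℝ) : y t = b t * cos t - a t * sin t := by
  unfold a b
  have := sin_sq_add_cos_sq t
  linear_combination (-(y t)) * this

/-- the energy is bounded -/
theorem N_bound {t0 t : ℝ} (h0 : 0 < t0) (ht : t0 ≤ t) :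
    (x t ^ 2 + y t ^ 2) * exp (1 / (4 * t)) ≤ (x t0 ^ 2 + y t0 ^ 2) * exp (1 / (4 * t0)) := by
  have hd : ∀ s, 0 < s → HasDerivAt (fun s => (x s ^ 2 + y s ^ 2) * exp (1 / (4 * s)))
      ((2 * x s * y s + 2 * y s * (-(x s) * (1 + 1 / (4 * s ^ 2)))) * exp (1 / (4 * s)) +
        (x s ^ 2 + y s ^ 2) * (exp (1 / (4 * s)) * (-(1 / (4 * s ^ 2))))) s := by
    intro s hs
    have h1 := ((x_deriv hs).pow 2).add ((y_deriv hs).pow 2)
    have h2 : HasDerivAt (fun s : ℝ => 1 / (4 * s)) (-(1 / (4 * s ^ 2))) s := by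
      have := ((hasDerivAt_id s).const_mul 4).inv (by simpa using hs.ne')
      refine (this.congr_deriv ?_).congr_of_eventuallyEq ?_
      · simp only [id]
        field_simp
        try ring
      · filter_upwards with z
        simp [one_div]
    refine (h1.mul h2.exp).congr_deriv ?_
    simp only [Pi.add_apply, Pi.pow_apply]
    ring
  have hanti : AntitoneOn (fun s => (x s ^ 2 + y s ^ 2) * exp (1 / (4 * s))) (Ici t0) := by
    apply antitoneOn_of_deriv_nonpos (convex_Ici t0)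
    · exact fun s hs => (hd s (h0.trans_le hs)).continuousAt.continuousWithinAt
    · intro s hs
      rw [interior_Ici] at hs
      exact (hd s (h0.trans hs)).differentiableAt.differentiableWithinAt
    · intro s hs
      rw [interior_Ici] at hs
      have hs0 : 0 < s := h0.trans hs
      rw [(hd s hs0).deriv]
      have he : 0 < exp (1 / (4 * s)) := exp_pos _
      have hc : 0 < 1 / (4 * s ^ 2) := by positivity
      have h1 : (2 * x s * y s + 2 * y s * (-(x s) * (1 + 1 / (4 * s ^ 2)))) * exp (1 / (4 * s)) +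
        (x s ^ 2 + y s ^ 2) * (exp (1 / (4 * s)) * (-(1 / (4 * s ^ 2)))) =
        -((x s + y s) ^ 2 * (exp (1 / (4 * s)) * (1 / (4 * s ^ 2)))) := by ring
      rw [h1]
      have : 0 ≤ (x s + y s) ^ 2 * (exp (1 / (4 * s)) * (1 / (4 * s ^ 2))) := by positivity
      linarith
  exact hanti (mem_Ici.2 le_rfl) (mem_Ici.2 ht) ht

theorem x_le (hN : S_N) {t : ℝ} (ht : 2 * π ≤ t) : |x t| ≤ 0.83 := by
  obtain ⟨h1, h2, h3, h4⟩ := hN
  have hx1 : 0.545 < x (2 * π) := h1
  have hx2 : x (2 * π) < 0.56 := h2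
  have hy1 : 0.568 < y (2 * π) := h3
  have hy2 : y (2 * π) < 0.585 := h4
  have hpi := Real.pi_gt_d2
  have hb := N_bound (t0 := 2 * π) (t := t) (by positivity) ht
  have ht0 : 0 < t := by linarith
  have h5 : (1 : ℝ) ≤ exp (1 / (4 * t)) := Real.one_le_exp (by positivity)
  have h6 : exp (1 / (4 * (2 * π))) ≤ 1.042 := by
    have h7 : 1 / (4 * (2 * π)) ≤ 0.04 := by
      rw [div_le_iff₀ (by positivity)]
      nlinarith
    have h8 : exp (1 / (4 * (2 * π))) ≤ exp 0.04 := Real.exp_le_exp.2 h7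
    have h9 := Real.one_sub_le_exp_neg 0.04
    have h10 : exp 0.04 * exp (-0.04) = 1 := by rw [← Real.exp_add]; simp
    have h11 : 0 < exp 0.04 := exp_pos _
    nlinarith
  have h7 : x t ^ 2 ≤ (x t ^ 2 + y t ^ 2) * exp (1 / (4 * t)) := by nlinarith [sq_nonneg (x t), sq_nonneg (y t)]
  have h8 : (x (2 * π) ^ 2 + y (2 * π) ^ 2) ≤ 0.656 := by nlinarith
  have h9 : x t ^ 2 ≤ 0.83 ^ 2 := by
    have h0 : 0 ≤ exp (1 / (4 * (2 * π))) := (exp_pos _).le
    have : (x (2 * π) ^ 2 + y (2 * π) ^ 2) * exp (1 / (4 * (2 * π))) ≤ 0.656 * 1.042 :=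
      mul_le_mul h8 h6 h0 (by norm_num)
    have h10 := h7.trans (hb.trans this)
    norm_num at h10 ⊢
    linarith
  exact abs_le_of_sq_le_sq h9 (by norm_num) 

theorem mono_aux {f f' : ℝ → ℝ} {t0 t : ℝ} (h0 : 0 < t0) (ht : t0 ≤ t)
    (hf : ∀ s, 0 < s → HasDerivAt f (f' s) s) (hf' : ∀ s, t0 ≤ s → |f' s| ≤ 0.83 / (4 * s ^ 2)) :
    |f t - f t0| ≤ 0.83 / (4 * t0) := by
  have hd : ∀ s : ℝ, 0 < s → HasDerivAt (fun s : ℝ => 0.83 / (4 * s)) (-(0.83 / (4 * s ^ 2))) s := by
    intro s hs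
    have := (((hasDerivAt_id s).const_mul 4).inv (by simpa using hs.ne')).const_mul (0.83 : ℝ)
    refine (this.congr_deriv ?_).congr_of_eventuallyEq ?_
    · simp only [id]
      field_simp
      try ring
    · filter_upwards with z
      simp [div_eq_mul_inv]
  have h1 : MonotoneOn (fun s => f s - 0.83 / (4 * s)) (Ici t0) := by
    apply monotoneOn_of_deriv_nonneg (convex_Ici t0)
    · exact fun s hs => ((hf s (h0.trans_le hs)).sub (hd s (h0.trans_le hs))).continuousAt.continuousWithinAt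
    · intro s hs
      rw [interior_Ici] at hs
      exact ((hf s (h0.trans hs)).sub (hd s (h0.trans hs))).differentiableAt.differentiableWithinAt
    · intro s hs
      rw [interior_Ici] at hs
      have h3 := ((hf s (h0.trans hs)).sub (hd s (h0.trans hs))).deriv
      have h4 : deriv (fun s => f s - 0.83 / (4 * s)) s = f' s - -(0.83 / (4 * s ^ 2)) := h3
      rw [h4]
      have := (abs_le.1 (hf' s (le_of_lt hs))).1
      linarith
  have h2 : AntitoneOn (fun s => f s + 0.83 / (4 * s)) (Ici t0) := by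
    apply antitoneOn_of_deriv_nonpos (convex_Ici t0)
    · exact fun s hs => ((hf s (h0.trans_le hs)).add (hd s (h0.trans_le hs))).continuousAt.continuousWithinAt
    · intro s hs
      rw [interior_Ici] at hs
      exact ((hf s (h0.trans hs)).add (hd s (h0.trans hs))).differentiableAt.differentiableWithinAt
    · intro s hs
      rw [interior_Ici] at hs
      have h3 := ((hf s (h0.trans hs)).add (hd s (h0.trans hs))).deriv
      have h4 : deriv (fun s => f s + 0.83 / (4 * s)) s = f' s + -(0.83 / (4 * s ^ 2)) := h3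
      rw [h4]
      have := (abs_le.1 (hf' s (le_of_lt hs))).2
      linarith
  have h3 := h1 (mem_Ici.2 le_rfl) (mem_Ici.2 ht) ht
  have h4 := h2 (mem_Ici.2 le_rfl) (mem_Ici.2 ht) ht
  simp only at h3 h4
  have h5 : 0 < 0.83 / (4 * t) := by
    have : 0 < t := h0.trans_le ht
    positivity
  rw [abs_le]
  constructor <;> linarith

theorem ab_bounds (hN : S_N) {t : ℝ} (ht : 2 * π ≤ t) :
    (0.51 < a t ∧ a t < 0.594) ∧ (0.534 < b t ∧ b t < 0.619) := by
  have hN' := hN
  obtain ⟨h1, h2, h3, h4⟩ := hN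
  have hx1 : 0.545 < x (2 * π) := h1
  have hx2 : x (2 * π) < 0.56 := h2
  have hy1 : 0.568 < y (2 * π) := h3
  have hy2 : y (2 * π) < 0.585 := h4
  have hpi := Real.pi_gt_d2
  have ha0 : a (2 * π) = x (2 * π) := by unfold a; simp
  have hb0 : b (2 * π) = y (2 * π) := by unfold b; simp
  have hfr : 0.83 / (4 * (2 * π)) ≤ 0.034 := by
    rw [div_le_iff₀ (by positivity)]
    nlinarith
  have ka := mono_aux (t0 := 2 * π) (t := t) (by positivity) ht (fun s hs => a_deriv hs) (by
    intro s hs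
    have hs0 : 0 < s := by linarith
    rw [abs_div, abs_mul, abs_of_pos (show 0 < 4 * s ^ 2 by positivity)]
    apply div_le_div_of_nonneg_right _ (by positivity)
    have h5 := x_le hN' hs
    have h6 := Real.abs_sin_le_one s
    nlinarith [abs_nonneg (x s), abs_nonneg (sin s)])
  have kb := mono_aux (t0 := 2 * π) (t := t) (by positivity) ht (fun s hs => b_deriv hs) (by
    intro s hs
    have hs0 : 0 < s := by linarith
    rw [abs_div, abs_neg, abs_mul, abs_of_pos (show 0 < 4 * s ^ 2 by positivity)]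
    apply div_le_div_of_nonneg_right _ (by positivity)
    have h5 := x_le hN' hs
    have h6 := Real.abs_cos_le_one s
    nlinarith [abs_nonneg (x s), abs_nonneg (cos s)])
  rw [ha0, abs_le] at ka
  rw [hb0, abs_le] at kb
  refine ⟨⟨?_, ?_⟩, ⟨?_, ?_⟩⟩ <;> linarith [ka.1, ka.2, kb.1, kb.2]

theorem j_x {t : ℝ} (ht : 0 < t) : j t = x t / √t := by
  have hs : 0 < √t := Real.sqrt_pos.2 ht
  unfold x
  field_simp

theorem e_y {t : ℝ} (ht : 0 < t) : e t = √t * (-y t + x t / (2 * t)) := by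
  have hs : 0 < √t := Real.sqrt_pos.2 ht
  have hq : √t * √t = t := Real.mul_self_sqrt ht.le
  unfold x y
  obtain ⟨w, hw⟩ : ∃ w, w = √t := ⟨_, rfl⟩
  rw [← hw] at hs hq ⊢
  obtain ⟨E, hE⟩ : ∃ E, E = e t := ⟨_, rfl⟩
  obtain ⟨Jv, hJ⟩ : ∃ Jv, Jv = j t := ⟨_, rfl⟩
  rw [← hE, ← hJ]
  rw [← hq]
  field_simp
  ring

/-- the sign and the shift -/
theorem sg_sq (k : ℕ) : ((-1 : ℝ) ^ k) * (-1) ^ k = 1 := by
  rw [← mul_pow]; simp

theorem sg_cos (k : ℕ) (s : ℝ) : (-1 : ℝ) ^ k * cos (s + k * π) = cos s := by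
  rw [Real.cos_add_nat_mul_pi, ← mul_assoc, sg_sq, one_mul]

theorem sg_sin (k : ℕ) (s : ℝ) : (-1 : ℝ) ^ k * sin (s + k * π) = sin s := by
  rw [Real.sin_add_nat_mul_pi, ← mul_assoc, sg_sq, one_mul]

theorem sx_eq (k : ℕ) (s : ℝ) : (-1 : ℝ) ^ k * x (s + k * π) =
    a (s + k * π) * cos s + b (s + k * π) * sin s := by
  rw [x_eq]
  linear_combination a (s + k * π) * sg_cos k s + b (s + k * π) * sg_sin k s

theorem sy_eq (k : ℕ) (s : ℝ) : (-1 : ℝ) ^ k * y (s + k * π) =
    b (s + k * π) * cos s - a (s + k * π) * sin s := by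
  rw [y_eq]
  linear_combination b (s + k * π) * sg_cos k s - a (s + k * π) * sg_sin k s

theorem se_eq (k : ℕ) (s : ℝ) (ht : 0 < s + k * π) : (-1 : ℝ) ^ k * e (s + k * π) =
    √(s + k * π) * (-(b (s + k * π) * cos s - a (s + k * π) * sin s) +
      (a (s + k * π) * cos s + b (s + k * π) * sin s) / (2 * (s + k * π))) := by
  rw [e_y ht, ← sy_eq, ← sx_eq]
  ring

theorem sj_eq (k : ℕ) (s : ℝ) (ht : 0 < s + k * π) : (-1 : ℝ) ^ k * j (s + k * π) =
    (a (s + k * π) * cos s + b (s + k * π) * sin s) / √(s + k * π) := by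
  rw [j_x ht, ← sx_eq]
  ring

theorem co_c_of (hN : S_N) : S_C := by
  intro k hk
  have hpi := Real.pi_gt_d2
  have hpi2 := Real.pi_lt_d2
  have hk2 : (2 : ℝ) ≤ k := by exact_mod_cast hk
  have hkπ : 2 * π ≤ k * π := by nlinarith
  obtain ⟨σ, hσ⟩ : ∃ σ : ℝ, σ = (-1) ^ k := ⟨_, rfl⟩
  have hσ2 : σ * σ = 1 := by rw [hσ]; exact sg_sq k
  rw [← hσ]
  -- first half: `j > 0`
  have J1 : ∀ t ∈ Icc (k * π) (k * π + π / 2), 0 < σ * j t := by
    intro t ht
    obtain ⟨s, hs⟩ : ∃ s, s = t - k * π := ⟨_, rfl⟩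
    have hts : t = s + k * π := by rw [hs]; ring
    have hs0 : 0 ≤ s := by rw [hs]; linarith [ht.1]
    have hs1 : s ≤ π / 2 := by rw [hs]; linarith [ht.2]
    have ht2 : 2 * π ≤ s + k * π := by linarith
    have ht0 : 0 < s + k * π := by linarith
    obtain ⟨⟨a1, a2⟩, ⟨b1, b2⟩⟩ := ab_bounds hN ht2
    have hc : 0 ≤ cos s := cos_nonneg_of_neg_pi_div_two_le_of_le (by linarith) hs1
    have hsn : 0 ≤ sin s := sin_nonneg_of_nonneg_of_le_pi hs0 (by linarith)
    have hsc := sin_sq_add_cos_sq s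
    rw [hts, hσ, sj_eq k s ht0]
    apply div_pos _ (Real.sqrt_pos.2 ht0)
    have h1 : 1 ≤ sin s + cos s := by nlinarith
    nlinarith
  -- second half: `e` is large
  have E2 : ∀ t ∈ Icc (k * π + π / 2) ((k + 1) * π), 0.49 * √t < σ * e t ∧
      -(0.594 / √t) ≤ σ * j t := by
    intro t ht
    obtain ⟨s, hs⟩ : ∃ s, s = t - k * π := ⟨_, rfl⟩
    have hts : t = s + k * π := by rw [hs]; ring
    have hs0 : π / 2 ≤ s := by rw [hs]; linarith [ht.1]
    have hs1 : s ≤ π := by rw [hs]; linarith [ht.2]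
    have ht2 : 2 * π ≤ s + k * π := by linarith
    have ht3 : 7 ≤ s + k * π := by linarith
    have ht0 : 0 < s + k * π := by linarith
    obtain ⟨⟨a1, a2⟩, ⟨b1, b2⟩⟩ := ab_bounds hN ht2
    have hc : cos s ≤ 0 := cos_nonpos_of_pi_div_two_le_of_le hs0 (by linarith)
    have hsn : 0 ≤ sin s := sin_nonneg_of_nonneg_of_le_pi (by linarith) hs1
    have hsc := sin_sq_add_cos_sq s
    have h1 : 1 ≤ sin s - cos s := by nlinarith
    have hsq : 0 < √(s + k * π) := Real.sqrt_pos.2 ht0
    rw [hts]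
    constructor
    · rw [hσ, se_eq k s ht0, mul_comm]
      apply mul_lt_mul_of_pos_left _ hsq
      have h2 : -(0.594 * (-cos s)) / (2 * (s + k * π)) ≤
          (a (s + k * π) * cos s + b (s + k * π) * sin s) / (2 * (s + k * π)) := by
        apply div_le_div_of_nonneg_right _ (by positivity)
        nlinarith
      have h3 : -(0.0425 * (-cos s)) ≤ -(0.594 * (-cos s)) / (2 * (s + k * π)) := by
        rw [le_div_iff₀ (by positivity)]
        nlinarith
      nlinarith
    · rw [hσ, sj_eq k s ht0, ← neg_div]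
      apply div_le_div_of_nonneg_right _ hsq.le
      have hc1 : -1 ≤ cos s := neg_one_le_cos s
      nlinarith
  have hd1 : ∀ t, HasDerivAt (fun t => σ * e t) (σ * (t * j t)) t := fun t =>
    (e_deriv t).const_mul σ
  have hmono : StrictMonoOn (fun t => σ * e t) (Icc (k * π) (k * π + π / 2)) := by
    apply strictMonoOn_of_deriv_pos (convex_Icc _ _)
    · exact (continuous_const.mul e_cont).continuousOn
    · intro t ht
      rw [interior_Icc] at ht
      rw [(hd1 t).deriv]
      have h1 := J1 t ⟨ht.1.le, ht.2.le⟩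
      have h2 : 0 < t := by linarith [ht.1]
      have : σ * (t * j t) = t * (σ * j t) := by ring
      rw [this]
      positivity
  have hE0 : σ * e (k * π) < 0 := by
    have h0 : (0 : ℝ) < 0 + k * π := by linarith
    have h1 := se_eq k 0 h0
    rw [zero_add] at h0 h1
    rw [hσ, h1]
    simp only [cos_zero, sin_zero, mul_one, mul_zero, sub_zero, add_zero]
    obtain ⟨⟨a1, a2⟩, ⟨b1, b2⟩⟩ := ab_bounds hN hkπ
    apply mul_neg_of_pos_of_neg (Real.sqrt_pos.2 h0)
    have h3 : a (k * π) / (2 * (k * π)) ≤ 0.05 := by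
      rw [div_le_iff₀ (by positivity)]
      nlinarith
    linarith
  have hmid : k * π + π / 2 ∈ Icc (k * π + π / 2) ((k + 1) * π) := ⟨le_rfl, by linarith⟩
  have hE1 : 0 < σ * e (k * π + π / 2) := by
    have h1 := (E2 _ hmid).1
    have h2 : 0 ≤ √(k * π + π / 2) := Real.sqrt_nonneg _
    nlinarith
  obtain ⟨q, hq, hq0⟩ := intermediate_value_Ioo (show k * π ≤ k * π + π / 2 by linarith)
    (continuous_const.mul e_cont).continuousOn (show (0 : ℝ) ∈ Ioo ((fun t => σ * e t) (k * π))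
      ((fun t => σ * e t) (k * π + π / 2)) from ⟨hE0, hE1⟩)
  have hq00 : σ * e q = 0 := hq0
  have hσ0 : σ ≠ 0 := by
    intro h
    rw [h] at hσ2
    norm_num at hσ2
  have heq : e q = 0 := by
    rcases mul_eq_zero.1 hq0 with h | h
    · exact absurd h hσ0
    · exact h
  have hqI : q ∈ Icc (k * π) (k * π + π / 2) := ⟨hq.1.le, hq.2.le⟩
  have hq6 : 2 * π < q := by linarith [hq.1]
  have hpos1 : ∀ t ∈ Ioc q (k * π + π / 2), 0 < σ * e t := by
    intro t ht
    have h9 : σ * e q < σ * e t := hmono hqI ⟨by linarith [ht.1, hq.1], ht.2⟩ ht.1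
    linarith
  refine ⟨q, hq.1, by linarith [hq.2], ?_, heq, ?_, ?_, ?_⟩
  · intro t ht
    have h9 : σ * e t < σ * e q := hmono ⟨ht.1, by linarith [ht.2, hq.2]⟩ hqI ht.2
    linarith
  · intro t ht
    rcases le_or_gt t (k * π + π / 2) with h | h
    · exact hpos1 t ⟨ht.1, h⟩
    · have h1 := (E2 t ⟨h.le, ht.2⟩).1
      have h2 : 0 ≤ √t := Real.sqrt_nonneg _
      nlinarith
  · intro t ht
    exact J1 t ⟨ht.1, by linarith [ht.2, hq.2]⟩
  · intro t ht
    rcases le_or_gt t (k * π + π / 2) with h | h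
    · -- mean value theorem
      obtain ⟨ξ, hξ, hξ2⟩ := exists_hasDerivAt_eq_slope (fun t => σ * j t)
        (fun t => σ * (-(e t / t))) ht.1 (continuous_const.mul j_cont).continuousOn
        (fun s hs => (j_deriv' (show s ≠ 0 by have := hs.1; linarith)).const_mul σ)
      have htq : 0 < t - q := by linarith [ht.1]
      rw [eq_div_iff htq.ne'] at hξ2
      have hξ0 : 2 * π < ξ := by linarith [hξ.1]
      have h1 : σ * e ξ < σ * e t :=
        hmono ⟨by linarith [hξ.1, hq.1], by linarith [hξ.2]⟩ ⟨by linarith [ht.1, hq.1], h⟩ hξ.2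
      have h2 : 0 < σ * e ξ := hpos1 ξ ⟨hξ.1, by linarith [hξ.2]⟩
      have h3 : σ * (j q - j t) = (t - q) / ξ * (σ * e ξ) := by
        have hξ1 : ξ ≠ 0 := by linarith
        have : σ * (j q - j t) = -(σ * j t - σ * j q) := by ring
        rw [this, ← hξ2]
        field_simp
      have h4 : (t - q) / ξ ≤ 1 / 4 := by
        rw [div_le_iff₀ (by linarith)]
        linarith [hq.1]
      rw [h3]
      nlinarith
    · obtain ⟨h1, h2⟩ := E2 t ⟨h.le, ht.2⟩
      have h3 : |x q| ≤ 0.83 := x_le hN hq6.le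
      have hsq : 2.5 ≤ √q := by
        apply Real.le_sqrt_of_sq_le
        norm_num
        linarith
      have hst : 2.8 ≤ √t := by
        apply Real.le_sqrt_of_sq_le
        norm_num
        nlinarith
      have h4 : σ * j q ≤ 0.332 := by
        rw [j_x (by linarith : 0 < q)]
        have h5 : σ * x q ≤ 0.83 := by
          have h6 : |σ| = 1 := by
            rw [hσ]; simp
          calc σ * x q ≤ |σ * x q| := le_abs_self _
            _ = |x q| := by rw [abs_mul, h6, one_mul]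
            _ ≤ 0.83 := h3
        rw [← mul_div_assoc, div_le_iff₀ (by linarith)]
        linarith
      have h5 : 0.594 / √t ≤ 0.2125 := by
        rw [div_le_iff₀ (by linarith)]
        linarith
      have h6 : σ * (j q - j t) = σ * j q - σ * j t := by ring
      rw [h6]
      linarith

end TH259.CO
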