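import Pool.Agent.TH259.CO.C

/-! The last step: a convex set whose radial function is constant almost everywhere is a disc. -/

set_option autoImplicit false

open MeasureTheory Set Real Filter Topology Metric TH259.NS

namespace TH259.CO

theorem open_null {A : Set ℂ} (ho : IsOpen A) (h : volume A = 0) : A = ∅ := by
  by_contra hne
  exact (ho.measure_pos volume (nonempty_iff_ne_empty.2 hne)).ne' h

theorem norm_pt {t : ℝ} (ht : 0 ≤ t) (φ : ℝ) : ‖(t : ℂ) * Complex.exp (φ * Complex.I)‖ = t := by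
  rw [norm_mul, Complex.norm_exp_ofReal_mul_I, mul_one, Complex.norm_real, Real.norm_of_nonneg ht]

theorem ball_of_rad (hP : S_P) {Ω : Set ℂ} {a' R : ℝ} (ho : IsOpen Ω) (hcv : Convex ℝ Ω)
    (ha : 0 < a') (hin : ball (0 : ℂ) a' ⊆ Ω) (hR : ∀ x ∈ Ω, ‖x‖ ≤ R) {r : ℝ} (hr : 0 < r)
    (hae : ∀ᵐ φ ∂(volume.restrict (Ioo (-π) π)), rad Ω φ = r) : Ω = ball (0 : ℂ) r := by
  obtain ⟨hT, hmem, hpol⟩ := hP Ω a' R ho hcv ha hin hR
  have hb : Bornology.IsBounded Ω := isBounded_iff_forall_norm_le.2 ⟨R, hR⟩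
  have hm := ho.measurableSet
  have hfinv : volume Ω ≠ ⊤ := hb.measure_lt_top.ne
  have hpi := Real.pi_pos
  have hvolI : (volume (Ioo (-π) π)).toReal = 2 * π := by
    rw [Real.volume_Ioo, ENNReal.toReal_ofReal (by linarith)]
    ring
  -- the area
  have hvol : (volume Ω).toReal = π * r ^ 2 := by
    have h1 := hpol (fun _ => 1) continuous_const (fun _ t => t ^ 2 / 2) (fun φ t => by
      have := (hasDerivAt_pow 2 t).div_const 2
      refine this.congr_deriv ?_
      simp) (fun φ => by simp)
    have h2 : ∫ x in Ω, (1 : ℝ) = (volume Ω).toReal := by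
      rw [setIntegral_const]; simp [Measure.real]
    have h3 : ∫ φ in Ioo (-π) π, rad Ω φ ^ 2 / 2 = ∫ φ in Ioo (-π) π, r ^ 2 / 2 := by
      refine integral_congr_ae ?_
      filter_upwards [hae] with φ hφ
      rw [hφ]
    rw [h2, h3, setIntegral_const] at h1
    rw [h1]
    simp only [Measure.real, hvolI, smul_eq_mul]
    ring
  -- outside
  have hout : Ω ⊆ closedBall (0 : ℂ) r := by
    have hFc : Continuous fun x : ℂ => max (‖x‖ - r) 0 := by fun_prop
    have hgc : ∀ φ : ℝ, Continuous fun t : ℝ =>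
        t * max (‖(t : ℂ) * Complex.exp (φ * Complex.I)‖ - r) 0 := by
      intro φ; fun_prop
    have h1 := hpol (fun x => max (‖x‖ - r) 0) hFc
      (fun φ t => ∫ s in (0 : ℝ)..t, s * max (‖(s : ℂ) * Complex.exp (φ * Complex.I)‖ - r) 0)
      (fun φ t => ((hgc φ).integral_hasStrictDerivAt 0 t).hasDerivAt) (fun φ => by simp)
    have h2 : ∫ φ in Ioo (-π) π, (∫ s in (0 : ℝ)..(rad Ω φ),
        s * max (‖(s : ℂ) * Complex.exp (φ * Complex.I)‖ - r) 0) = ∫ φ in Ioo (-π) π, (0 : ℝ) := by
      refine integral_congr_ae ?_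
      filter_upwards [hae] with φ hφ
      rw [hφ]
      have h3 : ∫ s in (0 : ℝ)..r, s * max (‖(s : ℂ) * Complex.exp (φ * Complex.I)‖ - r) 0 =
          ∫ s in (0 : ℝ)..r, (0 : ℝ) := by
        apply intervalIntegral.integral_congr
        intro s hs
        rw [uIcc_of_le hr.le] at hs
        simp only
        rw [norm_pt hs.1, max_eq_right (by linarith [hs.2]), mul_zero]
      rw [h3]
      simp
    rw [h2, integral_zero] at h1
    have hFi : IntegrableOn (fun x : ℂ => max (‖x‖ - r) 0) Ω :=
      (hFc.continuousOn.integrableOn_compact hb.isCompact_closure).mono_set subset_closure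
    have hF0 : 0 ≤ (fun x : ℂ => max (‖x‖ - r) 0) := fun x => le_max_right _ _
    rw [integral_eq_zero_iff_of_nonneg hF0 hFi] at h1
    have h4 : volume (Ω ∩ {x | r < ‖x‖}) = 0 := by
      rw [Filter.EventuallyEq, ae_restrict_iff' hm, ae_iff] at h1
      refine measure_mono_null ?_ h1
      rintro x ⟨hx1, hx2⟩ hx3
      have h5 := hx3 hx1
      simp only [Pi.zero_apply] at h5
      have h6 := le_max_left (‖x‖ - r) 0
      rw [h5] at h6
      have h7 : r < ‖x‖ := hx2
      linarith
    have h5 := open_null (ho.inter (isOpen_lt continuous_const continuous_norm)) h4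
    intro x hx
    rw [mem_closedBall_zero_iff]
    by_contra hcon
    push Not at hcon
    have : x ∈ Ω ∩ {x | r < ‖x‖} := ⟨hx, hcon⟩
    rw [h5] at this
    exact this
  have hout' : Ω ⊆ ball (0 : ℂ) r := by
    rw [← interior_closedBall (0 : ℂ) hr.ne']
    exact interior_maximal hout ho
  -- inside
  have hvb : volume (ball (0 : ℂ) r) = volume Ω := by
    rw [Complex.volume_ball]
    rw [← ENNReal.toReal_eq_toReal_iff' (by finiteness) hfinv, hvol]
    rw [ENNReal.toReal_mul, ENNReal.toReal_pow, ENNReal.toReal_ofReal hr.le, ENNReal.coe_toReal,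
      NNReal.coe_real_pi]
    ring
  have hdiff : volume (ball (0 : ℂ) r \ Ω) = 0 := by
    rw [measure_sdiff hout' hm.nullMeasurableSet hfinv, hvb, tsub_self]
  have hcl : ball (0 : ℂ) r ⊆ closure Ω := by
    have h1 : volume (ball (0 : ℂ) r \ closure Ω) = 0 :=
      measure_mono_null (sdiff_subset_sdiff_right subset_closure) hdiff
    have h2 := open_null (isOpen_ball.sdiff isClosed_closure) h1
    exact sdiff_eq_empty.1 h2
  refine Subset.antisymm hout' ?_
  have h3 : interior (closure Ω) = Ω := by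
    have hne : Ω.Nonempty := ⟨0, hin (mem_ball_self ha)⟩
    rw [hcv.interior_closure_eq_interior_of_nonempty_interior (by rwa [ho.interior_eq]),
      ho.interior_eq]
  rw [← h3]
  exact interior_maximal hcl isOpen_ball

end TH259.CO
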