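import Pool.Agent.TH259.CO.Stm2

/-! Project CO: the half circle between nested caps (job 5527, by helper802) -/

set_option autoImplicit false

open Set Real

namespace TH259.CO

namespace HH

/-- the linear functional -/
noncomputable def ell (α : ℝ) (w : ℂ) : ℝ := w.re * cos (2 * α) + w.im * sin (2 * α)

lemma ell_eq (α : ℝ) (w : ℂ) : ell α w = ‖w‖ * cos (2 * (Complex.arg w / 2 - α)) := by
  have h1 := Complex.norm_mul_cos_arg w
  have h2 := Complex.norm_mul_sin_arg w
  unfold ell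
  rw [← h1, ← h2, show 2 * (Complex.arg w / 2 - α) = Complex.arg w - 2 * α by ring, cos_sub]
  ring

lemma ell_cont (α : ℝ) : Continuous (ell α) := by
  unfold ell
  exact (Complex.continuous_re.mul continuous_const).add (Complex.continuous_im.mul continuous_const)

lemma ell_comb (α : ℝ) (a b : ℝ) (x y : ℂ) : ell α (a • x + b • y) = a * ell α x + b * ell α y := by
  unfold ell
  simp only [Complex.add_re, Complex.add_im, Complex.real_smul, Complex.mul_re, Complex.mul_im,
    Complex.ofReal_re, Complex.ofReal_im]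
  ring

/-- the unit vector -/
noncomputable def ev (φ : ℝ) : ℂ := ⟨cos (2 * φ), sin (2 * φ)⟩

lemma norm_ev (φ : ℝ) : ‖ev φ‖ = 1 := by
  have h : ‖ev φ‖ ^ 2 = 1 := by
    rw [← Complex.normSq_eq_norm_sq, Complex.normSq_apply]
    simp only [ev]
    nlinarith [sin_sq_add_cos_sq (2 * φ)]
  have h0 := norm_nonneg (ev φ)
  nlinarith

lemma ell_ev (α φ : ℝ) : ell α (ev φ) = cos (2 * (φ - α)) := by
  unfold ell ev
  simp only
  rw [show 2 * (φ - α) = 2 * φ - 2 * α by ring, cos_sub]

lemma cap_lem {α c α' c' : ℝ} (hc : c ≤ 0)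
    (h : ∀ φ, c < cos (2 * (φ - α)) → c' < cos (2 * (φ - α'))) : c' ≤ 0 := by
  by_contra h0
  push Not at h0
  have h1 : c' < 1 := by
    have := h α (by rw [sub_self, mul_zero, cos_zero]; linarith)
    exact this.trans_le (cos_le_one _)
  have hs : 0 < sin c' := sin_pos_of_pos_of_lt_pi h0 (by linarith [pi_gt_three])
  have hs2 : sin c' < c' := sin_lt h0
  have ha := h (α + (π / 2 - c') / 2) (by
    rw [show 2 * (α + (π / 2 - c') / 2 - α) = π / 2 - c' by ring, cos_pi_div_two_sub]
    linarith)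
  have hb := h (α - (π / 2 - c') / 2) (by
    rw [show 2 * (α - (π / 2 - c') / 2 - α) = -(π / 2 - c') by ring, cos_neg, cos_pi_div_two_sub]
    linarith)
  rw [show 2 * (α + (π / 2 - c') / 2 - α') = 2 * (α - α') + (π / 2 - c') by ring, cos_add] at ha
  rw [show 2 * (α - (π / 2 - c') / 2 - α') = 2 * (α - α') - (π / 2 - c') by ring, cos_sub] at hb
  rw [cos_pi_div_two_sub] at ha hb
  have h2 : 2 * c' < 2 * (cos (2 * (α - α')) * sin c') := by linarith
  have h3 : cos (2 * (α - α')) * sin c' ≤ sin c' := by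
    have := cos_le_one (2 * (α - α'))
    nlinarith
  linarith

end HH

open HH

theorem co_h : S_H := by
  intro T L U hT hcap q hq
  -- functions of the vector
  set S : ℂ → ℝ := fun w => T (Complex.arg w / 2) with hS
  have F1 : ∀ t α c : ℝ, (∀ φ, t < T φ ↔ c < cos (2 * (φ - α))) →
      ∀ w : ℂ, w ≠ 0 → (t < S w ↔ c * ‖w‖ < ell α w) := by
    intro t α c h w hw
    have hn : 0 < ‖w‖ := norm_pos_iff.2 hw
    rw [hS, ell_eq, mul_comm c]
    exact (h _).trans (mul_lt_mul_iff_right₀ hn).symm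
  have F2 : ∀ φ, S (ev φ) = T φ := by
    intro φ
    refine eq_of_forall_lt_iff fun t => ?_
    obtain ⟨α, c, h⟩ := hcap t
    have h0 : ev φ ≠ 0 := by
      rw [← norm_pos_iff, norm_ev]; norm_num
    rw [F1 t α c h _ h0, norm_ev, mul_one, ell_ev]
    exact (h φ).symm
  -- big values
  set Big : Set ℝ := {t | ∃ α c : ℝ, c ≤ 0 ∧ ∀ φ, t < T φ ↔ c < cos (2 * (φ - α))} with hBig
  have B0 : ∀ t < L, t ∈ Big := by
    intro t ht
    refine ⟨0, -2, by norm_num, fun φ => ⟨fun _ => ?_, fun _ => lt_of_lt_of_le ht (hT φ).1⟩⟩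
    linarith [neg_one_le_cos (2 * (φ - 0))]
  have B1' : ∀ t ∈ Big, ∀ t' ≤ t, ∀ α' c' : ℝ, (∀ φ, t' < T φ ↔ c' < cos (2 * (φ - α'))) →
      c' ≤ 0 := by
    rintro t ⟨α, c, hc, h⟩ t' ht' α' c' h'
    exact cap_lem hc fun φ hφ => (h' φ).1 (lt_of_le_of_lt ht' ((h φ).2 hφ))
  have B1 : ∀ t ∈ Big, ∀ t' ≤ t, t' ∈ Big := by
    intro t ht t' ht'
    obtain ⟨α', c', h'⟩ := hcap t'
    exact ⟨α', c', B1' t ht t' ht' α' c' h', h'⟩
  have B2 : ∀ t ∈ Big, t ≤ q := by
    intro t ht
    by_contra hcon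
    push Not at hcon
    obtain ⟨α, c, hc, h⟩ := hq
    exact absurd (B1' t ht q hcon.le α c h) (not_le.2 hc)
  have hne : Big.Nonempty := ⟨L - 1, B0 _ (by linarith)⟩
  have hbdd : BddAbove Big := ⟨q, B2⟩
  set m := sSup Big with hm
  have hmq : m ≤ q := csSup_le hne B2
  have hLm : L ≤ m := le_of_forall_lt fun t ht => by
    obtain ⟨t', h1, h2⟩ := exists_between ht
    exact lt_of_lt_of_le h1 (le_csSup hbdd (B0 t' h2))
  have B3 : ∀ t < m, t ∈ Big := by
    intro t ht
    obtain ⟨t', h1, h2⟩ := exists_lt_of_lt_csSup hne ht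
    exact B1 t' h1 t h2.le
  have B4 : ∀ t, m < t → t ∉ Big := fun t ht h => absurd (le_csSup hbdd h) (not_le.2 ht)
  by_cases hemp : ∀ φ, T φ ≤ m
  · exact Or.inl fun φ => (hemp φ).trans hmq
  right
  push Not at hemp
  obtain ⟨φ₀, hφ₀⟩ := hemp
  refine ⟨m, hmq, hLm, ?_⟩
  obtain ⟨β, d, hrep⟩ := hcap m
  have hd : 0 ≤ d := by
    by_contra hcon
    push Not at hcon
    have ha : m < T (β + π / 4) := (hrep _).2 (by
      rw [show 2 * (β + π / 4 - β) = π / 2 by ring, cos_pi_div_two]; exact hcon)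
    have hb : m < T (β - π / 4) := (hrep _).2 (by
      rw [show 2 * (β - π / 4 - β) = -(π / 2) by ring, cos_neg, cos_pi_div_two]; exact hcon)
    obtain ⟨t, h1, h2⟩ := exists_between (lt_min ha hb)
    obtain ⟨α, c, h⟩ := hcap t
    have hc : 0 < c := by
      by_contra hc0
      push Not at hc0
      exact B4 t h1 ⟨α, c, hc0, h⟩
    have h3 := (h _).1 (lt_of_lt_of_le h2 (min_le_left _ _))
    have h4 := (h _).1 (lt_of_lt_of_le h2 (min_le_right _ _))
    rw [show 2 * (β + π / 4 - α) = 2 * (β - α) + π / 2 by ring, cos_add_pi_div_two] at h3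
    rw [show 2 * (β - π / 4 - α) = 2 * (β - α) - π / 2 by ring, cos_sub_pi_div_two] at h4
    linarith
  -- the two cones
  have hUo : IsOpen {w : ℂ | d * ‖w‖ < ell β w} :=
    isOpen_lt (continuous_const.mul continuous_norm) (ell_cont β)
  have hUc : Convex ℝ {w : ℂ | d * ‖w‖ < ell β w} := by
    intro x hx y hy a b ha hb hab
    change d * ‖x‖ < ell β x at hx
    change d * ‖y‖ < ell β y at hy
    change d * ‖a • x + b • y‖ < ell β (a • x + b • y)
    rw [ell_comb]
    have h1 : ‖a • x + b • y‖ ≤ a * ‖x‖ + b * ‖y‖ := by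
      refine (norm_add_le _ _).trans (le_of_eq ?_)
      rw [norm_smul, norm_smul, Real.norm_eq_abs, Real.norm_eq_abs, abs_of_nonneg ha,
        abs_of_nonneg hb]
    have h2 : d * ‖a • x + b • y‖ ≤ d * (a * ‖x‖ + b * ‖y‖) := mul_le_mul_of_nonneg_left h1 hd
    have h3 : a * (d * ‖x‖) ≤ a * ell β x := mul_le_mul_of_nonneg_left hx.le ha
    have h4 : b * (d * ‖y‖) ≤ b * ell β y := mul_le_mul_of_nonneg_left hy.le hb
    rcases ha.eq_or_lt with h | h
    · have hb1 : b = 1 := by linarith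
      subst hb1
      rw [← h] at h2 h3 ⊢
      linarith
    · have h5 : a * (d * ‖x‖) < a * ell β x := mul_lt_mul_of_pos_left hx h
      linarith
  have hWc : Convex ℝ {w : ℂ | w = 0 ∨ S w < m} := by
    intro x hx y hy a b ha hb hab
    -- a big value above
    have h1 : ∀ z ∈ {w : ℂ | w = 0 ∨ S w < m}, ∃ s < m, z = 0 ∨ S z ≤ s := by
      intro z hz
      rcases hz with hz | hz
      · exact ⟨m - 1, by linarith, Or.inl hz⟩
      · exact ⟨S z, hz, Or.inr le_rfl⟩
    obtain ⟨s1, hs1, hx1⟩ := h1 x hx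
    obtain ⟨s2, hs2, hy1⟩ := h1 y hy
    obtain ⟨α, c, hc, h⟩ := B3 (max s1 s2) (max_lt hs1 hs2)
    have h2 : ∀ z s, s ≤ max s1 s2 → (z = 0 ∨ S z ≤ s) → ell α z ≤ c * ‖z‖ := by
      intro z s hs hz
      by_cases hz0 : z = 0
      · subst hz0
        simp [ell]
      · rcases hz with hz | hz
        · exact absurd hz hz0
        · have h3 := (F1 _ α c h z hz0).not.1 (not_lt.2 (hz.trans hs))
          exact not_lt.1 h3
    have h3 := h2 x s1 (le_max_left _ _) hx1
    have h4 := h2 y s2 (le_max_right _ _) hy1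
    have h5 : ‖a • x + b • y‖ ≤ a * ‖x‖ + b * ‖y‖ := by
      refine (norm_add_le _ _).trans (le_of_eq ?_)
      rw [norm_smul, norm_smul, Real.norm_eq_abs, Real.norm_eq_abs, abs_of_nonneg ha,
        abs_of_nonneg hb]
    have h6 : ell α (a • x + b • y) ≤ c * ‖a • x + b • y‖ := by
      rw [ell_comb]
      have h7 := mul_le_mul_of_nonneg_left h3 ha
      have h8 := mul_le_mul_of_nonneg_left h4 hb
      have h9 := mul_le_mul_of_nonpos_left h5 hc
      linarith
    by_cases hz : a • x + b • y = 0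
    · exact Or.inl hz
    · right
      have h7 := (F1 _ α c h _ hz).not.2 (not_lt.2 h6)
      exact lt_of_le_of_lt (not_lt.1 h7) (max_lt hs1 hs2)
  have hdisj : Disjoint {w : ℂ | d * ‖w‖ < ell β w} {w : ℂ | w = 0 ∨ S w < m} := by
    rw [Set.disjoint_left]
    intro w hw hw2
    change d * ‖w‖ < ell β w at hw
    change w = 0 ∨ S w < m at hw2
    by_cases h0 : w = 0
    · subst h0
      simp [ell] at hw
    · rcases hw2 with h | h
      · exact h0 h
      · exact absurd ((F1 m β d hrep w h0).2 hw) (not_lt.2 h.le)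
  obtain ⟨f, u, hf1, hf2⟩ := geometric_hahn_banach_open hUc hUo hWc hdisj
  have hu : u ≤ 0 := by
    have := hf2 0 (Or.inl rfl)
    rwa [map_zero] at this
  have hU : ∀ w : ℂ, d * ‖w‖ < ell β w → f w < 0 := fun w hw => lt_of_lt_of_le (hf1 w hw) hu
  have hW : ∀ w : ℂ, S w < m → 0 ≤ f w := by
    intro w hw
    by_contra hcon
    push Not at hcon
    obtain ⟨n, hn⟩ := exists_nat_gt (u / f w)
    have hn1 : (0 : ℝ) < n + 1 := by positivity
    have h1 : S (((n : ℝ) + 1) • w) = S w := by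
      simp only [hS]
      rw [Complex.real_smul, Complex.arg_real_mul _ hn1]
    have h2 := hf2 (((n : ℝ) + 1) • w) (Or.inr (by rw [h1]; exact hw))
    rw [map_smul, smul_eq_mul] at h2
    have h3 : ((n : ℝ) + 1) * f w < u := by
      have h4 : u / f w < n + 1 := hn.trans (by linarith)
      rw [div_lt_iff_of_neg hcon] at h4
      linarith
    linarith
  -- the direction
  set g : ℂ := ⟨f 1, f Complex.I⟩ with hg
  have hfe : ∀ φ, f (ev φ) = ‖g‖ * cos (2 * φ - Complex.arg g) := by
    intro φ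
    have h1 : ev φ = (cos (2 * φ)) • (1 : ℂ) + (sin (2 * φ)) • Complex.I := by
      apply Complex.ext
      · simp only [ev, Complex.add_re, Complex.real_smul, Complex.mul_re, Complex.ofReal_re,
          Complex.ofReal_im, Complex.one_re, Complex.one_im, Complex.I_re, Complex.I_im]
        ring
      · simp only [ev, Complex.add_im, Complex.real_smul, Complex.mul_im, Complex.ofReal_re,
          Complex.ofReal_im, Complex.one_re, Complex.one_im, Complex.I_re, Complex.I_im]
        ring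
    have h2 := Complex.norm_mul_cos_arg g
    have h3 := Complex.norm_mul_sin_arg g
    rw [h1, map_add, map_smul, map_smul, smul_eq_mul, smul_eq_mul, cos_sub]
    have h4 : f 1 = ‖g‖ * cos (Complex.arg g) := by rw [h2]
    have h5 : f Complex.I = ‖g‖ * sin (Complex.arg g) := by rw [h3]
    rw [h4, h5]
    ring
  have hg0 : 0 < ‖g‖ := by
    have h1 : f (ev φ₀) < 0 := by
      apply hU
      rw [norm_ev, mul_one, ell_ev]
      exact (hrep φ₀).1 hφ₀
    rw [hfe] at h1
    rcases (norm_nonneg g).eq_or_lt with h | h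
    · rw [← h, zero_mul] at h1
      exact absurd h1 (lt_irrefl _)
    · exact h
  have hcos : ∀ φ, cos (2 * (φ - (Complex.arg g + π) / 2)) = - cos (2 * φ - Complex.arg g) := by
    intro φ
    rw [show 2 * (φ - (Complex.arg g + π) / 2) = (2 * φ - Complex.arg g) - π by ring, cos_sub_pi]
  refine ⟨(Complex.arg g + π) / 2, fun φ hφ => ?_, fun φ hφ => ?_⟩
  · rw [hcos] at hφ
    by_contra hcon
    push Not at hcon
    have h1 := hW (ev φ) (by rw [F2]; exact hcon)
    rw [hfe] at h1
    have h2 : ‖g‖ * cos (2 * φ - Complex.arg g) < 0 := mul_neg_of_pos_of_neg hg0 (by linarith)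
    linarith
  · rw [hcos] at hφ
    by_contra hcon
    push Not at hcon
    have h1 := hU (ev φ) (by
      rw [norm_ev, mul_one, ell_ev]
      exact (hrep φ).1 hcon)
    rw [hfe] at h1
    have h2 : 0 < ‖g‖ * cos (2 * φ - Complex.arg g) := mul_pos hg0 (by linarith)
    linarith

end TH259.CO
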