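import Mathlib
import Pool.Agent.TH259.CO.Stm

/-! Numerical values of the Bessel functions `J_0` and `J_1` at `2 π`. -/

set_option autoImplicit false

open Set Real Filter Topology TH259.NS

namespace TH259.CO

theorem tail12 (m k : ℕ) : (10 : ℝ) ^ (k + 12) /
    (((k + 12).factorial : ℝ) * ((k + 12 + m).factorial : ℝ)) ≤ (1 / 100000) * (1 / 16) ^ k := by
  have h0 : ∀ k : ℕ, (10 : ℝ) ^ (k + 12) / (((k + 12).factorial : ℝ) * ((k + 12).factorial : ℝ)) ≤
      (1 / 100000) * (1 / 16) ^ k := by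
    intro k
    induction k with
    | zero => norm_num [Nat.factorial]
    | succ k ih =>
      obtain ⟨n, hn⟩ : ∃ n, n = k + 12 := ⟨_, rfl⟩
      rw [show k + 1 + 12 = n + 1 by omega]
      rw [← hn] at ih
      have hnk : (n : ℝ) = k + 12 := by rw [hn]; push_cast; ring
      have p1 : (0 : ℝ) < n.factorial := by positivity
      have h1 : (10 : ℝ) ^ (n + 1) / (((n + 1).factorial : ℝ) * ((n + 1).factorial : ℝ)) =
          (10 : ℝ) ^ n / ((n.factorial : ℝ) * (n.factorial : ℝ)) *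
            (10 / (((n : ℝ) + 1) * ((n : ℝ) + 1))) := by
        rw [Nat.factorial_succ n, pow_succ]
        push_cast
        rw [div_mul_div_comm]
        congr 1
        ring
      rw [h1, pow_succ (1 / 16 : ℝ), ← mul_assoc]
      have h2 : 10 / (((n : ℝ) + 1) * ((n : ℝ) + 1)) ≤ 1 / 16 := by
        rw [div_le_div_iff₀ (by positivity) (by norm_num), hnk]
        have : (0 : ℝ) ≤ k := Nat.cast_nonneg k
        nlinarith
      exact mul_le_mul ih h2 (by positivity) (by positivity)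
  refine le_trans ?_ (h0 k)
  apply div_le_div_of_nonneg_left (by positivity) (by positivity)
  apply mul_le_mul_of_nonneg_left _ (by positivity)
  exact_mod_cast Nat.factorial_le (Nat.le_add_right _ _)

theorem B_near (m : ℕ) {s : ℝ} (h0 : 0 ≤ s) (h1 : s ≤ 10) :
    |B m s - ∑ k ∈ Finset.range 12, bt m k s| ≤ 1 / 90000 := by
  have hs := bt_summable m s
  have h2 : B m s = (∑ k ∈ Finset.range 12, bt m k s) + ∑' k, bt m (k + 12) s :=
    (hs.sum_add_tsum_nat_add 12).symm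
  rw [h2, add_sub_cancel_left, ← Real.norm_eq_abs]
  have h3 : HasSum (fun k : ℕ => (1 / 100000 : ℝ) * (1 / 16) ^ k) ((1 / 100000) * (16 / 15)) := by
    have := (hasSum_geometric_of_lt_one (r := (1 / 16 : ℝ)) (by norm_num) (by norm_num)).mul_left
      (1 / 100000 : ℝ)
    have e : (1 - 1 / 16 : ℝ)⁻¹ = 16 / 15 := by norm_num
    rwa [e] at this
  refine (tsum_of_norm_bounded h3 fun k => ?_).trans (by norm_num)
  refine le_trans ?_ (tail12 m k)
  unfold bt
  rw [norm_div, norm_mul, norm_pow, norm_neg, norm_one, one_pow, one_mul, norm_pow,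
    Real.norm_eq_abs, Real.norm_eq_abs, abs_of_nonneg h0,
    abs_of_pos (show (0 : ℝ) < ((k + 12).factorial : ℝ) * ((k + 12 + m).factorial : ℝ) by positivity)]
  apply div_le_div_of_nonneg_right _ (by positivity)
  exact pow_le_pow_left₀ h0 h1 _

theorem B_vals {s : ℝ} (h0 : 9.8696 ≤ s) (h1 : s ≤ 9.86961) :
    (0.2200 < B 0 s ∧ B 0 s < 0.2206) ∧ (-0.0679 < B 1 s ∧ B 1 s < -0.0673) := by
  have hp : ∀ k : ℕ, (9.8696 : ℝ) ^ k ≤ s ^ k ∧ s ^ k ≤ (9.86961 : ℝ) ^ k := fun k =>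
    ⟨pow_le_pow_left₀ (by norm_num) h0 k, pow_le_pow_left₀ (by linarith) h1 k⟩
  have a0 := abs_le.1 (B_near 0 (s := s) (by linarith) (by linarith))
  have a1 := abs_le.1 (B_near 1 (s := s) (by linarith) (by linarith))
  have p2 := hp 2
  have p3 := hp 3
  have p4 := hp 4
  have p5 := hp 5
  have p6 := hp 6
  have p7 := hp 7
  have p8 := hp 8
  have p9 := hp 9
  have p10 := hp 10
  have p11 := hp 11
  unfold bt at a0 a1
  simp only [Finset.sum_range_succ, Finset.sum_range_zero] at a0 a1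
  norm_num [Nat.factorial] at a0 a1 p2 p3 p4 p5 p6 p7 p8 p9 p10 p11
  refine ⟨⟨?_, ?_⟩, ?_, ?_⟩
  · linarith [a0.1, p2.1, p2.2, p3.1, p3.2, p4.1, p4.2, p5.1, p5.2, p6.1, p6.2, p7.1, p7.2, p8.1,
      p8.2, p9.1, p9.2, p10.1, p10.2, p11.1, p11.2]
  · linarith [a0.2, p2.1, p2.2, p3.1, p3.2, p4.1, p4.2, p5.1, p5.2, p6.1, p6.2, p7.1, p7.2, p8.1,
      p8.2, p9.1, p9.2, p10.1, p10.2, p11.1, p11.2]
  · linarith [a1.1, p2.1, p2.2, p3.1, p3.2, p4.1, p4.2, p5.1, p5.2, p6.1, p6.2, p7.1, p7.2, p8.1,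
      p8.2, p9.1, p9.2, p10.1, p10.2, p11.1, p11.2]
  · linarith [a1.2, p2.1, p2.2, p3.1, p3.2, p4.1, p4.2, p5.1, p5.2, p6.1, p6.2, p7.1, p7.2, p8.1,
      p8.2, p9.1, p9.2, p10.1, p10.2, p11.1, p11.2]

theorem co_n : S_N := by
  have g1 := Real.pi_gt_d6
  have g2 := Real.pi_lt_d6
  have hs0 : (9.8696 : ℝ) ≤ π ^ 2 := by nlinarith
  have hs1 : π ^ 2 ≤ (9.86961 : ℝ) := by nlinarith
  obtain ⟨⟨b0, b1⟩, c0, c1⟩ := B_vals hs0 hs1
  have ej : j (2 * π) = B 0 (π ^ 2) := by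
    unfold j
    congr 1
    ring
  have ee : e (2 * π) = 2 * π ^ 2 * B 1 (π ^ 2) := by
    unfold e
    rw [show (2 * π) ^ 2 / 4 = π ^ 2 by ring]
    ring
  have hr0 : (2.5066 : ℝ) < √(2 * π) := by
    apply Real.lt_sqrt_of_sq_lt
    norm_num
    linarith
  have hr1 : √(2 * π) < (2.5067 : ℝ) := by
    rw [Real.sqrt_lt' (by norm_num)]
    norm_num
    linarith
  have hrp : 0 < √(2 * π) := by linarith
  have e3 : -(e (2 * π) / √(2 * π)) + j (2 * π) / (2 * √(2 * π)) =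
      (2 * π ^ 2 * (-B 1 (π ^ 2)) + B 0 (π ^ 2) / 2) / √(2 * π) := by
    rw [ej, ee]
    field_simp
  unfold S_N
  rw [e3, ej]
  have k0 : 2 * 9.8696 * 0.0673 < 2 * π ^ 2 * (-B 1 (π ^ 2)) := by
    have := mul_le_mul (mul_le_mul_of_nonneg_left hs0 (show (0 : ℝ) ≤ 2 by norm_num))
      (show (0.0673 : ℝ) ≤ -B 1 (π ^ 2) by linarith) (by norm_num) (by positivity)
    have h := mul_lt_mul_of_pos_left (show (0.0673 : ℝ) < -B 1 (π ^ 2) by linarith)
      (show (0 : ℝ) < 2 * π ^ 2 by positivity)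
    nlinarith
  have k1 : 2 * π ^ 2 * (-B 1 (π ^ 2)) ≤ 2 * 9.86961 * 0.0679 :=
    mul_le_mul (mul_le_mul_of_nonneg_left hs1 (show (0 : ℝ) ≤ 2 by norm_num))
      (show -B 1 (π ^ 2) ≤ (0.0679 : ℝ) by linarith) (by linarith) (by norm_num)
  refine ⟨?_, ?_, ?_, ?_⟩
  · have := mul_lt_mul'' hr0 b0 (by norm_num) (by norm_num)
    refine lt_trans ?_ this
    norm_num
  · have := mul_lt_mul'' hr1 b1 hrp.le (by linarith)
    refine lt_trans this ?_
    norm_num
  · rw [lt_div_iff₀ hrp]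
    nlinarith
  · rw [div_lt_iff₀ hrp]
    nlinarith

end TH259.CO
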