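import Pool.Agent.TH259.CO.Stm

/-! Project CO, piece CO-P: polar coordinates for an open convex set around 0
(written by helper731 for helper259, job 5289). -/

set_option autoImplicit false

open MeasureTheory Set Real Filter Topology Metric

namespace TH259.CO

theorem co_p : S_P := by
  intro Ω a R hΩ hc ha hball hR
  have hm : MeasurableSet Ω := hΩ.measurableSet
  have hnorm : ∀ φ t : ℝ, 0 < t → ‖(t : ℂ) * Complex.exp (φ * Complex.I)‖ = t := by
    intro φ t ht
    rw [norm_mul, Complex.norm_exp_ofReal_mul_I, mul_one, Complex.norm_real,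
      Real.norm_of_nonneg ht.le]
  have hmem : ∀ φ : ℝ, a / 2 ∈ {t : ℝ | 0 < t ∧ (t : ℂ) * Complex.exp (φ * Complex.I) ∈ Ω} := by
    intro φ
    refine ⟨by positivity, hball ?_⟩
    rw [mem_ball_zero_iff, hnorm φ _ (by positivity)]
    linarith
  have hbdd : ∀ φ : ℝ, BddAbove {t : ℝ | 0 < t ∧ (t : ℂ) * Complex.exp (φ * Complex.I) ∈ Ω} := by
    intro φ
    refine ⟨R, fun t ht => ?_⟩
    have := hR _ ht.2
    rwa [hnorm φ t ht.1] at this
  have hpos : ∀ φ, 0 < rad Ω φ := fun φ =>
    lt_of_lt_of_le (by positivity : 0 < a / 2) (le_csSup (hbdd φ) (hmem φ))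
  have hiff : ∀ (φ t : ℝ), 0 < t →
      ((t : ℂ) * Complex.exp (φ * Complex.I) ∈ Ω ↔ t < rad Ω φ) := by
    intro φ t ht
    have hcont : Continuous fun t : ℝ => (t : ℂ) * Complex.exp (φ * Complex.I) := by fun_prop
    constructor
    · intro h
      have hS : IsOpen ((fun t : ℝ => (t : ℂ) * Complex.exp (φ * Complex.I)) ⁻¹' Ω) :=
        hΩ.preimage hcont
      obtain ⟨ε, hε, hb⟩ := Metric.isOpen_iff.1 hS t h
      have h1 : t + ε / 2 ∈ (fun t : ℝ => (t : ℂ) * Complex.exp (φ * Complex.I)) ⁻¹' Ω := by
        apply hb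
        rw [Metric.mem_ball, Real.dist_eq, add_sub_cancel_left, abs_of_pos (by linarith)]
        linarith
      have h2 : t + ε / 2 ≤ rad Ω φ := le_csSup (hbdd φ) ⟨by linarith, h1⟩
      linarith
    · intro h
      obtain ⟨s, hs, hts⟩ := exists_lt_of_lt_csSup ⟨_, hmem φ⟩ h
      have h0 : (0 : ℂ) ∈ Ω := hball (mem_ball_self ha)
      have hs0 : 0 < s := hs.1
      have h3 := hc hs.2 h0 (show (0 : ℝ) ≤ t / s by positivity)
        (show (0 : ℝ) ≤ 1 - t / s by
          rw [sub_nonneg, div_le_one hs0]; exact hts.le) (by ring)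
      rw [smul_zero, add_zero, Complex.real_smul] at h3
      convert h3 using 1
      have hs1 : (s : ℂ) ≠ 0 := by exact_mod_cast hs0.ne'
      push_cast
      field_simp
  refine ⟨?_, hiff, ?_⟩
  · refine measurable_of_Ioi fun b => ?_
    rcases le_or_gt b 0 with hb | hb
    · have : rad Ω ⁻¹' Ioi b = univ := by
        ext φ
        simp only [mem_preimage, mem_Ioi, mem_univ, iff_true]
        exact lt_of_le_of_lt hb (hpos φ)
      rw [this]
      exact MeasurableSet.univ
    · have : rad Ω ⁻¹' Ioi b = (fun φ : ℝ => (b : ℂ) * Complex.exp (φ * Complex.I)) ⁻¹' Ω := by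
        ext φ
        simp only [mem_preimage, mem_Ioi]
        exact (hiff φ b hb).symm
      rw [this]
      exact (hΩ.preimage (by fun_prop)).measurableSet
  · intro F hF g hg hg0
    have hsub : Ω ⊆ closedBall (0 : ℂ) R := by
      intro x hx
      rw [mem_closedBall_zero_iff]
      exact hR x hx
    have hint : IntegrableOn F Ω :=
      (hF.continuousOn.integrableOn_compact (isCompact_closedBall (0 : ℂ) R)).mono_set hsub
    have hpi : -π ≤ π := by linarith [pi_pos]
    obtain ⟨f, hf⟩ : ∃ f : ℂ → ℝ, f = Ω.indicator F := ⟨_, rfl⟩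
    have hfint : Integrable f := by
      rw [hf]
      exact (integrable_indicator_iff hm).2 hint
    have e1 : ∫ x in Ω, F x = ∫ x, f x := by
      rw [hf]
      exact (integral_indicator hm).symm
    rw [e1, ← Complex.integral_comp_polarCoord_symm]
    have htarget : polarCoord.target = Ioi (0 : ℝ) ×ˢ Ioo (-π) π := rfl
    rw [htarget]
    have hS : ∀ θ : ℝ, ∫ t in Ioi (0 : ℝ), t • f (Complex.polarCoord.symm (t, θ)) =
        g θ (rad Ω θ) := by
      intro θ
      have e2 : ∫ t in Ioi (0 : ℝ), t • f (Complex.polarCoord.symm (t, θ)) =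
          ∫ t in Ioi (0 : ℝ), (Iio (rad Ω θ)).indicator
            (fun t : ℝ => t * F ((t : ℂ) * Complex.exp (θ * Complex.I))) t := by
        apply setIntegral_congr_fun measurableSet_Ioi
        intro t ht
        have he : (Real.cos θ : ℂ) + Real.sin θ * Complex.I = Complex.exp (θ * Complex.I) := by
          rw [Complex.exp_mul_I, Complex.ofReal_cos, Complex.ofReal_sin]
        simp only [Complex.polarCoord_symm_apply, smul_eq_mul]
        rw [he, hf]
        by_cases h : t < rad Ω θ
        · rw [indicator_of_mem (show t ∈ Iio (rad Ω θ) from h),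
            indicator_of_mem ((hiff θ t ht).2 h)]
        · rw [indicator_of_notMem (show t ∉ Iio (rad Ω θ) from h),
            indicator_of_notMem (fun h' => h ((hiff θ t ht).1 h')), mul_zero]
      rw [e2, setIntegral_indicator measurableSet_Iio, Ioi_inter_Iio,
        ← integral_Ioc_eq_integral_Ioo, ← intervalIntegral.integral_of_le (hpos θ).le,
        intervalIntegral.integral_eq_sub_of_hasDerivAt (f := g θ) (fun t _ => hg θ t), hg0,
        sub_zero]
      apply Continuous.intervalIntegrable
      fun_prop
    have hi0 : IntegrableOn (fun p : ℝ × ℝ => p.1 • f (Complex.polarCoord.symm p))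
        (Ioi (0 : ℝ) ×ˢ Ioo (-π) π) := by
      rw [← htarget]
      have hf2 : Integrable (fun p : ℝ × ℝ => f (Complex.measurableEquivRealProd.symm p)) :=
        (Complex.volume_preserving_equiv_real_prod.symm.integrable_comp_emb
          (MeasurableEquiv.measurableEmbedding _)).2 hfint
      have h5 := (integrableOn_image_iff_integrableOn_abs_det_fderiv_smul volume
        polarCoord.open_target.measurableSet
        (fun p _ => (hasFDerivAt_polarCoord_symm p).hasFDerivWithinAt)
        polarCoord.symm.injOn
        (fun p => f (Complex.measurableEquivRealProd.symm p))).1 (hf2.integrableOn)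
      refine h5.congr_fun ?_ polarCoord.open_target.measurableSet
      intro p hp
      have hp1 : 0 < p.1 := hp.1
      simp only [det_fderivPolarCoordSymm, abs_of_pos hp1]
      rfl
    have hv : (volume : Measure (ℝ × ℝ)).restrict (Ioi (0 : ℝ) ×ˢ Ioo (-π) π) =
        (volume.restrict (Ioi (0 : ℝ))).prod (volume.restrict (Ioo (-π) π)) := by
      rw [Measure.prod_restrict]; rfl
    have hi1 : Integrable (fun p : ℝ × ℝ => p.1 • f (Complex.polarCoord.symm p))
        ((volume.restrict (Ioi (0 : ℝ))).prod (volume.restrict (Ioo (-π) π))) := by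
      rw [← hv]; exact hi0
    rw [hv, integral_prod_symm _ hi1]
    exact integral_congr_ae (Filter.Eventually.of_forall hS)

end TH259.CO
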