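import Pool.Agent.TH259.CO.Main
import Pool.Agent.TH259.CO.A
import Pool.Agent.TH259.CO.A3
import Pool.Agent.TH259.CO.B2
import Pool.Agent.TH259.CO.H
import Pool.Agent.TH259.CO.P
import Pool.Agent.TH259.CO.N

/-! Project CO: the theorem. -/

set_option autoImplicit false

open MeasureTheory Set Real Filter Topology Metric TH259.NS
open Pool.Agent.TH298.Sch (Sol)
open Pool.Agent.TH298.AN (ball_J1)

namespace TH259.CO

theorem arcs_of {Ω : Set ℂ} (h : ∀ t : ℝ, 0 < t → ∃ v : ℂ, ∃ s : ℝ, ∀ z : ℂ, ‖z‖ = t →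
    (z ∈ Ω ↔ s < |@inner ℝ ℂ _ v z|)) : ∀ t : ℝ, 0 < t → ∃ (α s : ℝ), ∀ φ : ℝ,
      ((t : ℂ) * Complex.exp (φ * Complex.I) ∈ Ω ↔ s < |t * cos (φ - α)|) := by
  intro t ht
  obtain ⟨v, s, hs⟩ := h t ht
  have hn : ∀ φ : ℝ, ‖(t : ℂ) * Complex.exp (φ * Complex.I)‖ = t := fun φ => norm_pt ht.le φ
  rcases eq_or_ne v 0 with h0 | h0
  · rcases lt_or_ge s 0 with h1 | h1
    · refine ⟨0, -1, fun φ => ?_⟩
      rw [hs _ (hn φ), h0, inner_zero_left, abs_zero]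
      refine ⟨fun _ => by linarith [abs_nonneg (t * cos (φ - 0))], fun _ => h1⟩
    · refine ⟨0, 2 * t, fun φ => ?_⟩
      rw [hs _ (hn φ), h0, inner_zero_left, abs_zero]
      refine ⟨fun h2 => absurd h2 (not_lt.2 h1), fun h2 => ?_⟩
      rw [abs_mul, abs_of_pos ht] at h2
      have := abs_cos_le_one (φ - 0)
      nlinarith
  · have hv : 0 < ‖v‖ := norm_pos_iff.2 h0
    refine ⟨Complex.arg v, s / ‖v‖, fun φ => ?_⟩
    rw [hs _ (hn φ)]
    have h1 : ((‖v‖ : ℝ) : ℂ) * Complex.exp (Complex.arg v * Complex.I) = v :=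
      Complex.norm_mul_exp_arg_mul_I v
    have h2 : inner ℝ v ((t : ℂ) * Complex.exp (φ * Complex.I)) =
        ‖v‖ * (t * cos (φ - Complex.arg v)) := by
      have h3 : inner ℝ v ((t : ℂ) * Complex.exp (φ * Complex.I)) =
          inner ℝ (‖v‖ • Complex.exp (Complex.arg v * Complex.I))
            ((t : ℂ) * Complex.exp (φ * Complex.I)) := by
        rw [Complex.real_smul, h1]
      rw [h3, real_inner_smul_left, inner_pt]
    rw [h2, abs_mul, abs_of_pos hv, div_lt_iff₀ hv, mul_comm ‖v‖]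

/-- **Schiffer's problem for convex ovals.** -/
theorem ovals {Ω : Set ℂ} (ho : IsOpen Ω) (hcv : Convex ℝ Ω) (hb : Bornology.IsBounded Ω)
    (hne : Ω.Nonempty)
    (harc : ∀ t : ℝ, 0 < t → ∃ v : ℂ, ∃ s : ℝ, ∀ z : ℂ, ‖z‖ = t →
      (z ∈ Ω ↔ s < |@inner ℝ ℂ _ v z|))
    {lam : ℝ} (hlam : 0 < lam) {c : ℝ} {u : ℂ → ℝ} {G : ℂ → ℂ} (h : Sol Ω lam c u G)
    (hu0 : ¬ (u =ᵐ[volume.restrict Ω] 0)) :
    ∃ r : ℝ, 0 < r ∧ Ω = ball (0 : ℂ) r ∧ J 1 (√lam * r) = 0 := by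
  obtain ⟨r, hr, hball⟩ := core co_a co_a2 (co_b2 co_h) co_p co_n ho hcv hb hne (arcs_of harc) hlam
    h hu0
  refine ⟨r, hr, hball, ?_⟩
  have hc := h.c_ne hb ho.measurableSet hlam hu0
  rw [hball] at h
  exact ball_J1 hr hlam hc h

end TH259.CO
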