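import Pool.Agent.TH259.CO.D
import Pool.Agent.TH259.CO.Stm2
import Pool.Agent.TH259.NA.Conv2
import Pool.Agent.TH259.NS.Conv

/-! Project CO: assembly. -/

set_option autoImplicit false

open MeasureTheory Set Real Filter Topology Metric TH259.NS
open Pool.Agent.TH298.Sch (Sol)
open Pool.Agent.TH298.AN (ball_le ball_J1 int_J0)

namespace TH259.CO

/-- location of a centrally symmetric convex set with a large width -/
theorem locate {Ω : Set ℂ} (ho : IsOpen Ω) (hcv : Convex ℝ Ω) (hb : Bornology.IsBounded Ω)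
    (hne : Ω.Nonempty) (hsym : ∀ x ∈ Ω, -x ∈ Ω) {κ : ℝ} (hk : 0 < κ)
    (hcos : ∀ ξ : ℂ, ‖ξ‖ = κ → ∫ x in Ω, cos (inner ℝ ξ x) = 0)
    (hsin : ∀ ξ : ℂ, ‖ξ‖ = κ → ∫ x in Ω, sin (inner ℝ ξ x) = 0)
    (hwide : ∀ e : ℂ, ‖e‖ = 1 → ∀ w : ℝ, κ * w < 4 * π → ∃ x ∈ Ω, ∃ y ∈ Ω, w < inner ℝ e (x - y)) :
    ∃ k : ℕ, 2 ≤ k ∧ ball (0 : ℂ) (k * π / κ) ⊆ Ω ∧ κ * Metric.diam Ω < 2 * ((k + 1) * π) := by
  have hpi := Real.pi_pos
  -- some `K` works
  have hex : ∃ K : ℕ, ∃ e : ℂ, ‖e‖ = 1 ∧ ∃ w : ℝ, κ * w < 2 * π * K ∧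
      ∀ x ∈ Ω, ∀ y ∈ Ω, inner ℝ e (x - y) ≤ w := by
    obtain ⟨K, hK⟩ := exists_nat_gt (κ * Metric.diam Ω / (2 * π))
    refine ⟨K, 1, by simp, Metric.diam Ω, ?_, ?_⟩
    · rw [div_lt_iff₀ (by positivity)] at hK
      linarith
    · intro x hx y hy
      have h1 := real_inner_le_norm (1 : ℂ) (x - y)
      rw [norm_one, one_mul, ← dist_eq_norm] at h1
      exact h1.trans (Metric.dist_le_diam_of_mem hb hx hy)
  classical
  obtain ⟨K, hKdef⟩ : ∃ K, K = Nat.find hex := ⟨_, rfl⟩
  obtain ⟨e, he, w, hw1, hw2⟩ := Nat.find_spec hex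
  rw [← hKdef] at hw1
  have hmin : ∀ k < K, ∀ e : ℂ, ‖e‖ = 1 → ∀ w : ℝ, κ * w < 2 * π * k →
      ∃ x ∈ Ω, ∃ y ∈ Ω, w < inner ℝ e (x - y) := by
    intro k hkK e he w hw
    have h1 := Nat.find_min hex (show k < Nat.find hex by rw [← hKdef]; exact hkK)
    by_contra hcon
    push Not at hcon
    exact h1 ⟨e, he, w, hw, hcon⟩
  have hK3 : 3 ≤ K := by
    by_contra hlt
    push Not at hlt
    have h1 : (K : ℝ) ≤ 2 := by exact_mod_cast Nat.lt_succ_iff.1 hlt
    obtain ⟨x, hx, y, hy, hxy⟩ := hwide e he w (by nlinarith)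
    exact absurd (hw2 x hx y hy) (not_le.2 hxy)
  obtain ⟨k, rfl⟩ : ∃ k, K = k + 1 := ⟨K - 1, by omega⟩
  refine ⟨k, by omega, ?_, ?_⟩
  · refine TH259.NA.ball_of_width ho hcv hne hsym fun e he w hw => ?_
    refine hmin k (by omega) e he w ?_
    have h1 : κ * w < κ * (2 * (k * π / κ)) := mul_lt_mul_of_pos_left hw hk
    have h2 : κ * (2 * (k * π / κ)) = 2 * π * k := by
      field_simp
    linarith
  · have h1 := band_k ho hcv hb hne hk hcos hsin he (by omega) hw2 hw1
    push_cast at h1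
    linarith

theorem inner_pt (t φ α : ℝ) : inner ℝ (Complex.exp (α * Complex.I))
    ((t : ℂ) * Complex.exp (φ * Complex.I)) = t * cos (φ - α) := by
  rw [Complex.inner, cos_sub]
  simp only [Complex.mul_re, Complex.conj_re, Complex.conj_im, Complex.exp_ofReal_mul_I_re,
    Complex.exp_ofReal_mul_I_im, Complex.ofReal_re, Complex.ofReal_im, Complex.mul_im]
  ring

theorem int_cos2 (α : ℝ) : ∫ φ in Ioo (-π) π, cos (2 * (φ - α)) = 0 := by
  have hpi := Real.pi_pos
  rw [← integral_Ioc_eq_integral_Ioo, ← intervalIntegral.integral_of_le (by linarith)]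
  have hd : ∀ φ : ℝ, HasDerivAt (fun φ : ℝ => sin (2 * (φ - α)) / 2) (cos (2 * (φ - α))) φ := by
    intro φ
    have h1 : HasDerivAt (fun φ : ℝ => 2 * (φ - α)) 2 φ := by
      have := ((hasDerivAt_id φ).sub_const α).const_mul 2
      simpa using this
    have h2 := (h1.sin).div_const 2
    refine h2.congr_deriv ?_
    ring
  rw [intervalIntegral.integral_eq_sub_of_hasDerivAt (fun φ _ => hd φ)]
  · have : sin (2 * (π - α)) = sin (2 * (-π - α)) := by
      have h : 2 * (π - α) = 2 * (-π - α) + 2 * π + 2 * π := by ring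
      rw [h, sin_add_two_pi, sin_add_two_pi]
    rw [this]; ring
  · apply Continuous.intervalIntegrable
    fun_prop

/-- `P = t J_1 + 2 J_0` -/
noncomputable def P (t : ℝ) : ℝ := e t + 2 * j t

theorem P_deriv (t : ℝ) : HasDerivAt P (-(t ^ 3 / 4) * B 2 (t ^ 2 / 4)) t := by
  have h := (e_deriv t).add ((j_deriv t).const_mul 2)
  refine h.congr_deriv ?_
  have h4 := B_ode 0 (t ^ 2 / 4)
  simp only [Nat.cast_zero, zero_add, one_mul] at h4
  simp only [j]
  linear_combination t * h4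

theorem P_cont : Continuous P := e_cont.add (continuous_const.mul j_cont)

theorem P_zero : P 0 = 2 := by
  unfold P e j
  norm_num [B_zero]

theorem e_zero : e 0 = 0 := by
  unfold e
  norm_num

theorem core (hA : S_A) (hA2 : S_A2) (hB : S_B2) (hP : S_P) (hN : S_N) {Ω : Set ℂ}
    (ho : IsOpen Ω) (hcv : Convex ℝ Ω) (hb : Bornology.IsBounded Ω) (hne : Ω.Nonempty)
    (harc : ∀ t : ℝ, 0 < t → ∃ (α s : ℝ), ∀ φ : ℝ,
      ((t : ℂ) * Complex.exp (φ * Complex.I) ∈ Ω ↔ s < |t * cos (φ - α)|))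
    {lam : ℝ} (hlam : 0 < lam) {c : ℝ} {u : ℂ → ℝ} {G : ℂ → ℂ} (h : Sol Ω lam c u G)
    (hu0 : ¬ (u =ᵐ[volume.restrict Ω] 0)) : ∃ r : ℝ, 0 < r ∧ Ω = ball (0 : ℂ) r := by
  have hm := ho.measurableSet
  have hpi := Real.pi_pos
  obtain ⟨κ, hκ⟩ : ∃ κ, κ = √lam := ⟨_, rfl⟩
  have hk : 0 < κ := by rw [hκ]; exact Real.sqrt_pos.2 hlam
  have hkk : κ ^ 2 = lam := by rw [hκ]; exact Real.sq_sqrt hlam.le
  have hc := h.c_ne hb hm hlam hu0
  -- central symmetry
  have hsym : ∀ x ∈ Ω, -x ∈ Ω := by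
    intro x hx
    rcases eq_or_ne x 0 with h0 | h0
    · rw [h0, neg_zero]; rwa [h0] at hx
    obtain ⟨α, s, hs⟩ := harc ‖x‖ (norm_pos_iff.2 h0)
    have h1 : ((‖x‖ : ℝ) : ℂ) * Complex.exp (Complex.arg x * Complex.I) = x :=
      Complex.norm_mul_exp_arg_mul_I x
    have h2 : ((‖x‖ : ℝ) : ℂ) * Complex.exp (((Complex.arg x + π : ℝ) : ℂ) * Complex.I) = -x := by
      rw [Complex.ofReal_add, add_mul, Complex.exp_add, Complex.exp_pi_mul_I, mul_neg_one, mul_neg,
        h1]
    rw [← h2, hs]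
    rw [← h1, hs] at hx
    have h3 : Complex.arg x + π - α = (Complex.arg x - α) + π := by ring
    rw [h3, cos_add_pi, mul_neg, abs_neg]
    exact hx
  have hft : ∀ ξ : ℂ, ‖ξ‖ = κ → ∫ x in Ω, Real.cos (inner ℝ ξ x) = 0 ∧
      ∫ x in Ω, Real.sin (inner ℝ ξ x) = 0 := fun ξ hξ =>
    Pool.Agent.W632.Schiffer.ft_zero hb hm hlam h.u2 h.h1 h.h2 hu0 ξ (by rw [hξ, hkk])
  by_cases hcase : ∃ e : ℂ, ‖e‖ = 1 ∧ ∃ w : ℝ, √lam * w < 4 * π ∧
        ∀ x ∈ Ω, ∀ y ∈ Ω, inner ℝ e (x - y) ≤ w
  · obtain ⟨e, he, w, hw1, hw2⟩ := hcase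
    obtain ⟨p, r, hr, hball⟩ :=
      Pool.Agent.TH298.GB.first_band ho hcv hb hne hlam he hw2 hw1 h hu0
    have hp : p = 0 := TH259.NA.centre_zero hr (by rw [← hball]; exact hsym)
    exact ⟨r, hr, by rw [hball, hp]⟩
  push Not at hcase
  rw [← hκ] at hcase
  obtain ⟨k, hk2, hin, hdiam⟩ := locate ho hcv hb hne hsym hk (fun ξ hξ => (hft ξ hξ).1)
    (fun ξ hξ => (hft ξ hξ).2) (fun e he w hw => by
      obtain ⟨x, hx, y, hy, hxy⟩ := hcase e he w hw
      exact ⟨x, hx, y, hy, hxy⟩)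
  have hk2' : (2 : ℝ) ≤ k := by exact_mod_cast hk2
  have ha0 : 0 < k * π / κ := by positivity
  have hR : ∀ x ∈ Ω, ‖x‖ ≤ Metric.diam Ω / 2 := by
    intro x hx
    have h2 := Metric.dist_le_diam_of_mem hb hx (hsym x hx)
    rw [dist_eq_norm, sub_neg_eq_add, ← two_mul, norm_mul] at h2
    simp only [Complex.norm_ofNat] at h2
    linarith
  obtain ⟨hT, hmem, hpol⟩ := hP Ω _ _ ho hcv ha0 hin hR
  obtain ⟨q, hq1, hq2, e1, e0, e2, j1, p2⟩ := co_c_of hN k hk2
  obtain ⟨σ, hσ⟩ : ∃ σ : ℝ, σ = (-1) ^ k := ⟨_, rfl⟩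
  rw [← hσ] at e1 e2 j1 p2
  have hσ2 : σ * σ = 1 := by rw [hσ]; exact sg_sq k
  -- the bounds for the radial function
  have hrad1 : ∀ φ, k * π / κ ≤ rad Ω φ := by
    intro φ
    refine le_of_forall_lt fun t ht => ?_
    rcases le_or_gt t 0 with h0 | h0
    · have h1 : (k * π / κ) / 2 < rad Ω φ := by
        rw [← hmem φ _ (by positivity)]
        apply hin
        rw [mem_ball_zero_iff, norm_pt (by positivity)]
        linarith
      linarith
    · rw [← hmem φ t h0]
      apply hin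
      rw [mem_ball_zero_iff, norm_pt h0.le]
      exact ht
  have hrad2 : ∀ φ, rad Ω φ ≤ Metric.diam Ω / 2 := by
    intro φ
    refine le_of_forall_lt fun t ht => ?_
    by_contra hcon
    push Not at hcon
    obtain ⟨s, hs1, hs2⟩ := exists_between ht
    have hd0 : 0 ≤ Metric.diam Ω := Metric.diam_nonneg
    have hs0 : 0 < s := by linarith
    have h1 := hR _ ((hmem φ s hs0).2 hs2)
    rw [norm_pt hs0.le] at h1
    linarith
  have hTI : ∀ φ, κ * rad Ω φ ∈ Ico (k * π) ((k + 1) * π) := by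
    intro φ
    constructor
    · have h1 := mul_le_mul_of_nonneg_left (hrad1 φ) hk.le
      have h2 : κ * (k * π / κ) = k * π := by field_simp
      linarith
    · have h1 := mul_le_mul_of_nonneg_left (hrad2 φ) hk.le
      linarith
  -- the first moment
  have m0 : ∫ φ in Ioo (-π) π, e (κ * rad Ω φ) = 0 := by
    have h1 := int_J0 hb hm h hlam hc
    have h2 := hpol (fun x => B 0 (lam * ‖x‖ ^ 2 / 4))
      (Pool.Agent.TH298.AN.rad_c1 0 lam).continuous (fun _ t => e (κ * t) / lam) (fun φ t => by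
        have k1 : HasDerivAt (fun t : ℝ => κ * t) κ t := by
          simpa using (hasDerivAt_id t).const_mul κ
        have k2 := ((e_deriv (κ * t)).comp t k1).div_const lam
        refine k2.congr_deriv ?_
        rw [norm_mul, Complex.norm_exp_ofReal_mul_I, mul_one, Complex.norm_real, Real.norm_eq_abs,
          sq_abs]
        unfold j
        rw [mul_pow, hkk]
        rw [← hkk]
        field_simp) (fun φ => by simp [e_zero])
    rw [h1, integral_div] at h2
    have h3 := h2.symm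
    rw [div_eq_zero_iff] at h3
    exact h3.resolve_right hlam.ne'
  -- the second moments
  have hrot : ∀ α : ℝ, ∫ x in Ω, B 2 (lam * ‖x‖ ^ 2 / 4) *
      (cos (2 * α) * (x.re ^ 2 - x.im ^ 2) + 2 * sin (2 * α) * (x.re * x.im)) = 0 := by
    intro α
    have h1 := hA Ω lam c u G hb hm h hlam hc
    have h2 := hA2 Ω lam c u G hb hm h hlam hc
    have hint : ∀ g : ℂ → ℝ, Continuous g → IntegrableOn g Ω := by
      intro g hg
      exact (hg.continuousOn.integrableOn_compact hb.isCompact_closure).mono_set subset_closure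
    have cB : Continuous fun x : ℂ => B 2 (lam * ‖x‖ ^ 2 / 4) :=
      (Pool.Agent.TH298.AN.rad_c1 2 lam).continuous
    have h3 : ∀ x : ℂ, B 2 (lam * ‖x‖ ^ 2 / 4) *
      (cos (2 * α) * (x.re ^ 2 - x.im ^ 2) + 2 * sin (2 * α) * (x.re * x.im)) =
      cos (2 * α) * (B 2 (lam * ‖x‖ ^ 2 / 4) * (x.re ^ 2 - x.im ^ 2)) +
      2 * sin (2 * α) * (B 2 (lam * ‖x‖ ^ 2 / 4) * (x.re * x.im)) := by
      intro x; ring
    simp only [h3]
    rw [integral_add, integral_const_mul, integral_const_mul, h1, h2]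
    · ring
    · apply Integrable.const_mul
      exact hint _ (cB.mul ((Complex.continuous_re.pow 2).sub (Complex.continuous_im.pow 2)))
    · apply Integrable.const_mul
      exact hint _ (cB.mul (Complex.continuous_re.mul Complex.continuous_im))
  have m2 : ∀ α : ℝ, ∫ φ in Ioo (-π) π, (2 - P (κ * rad Ω φ)) * cos (2 * (φ - α)) = 0 := by
    intro α
    have h2 := hpol (fun x => B 2 (lam * ‖x‖ ^ 2 / 4) *
      (cos (2 * α) * (x.re ^ 2 - x.im ^ 2) + 2 * sin (2 * α) * (x.re * x.im)))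
      ((Pool.Agent.TH298.AN.rad_c1 2 lam).continuous.mul (by fun_prop))
      (fun φ t => 4 / lam ^ 2 * ((2 - P (κ * t)) * cos (2 * (φ - α)))) (fun φ t => by
        have k1 : HasDerivAt (fun t : ℝ => κ * t) κ t := by
          simpa using (hasDerivAt_id t).const_mul κ
        have k2 := ((((P_deriv (κ * t)).comp t k1).const_sub 2).mul_const
          (cos (2 * (φ - α)))).const_mul (4 / lam ^ 2)
        refine k2.congr_deriv ?_
        rw [norm_mul, Complex.norm_exp_ofReal_mul_I, mul_one, Complex.norm_real, Real.norm_eq_abs,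
          sq_abs]
        simp only [Complex.mul_re, Complex.mul_im, Complex.ofReal_re, Complex.ofReal_im,
          Complex.exp_ofReal_mul_I_re, Complex.exp_ofReal_mul_I_im]
        have k3 : cos (2 * (φ - α)) = cos (2 * α) * (cos φ ^ 2 - sin φ ^ 2) +
            2 * sin (2 * α) * (sin φ * cos φ) := by
          rw [mul_sub, cos_sub, cos_two_mul' φ, sin_two_mul φ]
          ring
        have k4 : (κ * t) ^ 2 / 4 = lam * t ^ 2 / 4 := by rw [mul_pow, hkk]
        rw [k3, k4, ← hkk]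
        field_simp
        ring) (fun φ => by simp [P_zero])
    rw [hrot α, integral_const_mul] at h2
    have h3 := h2.symm
    rw [mul_eq_zero] at h3
    refine h3.resolve_left ?_
    positivity
  have hTm : Measurable fun φ => κ * rad Ω φ := hT.const_mul κ
  have hbdd : ∀ g : ℝ → ℝ, Continuous g → ∀ α : ℝ,
      IntegrableOn (fun φ => g (κ * rad Ω φ) * cos (2 * (φ - α))) (Ioo (-π) π) := by
    intro g hg α
    obtain ⟨C, hC⟩ := isCompact_Icc.exists_bound_of_continuousOn
      (s := Icc (k * π) ((k + 1) * π)) hg.continuousOn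
    have hfin : volume (Ioo (-π) π) < ⊤ := by
      rw [Real.volume_Ioo]; exact ENNReal.ofReal_lt_top
    refine Measure.integrableOn_of_bounded (M := C) hfin.ne ?_ ?_
    · exact ((hg.measurable.comp hTm).mul (by fun_prop)).aestronglyMeasurable
    · refine Eventually.of_forall fun φ => ?_
      have h1 := hC _ ⟨(hTI φ).1, (hTI φ).2.le⟩
      rw [norm_mul]
      have h2 : ‖cos (2 * (φ - α))‖ ≤ 1 := by
        rw [Real.norm_eq_abs]; exact abs_cos_le_one _
      have h3 : 0 ≤ C := (norm_nonneg _).trans h1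
      calc _ ≤ C * 1 := mul_le_mul h1 h2 (norm_nonneg _) h3
        _ = C := mul_one _
  -- the monotonicity of `J_0` and `t J_1` on the band
  have hL : k * π < q := hq1
  have hLpos : 0 < k * π := by positivity
  have hjm1 : MonotoneOn (fun t => σ * j t) (Icc (k * π) q) := by
    apply monotoneOn_of_deriv_nonneg (convex_Icc _ _)
    · exact (continuous_const.mul j_cont).continuousOn
    · intro t ht
      exact ((j_deriv t).const_mul σ).differentiableAt.differentiableWithinAt
    · intro t ht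
      rw [interior_Icc] at ht
      have ht0 : 0 < t := hLpos.trans ht.1
      rw [((j_deriv' ht0.ne').const_mul σ).deriv]
      have h1 := e1 t ⟨ht.1.le, ht.2⟩
      have h2 : σ * -(e t / t) = -(σ * e t) / t := by ring
      rw [h2]
      apply div_nonneg _ ht0.le
      linarith
  have hjm2 : AntitoneOn (fun t => σ * j t) (Icc q ((k + 1) * π)) := by
    apply antitoneOn_of_deriv_nonpos (convex_Icc _ _)
    · exact (continuous_const.mul j_cont).continuousOn
    · intro t ht
      exact ((j_deriv t).const_mul σ).differentiableAt.differentiableWithinAt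
    · intro t ht
      rw [interior_Icc] at ht
      have ht0 : 0 < t := hLpos.trans (hL.trans ht.1)
      rw [((j_deriv' ht0.ne').const_mul σ).deriv]
      have h1 := e2 t ⟨ht.1, ht.2.le⟩
      have h2 : σ * -(e t / t) = -(σ * e t / t) := by ring
      rw [h2]
      have : 0 ≤ σ * e t / t := div_nonneg h1.le ht0.le
      linarith
  have hem : MonotoneOn (fun t => σ * e t) (Icc (k * π) q) := by
    apply monotoneOn_of_deriv_nonneg (convex_Icc _ _)
    · exact (continuous_const.mul e_cont).continuousOn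
    · intro t ht
      exact ((e_deriv t).const_mul σ).differentiableAt.differentiableWithinAt
    · intro t ht
      rw [interior_Icc] at ht
      have ht0 : 0 < t := hLpos.trans ht.1
      rw [((e_deriv t).const_mul σ).deriv]
      have h1 := j1 t ⟨ht.1.le, ht.2.le⟩
      have h2 : σ * (t * j t) = t * (σ * j t) := by ring
      rw [h2]
      exact (mul_pos ht0 h1).le
  have hqmem : q ∈ Icc (k * π) q := ⟨hL.le, le_rfl⟩
  have hconcl := hB (fun φ => κ * rad Ω φ) hTm (k * π) q ((k + 1) * π) hq1 hq2 hTI ?_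
    (fun t => σ * e t) (fun t => σ * (P t - P q)) (continuous_const.mul e_cont)
    (continuous_const.mul (P_cont.sub continuous_const)) e1 (by simp [e0]) e2 ?_ ?_ (by simp) ?_ ?_ ?_ ?_
  · -- the conclusion
    refine ⟨q / κ, by have := hLpos.trans hL; positivity, ?_⟩
    refine ball_of_rad hP ho hcv ha0 hin hR (by have := hLpos.trans hL; positivity) ?_
    filter_upwards [hconcl] with φ hφ
    rw [eq_div_iff hk.ne', mul_comm]
    exact hφ
  · -- the caps
    intro t
    rcases le_or_gt t 0 with h0 | h0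
    · refine ⟨0, -2, fun φ => ⟨fun _ => ?_, fun _ => ?_⟩⟩
      · have := neg_one_le_cos (2 * (φ - 0))
        linarith
      · have := (hTI φ).1
        linarith
    · have htκ : 0 < t / κ := by positivity
      obtain ⟨α, s, hs⟩ := harc (t / κ) htκ
      have hiff : ∀ φ, t < κ * rad Ω φ ↔ s < |t / κ * cos (φ - α)| := by
        intro φ
        rw [← hs φ, hmem φ _ htκ, div_lt_iff₀ hk, mul_comm]
      rcases lt_or_ge s 0 with hs0 | hs0
      · refine ⟨0, -2, fun φ => ⟨fun _ => ?_, fun _ => ?_⟩⟩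
        · have := neg_one_le_cos (2 * (φ - 0))
          linarith
        · rw [hiff]
          exact hs0.trans_le (abs_nonneg _)
      · refine ⟨α, 2 * (s / (t / κ)) ^ 2 - 1, fun φ => ?_⟩
        rw [hiff, cos_two_mul]
        have h1 : s < |t / κ * cos (φ - α)| ↔ s ^ 2 < (t / κ * cos (φ - α)) ^ 2 := by
          rw [← sq_lt_sq₀ hs0 (abs_nonneg _), sq_abs]
        rw [h1, mul_pow, div_pow s, ← div_lt_iff₀' (by positivity)]
        constructor <;> intro h2 <;> linarith
  · -- monotone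
    intro s hs t ht hst
    have h1 := hem hs ht hst
    have h2 := hjm1 hs ht hst
    simp only at h1 h2 ⊢
    unfold P
    linarith
  · intro t ht
    have h1 := e1 t ht
    have h2 := hjm1 ⟨ht.1, ht.2.le⟩ hqmem ht.2.le
    simp only at h2 ⊢
    unfold P
    rw [e0]
    linarith
  · intro t ht
    have h1 := p2 t ht
    unfold P
    rw [e0]
    linarith
  · intro t ht
    have h3 : σ * j t ≤ σ * j q := by
      rcases le_total t q with h4 | h4
      · exact hjm1 ⟨ht.1, h4⟩ hqmem h4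
      · exact hjm2 ⟨le_rfl, hq2.le⟩ ⟨h4, ht.2⟩ h4
    unfold P
    rw [e0]
    linarith
  · rw [integral_const_mul, m0, mul_zero]
  · intro α
    have h1 : ∀ φ, σ * (P (κ * rad Ω φ) - P q) * cos (2 * (φ - α)) =
        -σ * ((2 - P (κ * rad Ω φ)) * cos (2 * (φ - α))) +
          (σ * (2 - P q)) * cos (2 * (φ - α)) := by
      intro φ; ring
    simp only [h1]
    rw [integral_add, integral_const_mul, integral_const_mul, m2 α, int_cos2 α]
    · ring
    · apply Integrable.const_mul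
      exact hbdd (fun t => 2 - P t) (continuous_const.sub P_cont) α
    · apply Integrable.const_mul
      have h5 := hbdd (fun _ => 1) continuous_const α
      simp only [one_mul] at h5
      exact h5

end TH259.CO
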