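import Pool.Agent.TH259.CO.Main
import Pool.Agent.TH259.CO.B2

/-! Project CO: the version in which only the circles of radius at most `7/6` of the inradius are
required to meet the set in antipodal arcs. -/

set_option autoImplicit false

open MeasureTheory Set Real Filter Topology Metric TH259.NS
open Pool.Agent.TH298.Sch (Sol)
open Pool.Agent.TH298.AN (ball_le ball_J1 int_J0)

namespace TH259.CO

theorem hH_of (hH : S_H) {T : ℝ → ℝ} {L U q q1 : ℝ} (hTr : ∀ φ, T φ ∈ Ico L U) (hLq : L < q)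
    (hq1 : q < q1) (hcap : ∀ t < q1, ∃ α c : ℝ, ∀ φ, t < T φ ↔ c < cos (2 * (φ - α))) :
    (∃ α c : ℝ, 0 < c ∧ ∀ φ, q < T φ ↔ c < cos (2 * (φ - α))) →
      (∀ φ, T φ ≤ q) ∨ ∃ m ≤ q, L ≤ m ∧ ∃ α : ℝ, (∀ φ, 0 < cos (2 * (φ - α)) → m ≤ T φ) ∧
        (∀ φ, cos (2 * (φ - α)) < 0 → T φ ≤ m) := by
  rintro ⟨α, c, hc, h⟩
  have key := hH (fun φ => min (T φ) q1) L U
    (fun φ => ⟨le_min (hTr φ).1 (hLq.trans hq1).le, (min_le_left _ _).trans_lt (hTr φ).2⟩)
    (fun t => by
      rcases lt_or_ge t q1 with h1 | h1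
      · obtain ⟨β, d, hd⟩ := hcap t h1
        refine ⟨β, d, fun φ => ?_⟩
        rw [← hd φ, lt_min_iff]
        exact ⟨fun h2 => h2.1, fun h2 => ⟨h2, h1⟩⟩
      · refine ⟨0, 2, fun φ => ⟨fun h2 => ?_, fun h2 => ?_⟩⟩
        · exact absurd (h2.trans_le (min_le_right _ _)) (not_lt.2 h1)
        · have := cos_le_one (2 * (φ - 0))
          linarith) q ⟨α, c, hc, fun φ => by
      rw [← h φ, lt_min_iff]
      exact ⟨fun h2 => h2.1, fun h2 => ⟨h2, hq1⟩⟩⟩
  rcases key with h1 | ⟨m, hm, hLm, β, hb1, hb2⟩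
  · left
    intro φ
    rcases min_le_iff.1 (h1 φ) with h2 | h2
    · exact h2
    · exact absurd h2 (not_le.2 hq1)
  · right
    refine ⟨m, hm, hLm, β, fun φ h2 => (hb1 φ h2).trans (min_le_left _ _), fun φ h2 => ?_⟩
    rcases min_le_iff.1 (hb2 φ h2) with h3 | h3
    · exact h3
    · exact absurd (h3.trans hm) (not_le.2 hq1)

theorem q_le (hN : S_N) {k : ℕ} (hk : 2 ≤ k) {q : ℝ}
    (e1 : ∀ t ∈ Ico (k * π) q, (-1) ^ k * e t < 0) : q ≤ k * π + 1 := by
  by_contra hcon
  push Not at hcon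
  have hpi := Real.pi_gt_d2
  have hk2 : (2 : ℝ) ≤ k := by exact_mod_cast hk
  have hkπ : 2 * π ≤ k * π := by nlinarith
  have h1 := e1 (k * π + 1) ⟨by linarith, hcon⟩
  have ht0 : (0 : ℝ) < 1 + k * π := by linarith
  have h2 := se_eq k 1 ht0
  rw [add_comm (k * π) 1, h2] at h1
  obtain ⟨⟨a1, a2⟩, ⟨b1, b2⟩⟩ := ab_bounds hN (show 2 * π ≤ 1 + k * π by linarith)
  have hc := Real.cos_one_le
  have hc0 := Real.cos_one_pos
  have hs : (1 : ℝ) - 1 ^ 3 / 6 < sin 1 := Real.sin_gt_sub_cube one_pos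
  have h3 : 0 < √(1 + k * π) := Real.sqrt_pos.2 ht0
  have h4 : 0 < (a (1 + k * π) * cos 1 + b (1 + k * π) * sin 1) / (2 * (1 + k * π)) := by
    apply div_pos _ (by positivity)
    nlinarith
  have h5 : 0 < -(b (1 + k * π) * cos 1 - a (1 + k * π) * sin 1) := by
    nlinarith
  have h6 := mul_pos h3 (add_pos h5 h4)
  linarith

theorem core2 (hA : S_A) (hA2 : S_A2) (hH : S_H) (hP : S_P) (hN : S_N) {Ω : Set ℂ}
    (ho : IsOpen Ω) (hcv : Convex ℝ Ω) (hb : Bornology.IsBounded Ω) (hne : Ω.Nonempty)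
    (hsym : ∀ x ∈ Ω, -x ∈ Ω)
    (harc : ∀ t : ℝ, 0 < t → ball (0 : ℂ) (6 / 7 * t) ⊆ Ω → ∃ (α s : ℝ), ∀ φ : ℝ,
      ((t : ℂ) * Complex.exp (φ * Complex.I) ∈ Ω ↔ s < |t * cos (φ - α)|))
    {lam : ℝ} (hlam : 0 < lam) {c : ℝ} {u : ℂ → ℝ} {G : ℂ → ℂ} (h : Sol Ω lam c u G)
    (hu0 : ¬ (u =ᵐ[volume.restrict Ω] 0)) : ∃ r : ℝ, 0 < r ∧ Ω = ball (0 : ℂ) r := by
  have hm := ho.measurableSet
  have hpi := Real.pi_pos
  obtain ⟨κ, hκ⟩ : ∃ κ, κ = √lam := ⟨_, rfl⟩
  have hk : 0 < κ := by rw [hκ]; exact Real.sqrt_pos.2 hlam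
  have hkk : κ ^ 2 = lam := by rw [hκ]; exact Real.sq_sqrt hlam.le
  have hc := h.c_ne hb hm hlam hu0
  have hft : ∀ ξ : ℂ, ‖ξ‖ = κ → ∫ x in Ω, Real.cos (inner ℝ ξ x) = 0 ∧
      ∫ x in Ω, Real.sin (inner ℝ ξ x) = 0 := fun ξ hξ =>
    Pool.Agent.W632.Schiffer.ft_zero hb hm hlam h.u2 h.h1 h.h2 hu0 ξ (by rw [hξ, hkk])
  by_cases hcase : ∃ e : ℂ, ‖e‖ = 1 ∧ ∃ w : ℝ, √lam * w < 4 * π ∧
        ∀ x ∈ Ω, ∀ y ∈ Ω, inner ℝ e (x - y) ≤ w
  · obtain ⟨e, he, w, hw1, hw2⟩ := hcase
    obtain ⟨p, r, hr, hball⟩ :=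
      Pool.Agent.TH298.GB.first_band ho hcv hb hne hlam he hw2 hw1 h hu0
    have hp : p = 0 := TH259.NA.centre_zero hr (by rw [← hball]; exact hsym)
    exact ⟨r, hr, by rw [hball, hp]⟩
  push Not at hcase
  rw [← hκ] at hcase
  obtain ⟨k, hk2, hin, hdiam⟩ := locate ho hcv hb hne hsym hk (fun ξ hξ => (hft ξ hξ).1)
    (fun ξ hξ => (hft ξ hξ).2) (fun e he w hw => by
      obtain ⟨x, hx, y, hy, hxy⟩ := hcase e he w hw
      exact ⟨x, hx, y, hy, hxy⟩)
  have hk2' : (2 : ℝ) ≤ k := by exact_mod_cast hk2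
  have ha0 : 0 < k * π / κ := by positivity
  have hR : ∀ x ∈ Ω, ‖x‖ ≤ Metric.diam Ω / 2 := by
    intro x hx
    have h2 := Metric.dist_le_diam_of_mem hb hx (hsym x hx)
    rw [dist_eq_norm, sub_neg_eq_add, ← two_mul, norm_mul] at h2
    simp only [Complex.norm_ofNat] at h2
    linarith
  obtain ⟨hT, hmem, hpol⟩ := hP Ω _ _ ho hcv ha0 hin hR
  obtain ⟨q, hq1, hq2, e1, e0, e2, j1, p2⟩ := co_c_of hN k hk2
  have hqle : q ≤ k * π + 1 := q_le hN hk2 e1
  obtain ⟨σ, hσ⟩ : ∃ σ : ℝ, σ = (-1) ^ k := ⟨_, rfl⟩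
  rw [← hσ] at e1 e2 j1 p2
  have hσ2 : σ * σ = 1 := by rw [hσ]; exact sg_sq k
  -- the bounds for the radial function
  have hrad1 : ∀ φ, k * π / κ ≤ rad Ω φ := by
    intro φ
    refine le_of_forall_lt fun t ht => ?_
    rcases le_or_gt t 0 with h0 | h0
    · have h1 : (k * π / κ) / 2 < rad Ω φ := by
        rw [← hmem φ _ (by positivity)]
        apply hin
        rw [mem_ball_zero_iff, norm_pt (by positivity)]
        linarith
      linarith
    · rw [← hmem φ t h0]
      apply hin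
      rw [mem_ball_zero_iff, norm_pt h0.le]
      exact ht
  have hrad2 : ∀ φ, rad Ω φ ≤ Metric.diam Ω / 2 := by
    intro φ
    refine le_of_forall_lt fun t ht => ?_
    by_contra hcon
    push Not at hcon
    obtain ⟨s, hs1, hs2⟩ := exists_between ht
    have hd0 : 0 ≤ Metric.diam Ω := Metric.diam_nonneg
    have hs0 : 0 < s := by linarith
    have h1 := hR _ ((hmem φ s hs0).2 hs2)
    rw [norm_pt hs0.le] at h1
    linarith
  have hTI : ∀ φ, κ * rad Ω φ ∈ Ico (k * π) ((k + 1) * π) := by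
    intro φ
    constructor
    · have h1 := mul_le_mul_of_nonneg_left (hrad1 φ) hk.le
      have h2 : κ * (k * π / κ) = k * π := by field_simp
      linarith
    · have h1 := mul_le_mul_of_nonneg_left (hrad2 φ) hk.le
      linarith
  -- the first moment
  have m0 : ∫ φ in Ioo (-π) π, e (κ * rad Ω φ) = 0 := by
    have h1 := int_J0 hb hm h hlam hc
    have h2 := hpol (fun x => B 0 (lam * ‖x‖ ^ 2 / 4))
      (Pool.Agent.TH298.AN.rad_c1 0 lam).continuous (fun _ t => e (κ * t) / lam) (fun φ t => by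
        have k1 : HasDerivAt (fun t : ℝ => κ * t) κ t := by
          simpa using (hasDerivAt_id t).const_mul κ
        have k2 := ((e_deriv (κ * t)).comp t k1).div_const lam
        refine k2.congr_deriv ?_
        rw [norm_mul, Complex.norm_exp_ofReal_mul_I, mul_one, Complex.norm_real, Real.norm_eq_abs,
          sq_abs]
        unfold j
        rw [mul_pow, hkk]
        rw [← hkk]
        field_simp) (fun φ => by simp [e_zero])
    rw [h1, integral_div] at h2
    have h3 := h2.symm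
    rw [div_eq_zero_iff] at h3
    exact h3.resolve_right hlam.ne'
  -- the second moments
  have hrot : ∀ α : ℝ, ∫ x in Ω, B 2 (lam * ‖x‖ ^ 2 / 4) *
      (cos (2 * α) * (x.re ^ 2 - x.im ^ 2) + 2 * sin (2 * α) * (x.re * x.im)) = 0 := by
    intro α
    have h1 := hA Ω lam c u G hb hm h hlam hc
    have h2 := hA2 Ω lam c u G hb hm h hlam hc
    have hint : ∀ g : ℂ → ℝ, Continuous g → IntegrableOn g Ω := by
      intro g hg
      exact (hg.continuousOn.integrableOn_compact hb.isCompact_closure).mono_set subset_closure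
    have cB : Continuous fun x : ℂ => B 2 (lam * ‖x‖ ^ 2 / 4) :=
      (Pool.Agent.TH298.AN.rad_c1 2 lam).continuous
    have h3 : ∀ x : ℂ, B 2 (lam * ‖x‖ ^ 2 / 4) *
      (cos (2 * α) * (x.re ^ 2 - x.im ^ 2) + 2 * sin (2 * α) * (x.re * x.im)) =
      cos (2 * α) * (B 2 (lam * ‖x‖ ^ 2 / 4) * (x.re ^ 2 - x.im ^ 2)) +
      2 * sin (2 * α) * (B 2 (lam * ‖x‖ ^ 2 / 4) * (x.re * x.im)) := by
      intro x; ring
    simp only [h3]
    rw [integral_add, integral_const_mul, integral_const_mul, h1, h2]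
    · ring
    · apply Integrable.const_mul
      exact hint _ (cB.mul ((Complex.continuous_re.pow 2).sub (Complex.continuous_im.pow 2)))
    · apply Integrable.const_mul
      exact hint _ (cB.mul (Complex.continuous_re.mul Complex.continuous_im))
  have m2 : ∀ α : ℝ, ∫ φ in Ioo (-π) π, (2 - P (κ * rad Ω φ)) * cos (2 * (φ - α)) = 0 := by
    intro α
    have h2 := hpol (fun x => B 2 (lam * ‖x‖ ^ 2 / 4) *
      (cos (2 * α) * (x.re ^ 2 - x.im ^ 2) + 2 * sin (2 * α) * (x.re * x.im)))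
      ((Pool.Agent.TH298.AN.rad_c1 2 lam).continuous.mul (by fun_prop))
      (fun φ t => 4 / lam ^ 2 * ((2 - P (κ * t)) * cos (2 * (φ - α)))) (fun φ t => by
        have k1 : HasDerivAt (fun t : ℝ => κ * t) κ t := by
          simpa using (hasDerivAt_id t).const_mul κ
        have k2 := ((((P_deriv (κ * t)).comp t k1).const_sub 2).mul_const
          (cos (2 * (φ - α)))).const_mul (4 / lam ^ 2)
        refine k2.congr_deriv ?_
        rw [norm_mul, Complex.norm_exp_ofReal_mul_I, mul_one, Complex.norm_real, Real.norm_eq_abs,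
          sq_abs]
        simp only [Complex.mul_re, Complex.mul_im, Complex.ofReal_re, Complex.ofReal_im,
          Complex.exp_ofReal_mul_I_re, Complex.exp_ofReal_mul_I_im]
        have k3 : cos (2 * (φ - α)) = cos (2 * α) * (cos φ ^ 2 - sin φ ^ 2) +
            2 * sin (2 * α) * (sin φ * cos φ) := by
          rw [mul_sub, cos_sub, cos_two_mul' φ, sin_two_mul φ]
          ring
        have k4 : (κ * t) ^ 2 / 4 = lam * t ^ 2 / 4 := by rw [mul_pow, hkk]
        rw [k3, k4, ← hkk]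
        field_simp
        ring) (fun φ => by simp [P_zero])
    rw [hrot α, integral_const_mul] at h2
    have h3 := h2.symm
    rw [mul_eq_zero] at h3
    refine h3.resolve_left ?_
    positivity
  have hTm : Measurable fun φ => κ * rad Ω φ := hT.const_mul κ
  have hbdd : ∀ g : ℝ → ℝ, Continuous g → ∀ α : ℝ,
      IntegrableOn (fun φ => g (κ * rad Ω φ) * cos (2 * (φ - α))) (Ioo (-π) π) := by
    intro g hg α
    obtain ⟨C, hC⟩ := isCompact_Icc.exists_bound_of_continuousOn
      (s := Icc (k * π) ((k + 1) * π)) hg.continuousOn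
    have hfin : volume (Ioo (-π) π) < ⊤ := by
      rw [Real.volume_Ioo]; exact ENNReal.ofReal_lt_top
    refine Measure.integrableOn_of_bounded (M := C) hfin.ne ?_ ?_
    · exact ((hg.measurable.comp hTm).mul (by fun_prop)).aestronglyMeasurable
    · refine Eventually.of_forall fun φ => ?_
      have h1 := hC _ ⟨(hTI φ).1, (hTI φ).2.le⟩
      rw [norm_mul]
      have h2 : ‖cos (2 * (φ - α))‖ ≤ 1 := by
        rw [Real.norm_eq_abs]; exact abs_cos_le_one _
      have h3 : 0 ≤ C := (norm_nonneg _).trans h1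
      calc _ ≤ C * 1 := mul_le_mul h1 h2 (norm_nonneg _) h3
        _ = C := mul_one _
  -- the monotonicity of `J_0` and `t J_1` on the band
  have hL : k * π < q := hq1
  have hLpos : 0 < k * π := by positivity
  have hjm1 : MonotoneOn (fun t => σ * j t) (Icc (k * π) q) := by
    apply monotoneOn_of_deriv_nonneg (convex_Icc _ _)
    · exact (continuous_const.mul j_cont).continuousOn
    · intro t ht
      exact ((j_deriv t).const_mul σ).differentiableAt.differentiableWithinAt
    · intro t ht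
      rw [interior_Icc] at ht
      have ht0 : 0 < t := hLpos.trans ht.1
      rw [((j_deriv' ht0.ne').const_mul σ).deriv]
      have h1 := e1 t ⟨ht.1.le, ht.2⟩
      have h2 : σ * -(e t / t) = -(σ * e t) / t := by ring
      rw [h2]
      apply div_nonneg _ ht0.le
      linarith
  have hjm2 : AntitoneOn (fun t => σ * j t) (Icc q ((k + 1) * π)) := by
    apply antitoneOn_of_deriv_nonpos (convex_Icc _ _)
    · exact (continuous_const.mul j_cont).continuousOn
    · intro t ht
      exact ((j_deriv t).const_mul σ).differentiableAt.differentiableWithinAt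
    · intro t ht
      rw [interior_Icc] at ht
      have ht0 : 0 < t := hLpos.trans (hL.trans ht.1)
      rw [((j_deriv' ht0.ne').const_mul σ).deriv]
      have h1 := e2 t ⟨ht.1, ht.2.le⟩
      have h2 : σ * -(e t / t) = -(σ * e t / t) := by ring
      rw [h2]
      have : 0 ≤ σ * e t / t := div_nonneg h1.le ht0.le
      linarith
  have hem : MonotoneOn (fun t => σ * e t) (Icc (k * π) q) := by
    apply monotoneOn_of_deriv_nonneg (convex_Icc _ _)
    · exact (continuous_const.mul e_cont).continuousOn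
    · intro t ht
      exact ((e_deriv t).const_mul σ).differentiableAt.differentiableWithinAt
    · intro t ht
      rw [interior_Icc] at ht
      have ht0 : 0 < t := hLpos.trans ht.1
      rw [((e_deriv t).const_mul σ).deriv]
      have h1 := j1 t ⟨ht.1.le, ht.2.le⟩
      have h2 : σ * (t * j t) = t * (σ * j t) := by ring
      rw [h2]
      exact (mul_pos ht0 h1).le
  have hqmem : q ∈ Icc (k * π) q := ⟨hL.le, le_rfl⟩
  have hcaps : ∀ t < 7 / 6 * (k * π), ∃ α c : ℝ, ∀ φ,
      t < κ * rad Ω φ ↔ c < cos (2 * (φ - α)) := by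
    intro t ht7
    rcases le_or_gt t 0 with h0 | h0
    · refine ⟨0, -2, fun φ => ⟨fun _ => ?_, fun _ => ?_⟩⟩
      · have := neg_one_le_cos (2 * (φ - 0))
        linarith
      · have := (hTI φ).1
        linarith
    · have htκ : 0 < t / κ := by positivity
      obtain ⟨α, s, hs⟩ := harc (t / κ) htκ (by
        refine (ball_subset_ball ?_).trans hin
        rw [← mul_div_assoc]
        apply div_le_div_of_nonneg_right _ hk.le
        linarith)
      have hiff : ∀ φ, t < κ * rad Ω φ ↔ s < |t / κ * cos (φ - α)| := by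
        intro φ
        rw [← hs φ, hmem φ _ htκ, div_lt_iff₀ hk, mul_comm]
      rcases lt_or_ge s 0 with hs0 | hs0
      · refine ⟨0, -2, fun φ => ⟨fun _ => ?_, fun _ => ?_⟩⟩
        · have := neg_one_le_cos (2 * (φ - 0))
          linarith
        · rw [hiff]
          exact hs0.trans_le (abs_nonneg _)
      · refine ⟨α, 2 * (s / (t / κ)) ^ 2 - 1, fun φ => ?_⟩
        rw [hiff, cos_two_mul]
        have h1 : s < |t / κ * cos (φ - α)| ↔ s ^ 2 < (t / κ * cos (φ - α)) ^ 2 := by
          rw [← sq_lt_sq₀ hs0 (abs_nonneg _), sq_abs]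
        rw [h1, mul_pow, div_pow s, ← div_lt_iff₀' (by positivity)]
        constructor <;> intro h2 <;> linarith
  have hqq : q < 7 / 6 * (k * π) := by
    have := Real.pi_gt_d2
    nlinarith
  have hconcl := B2.main (volume.restrict (Ioo (-π) π)) (fun α v => B2.zero α v) B2.int_cos
    (fun φ => κ * rad Ω φ) hTm (k * π) q ((k + 1) * π) hq1 hTI (hcaps q hqq)
    (hH_of hH hTI hq1 hqq hcaps)
    (fun t => σ * e t) (fun t => σ * (P t - P q)) (continuous_const.mul e_cont)
    (continuous_const.mul (P_cont.sub continuous_const)) e1 (by simp [e0]) ?_ ?_ (by simp) ?_ ?_ ?_ ?_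
  · -- the conclusion
    refine ⟨q / κ, by have := hLpos.trans hL; positivity, ?_⟩
    refine ball_of_rad hP ho hcv ha0 hin hR (by have := hLpos.trans hL; positivity) ?_
    filter_upwards [hconcl] with φ hφ
    rw [eq_div_iff hk.ne', mul_comm]
    exact hφ
  · -- monotone
    intro s hs t ht hst
    have h1 := hem hs ht hst
    have h2 := hjm1 hs ht hst
    simp only at h1 h2 ⊢
    unfold P
    linarith
  · intro t ht
    have h1 := e1 t ht
    have h2 := hjm1 ⟨ht.1, ht.2.le⟩ hqmem ht.2.le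
    simp only at h2 ⊢
    unfold P
    rw [e0]
    linarith
  · intro t ht
    have h1 := p2 t ht
    unfold P
    rw [e0]
    linarith
  · intro t ht
    have h3 : σ * j t ≤ σ * j q := by
      rcases le_total t q with h4 | h4
      · exact hjm1 ⟨ht.1, h4⟩ hqmem h4
      · exact hjm2 ⟨le_rfl, hq2.le⟩ ⟨h4, ht.2⟩ h4
    unfold P
    rw [e0]
    linarith
  · rw [integral_const_mul, m0, mul_zero]
  · intro α
    have h1 : ∀ φ, σ * (P (κ * rad Ω φ) - P q) * cos (2 * (φ - α)) =
        -σ * ((2 - P (κ * rad Ω φ)) * cos (2 * (φ - α))) +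
          (σ * (2 - P q)) * cos (2 * (φ - α)) := by
      intro φ; ring
    simp only [h1]
    rw [integral_add, integral_const_mul, integral_const_mul, m2 α, int_cos2 α]
    · ring
    · apply Integrable.const_mul
      exact hbdd (fun t => 2 - P t) (continuous_const.sub P_cont) α
    · apply Integrable.const_mul
      have h5 := hbdd (fun _ => 1) continuous_const α
      simp only [one_mul] at h5
      exact h5


end TH259.CO
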