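import Pool.Agent.TH259.CO.Main2

/-! Project CO: only the circles below the level of the largest inscribed square are required to
meet the set in antipodal arcs. -/

set_option autoImplicit false

open MeasureTheory Set Real Filter Topology Metric TH259.NS
open Pool.Agent.TH298.Sch (Sol)
open Pool.Agent.TH298.AN (ball_le ball_J1 int_J0)

namespace TH259.CO

namespace B3

theorem main3 (μ : Measure ℝ) [IsFiniteMeasure μ]
    (hμ : ∀ α v : ℝ, ∀ᵐ φ ∂μ, cos (2 * (φ - α)) ≠ v)
    (hc0 : ∀ α : ℝ, ∫ φ, cos (2 * (φ - α)) ∂μ = 0)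
    (T : ℝ → ℝ) (hT : Measurable T) (L q U : ℝ)
    (hTr : ∀ φ, T φ ∈ Ico L U)
    (hD : (∃ α c : ℝ, c ≤ 0 ∧ ∀ φ, q < T φ ↔ c < cos (2 * (φ - α))) ∨
      (∀ φ, T φ ≤ q) ∨ ∃ m ≤ q, L ≤ m ∧ ∃ α : ℝ, (∀ φ, 0 < cos (2 * (φ - α)) → m ≤ T φ) ∧
        (∀ φ, cos (2 * (φ - α)) < 0 → T φ ≤ m))
    (e p : ℝ → ℝ) (he : Continuous e) (hp : Continuous p)
    (e1 : ∀ t ∈ Ico L q, e t < 0) (e2 : e q = 0)
    (pm : MonotoneOn p (Icc L q)) (p1 : ∀ t ∈ Ico L q, p t < 0) (p2 : p q = 0)
    (p3 : ∀ t ∈ Ioc q U, 0 < p t) (hpe : ∀ t ∈ Icc L U, p t ≤ e t)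
    (hE : ∫ φ, e (T φ) ∂μ = 0)
    (hP : ∀ α : ℝ, ∫ φ, p (T φ) * cos (2 * (φ - α)) ∂μ = 0) :
    ∀ᵐ φ ∂μ, T φ = q := by
  have hbd : ∀ f : ℝ → ℝ, Continuous f → ∃ M, ∀ φ, ‖f (T φ)‖ ≤ M := by
    intro f hf
    obtain ⟨M, hM⟩ := isCompact_Icc.exists_bound_of_continuousOn (s := Icc L U) hf.continuousOn
    exact ⟨M, fun φ => hM _ ⟨(hTr φ).1, (hTr φ).2.le⟩⟩
  have hi1 : ∀ f : ℝ → ℝ, Continuous f → Integrable (fun φ => f (T φ)) μ := by
    intro f hf
    obtain ⟨M, hM⟩ := hbd f hf
    exact Integrable.of_bound (hf.measurable.comp hT).aestronglyMeasurable M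
      (Eventually.of_forall hM)
  have hcm : ∀ α : ℝ, Measurable fun φ : ℝ => cos (2 * (φ - α)) := fun α => by fun_prop
  have hi2 : ∀ (α : ℝ) (f : ℝ → ℝ), Continuous f →
      Integrable (fun φ => f (T φ) * cos (2 * (φ - α))) μ := by
    intro α f hf
    obtain ⟨M, hM⟩ := hbd f hf
    refine Integrable.of_bound ((hf.measurable.comp hT).mul (hcm α)).aestronglyMeasurable M
      (Eventually.of_forall fun φ => ?_)
    rw [norm_mul]
    have h1 : ‖cos (2 * (φ - α))‖ ≤ 1 := by
      rw [Real.norm_eq_abs]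
      exact Real.abs_cos_le_one _
    calc ‖f (T φ)‖ * ‖cos (2 * (φ - α))‖ ≤ ‖f (T φ)‖ * 1 :=
          mul_le_mul_of_nonneg_left h1 (norm_nonneg _)
      _ ≤ M := by rw [mul_one]; exact hM φ
  have hic : ∀ α : ℝ, Integrable (fun φ : ℝ => cos (2 * (φ - α))) μ := fun α =>
    Integrable.of_bound (hcm α).aestronglyMeasurable 1
      (Eventually.of_forall fun φ => by
        rw [Real.norm_eq_abs]
        exact Real.abs_cos_le_one _)
  have hpq : ∀ t ∈ Icc L q, p t ≤ 0 := by
    intro t ht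
    rcases ht.2.lt_or_eq with h | h
    · exact (p1 t ⟨ht.1, h⟩).le
    · rw [h, p2]
  -- the end of the argument
  have fin : (∀ᵐ φ ∂μ, T φ ≤ q) → ∀ᵐ φ ∂μ, T φ = q := by
    intro hTq
    have hEn : 0 ≤ᵐ[μ] fun φ => -e (T φ) := by
      filter_upwards [hTq] with φ h1
      simp only [Pi.zero_apply]
      rw [neg_nonneg]
      rcases h1.lt_or_eq with h | h
      · exact (e1 _ ⟨(hTr _).1, h⟩).le
      · rw [h, e2]
    have hEae := (integral_eq_zero_iff_of_nonneg_ae hEn (hi1 e he).neg).1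
      (by rw [integral_neg, hE, neg_zero])
    filter_upwards [hTq, hEae] with φ h1 h2
    rcases h1.lt_or_eq with h | h
    · have h3 := e1 _ ⟨(hTr φ).1, h⟩
      have h5 : -e (T φ) = 0 := h2
      linarith
    · exact h
  rcases hD with ⟨α, c, hc, hαc⟩ | hH
  · have hG : ∀ φ, 0 ≤ p (T φ) * (cos (2 * (φ - α)) - c) := by
      intro φ
      rcases lt_trichotomy (T φ) q with h | h | h
      · refine mul_nonneg_of_nonpos_of_nonpos (p1 _ ⟨(hTr _).1, h⟩).le ?_
        rw [sub_nonpos]
        by_contra hcc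
        push Not at hcc
        exact absurd ((hαc φ).2 hcc) (not_lt.2 h.le)
      · rw [h, p2, zero_mul]
      · refine mul_nonneg (p3 _ ⟨h, (hTr _).2.le⟩).le ?_
        rw [sub_nonneg]
        exact ((hαc φ).1 h).le
    have hGi : Integrable (fun φ => p (T φ) * (cos (2 * (φ - α)) - c)) μ := by
      have := (hi2 α p hp).sub ((hi1 p hp).const_mul c)
      refine this.congr (Eventually.of_forall fun φ => ?_)
      simp only [Pi.sub_apply]
      ring
    have hG0 : ∫ φ, p (T φ) * (cos (2 * (φ - α)) - c) ∂μ = 0 := by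
      refine le_antisymm ?_ (integral_nonneg hG)
      have h1 : (fun φ => p (T φ) * (cos (2 * (φ - α)) - c)) =
          fun φ => p (T φ) * cos (2 * (φ - α)) - c * p (T φ) := by
        funext φ
        ring
      rw [h1, integral_sub (hi2 α p hp) ((hi1 p hp).const_mul _), integral_const_mul, hP]
      have h2 : ∫ φ, p (T φ) ∂μ ≤ 0 := by
        rw [← hE]
        exact integral_mono (hi1 p hp) (hi1 e he) fun φ => hpe _ ⟨(hTr φ).1, (hTr φ).2.le⟩
      have h3 : 0 ≤ c * ∫ φ, p (T φ) ∂μ := mul_nonneg_of_nonpos_of_nonpos hc h2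
      linarith
    have hGae := (integral_eq_zero_iff_of_nonneg hG hGi).1 hG0
    filter_upwards [hGae, hμ α c] with φ h1 h2
    have h3 : p (T φ) = 0 := by
      have h5 : p (T φ) * (cos (2 * (φ - α)) - c) = 0 := h1
      rcases mul_eq_zero.1 h5 with h | h
      · exact h
      · exact absurd (sub_eq_zero.1 h) h2
    rcases lt_trichotomy (T φ) q with h | h | h
    · have := p1 _ ⟨(hTr φ).1, h⟩
      linarith
    · exact h
    · have := p3 _ ⟨h, (hTr φ).2.le⟩
      linarith
  · rcases hH with h | ⟨m, hmq, hLm, β, hb1, hb2⟩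
    · exact fin (Eventually.of_forall h)
    · have hm0 : m ∈ Icc L q := ⟨hLm, hmq⟩
      have hF : ∀ φ, 0 ≤ (p (T φ) - p m) * cos (2 * (φ - β)) := by
        intro φ
        rcases lt_trichotomy (cos (2 * (φ - β))) 0 with h | h | h
        · refine mul_nonneg_of_nonpos_of_nonpos ?_ h.le
          have h1 := hb2 φ h
          rw [sub_nonpos]
          exact pm ⟨(hTr _).1, h1.trans hmq⟩ hm0 h1
        · rw [h, mul_zero]
        · refine mul_nonneg ?_ h.le
          have h1 := hb1 φ h
          rw [sub_nonneg]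
          by_cases h2 : T φ ≤ q
          · exact pm hm0 ⟨(hTr _).1, h2⟩ h1
          · push Not at h2
            exact (hpq _ hm0).trans (p3 _ ⟨h2, (hTr _).2.le⟩).le
      have hFi : Integrable (fun φ => (p (T φ) - p m) * cos (2 * (φ - β))) μ := by
        have := (hi2 β p hp).sub ((hic β).const_mul (p m))
        refine this.congr (Eventually.of_forall fun φ => ?_)
        simp only [Pi.sub_apply]
        ring
      have hF0 : ∫ φ, (p (T φ) - p m) * cos (2 * (φ - β)) ∂μ = 0 := by
        have h1 : (fun φ => (p (T φ) - p m) * cos (2 * (φ - β))) =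
            fun φ => p (T φ) * cos (2 * (φ - β)) - p m * cos (2 * (φ - β)) := by
          funext φ
          ring
        rw [h1, integral_sub (hi2 β p hp) ((hic β).const_mul _), integral_const_mul, hP, hc0]
        ring
      have hFae := (integral_eq_zero_iff_of_nonneg hF hFi).1 hF0
      refine fin ?_
      filter_upwards [hFae, hμ β 0] with φ h1 h2
      have h3 : p (T φ) = p m := by
        have h5 : (p (T φ) - p m) * cos (2 * (φ - β)) = 0 := h1
        rcases mul_eq_zero.1 h5 with h | h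
        · linarith
        · exact absurd h h2
      by_contra h5
      push Not at h5
      have h6 := p3 _ ⟨h5, (hTr _).2.le⟩
      rw [h3] at h6
      exact absurd (hpq _ hm0) (not_le.2 h6)

end B3

/-- half circles from nested caps below the level `m0` -/
theorem half_of (hH : S_H) {T : ℝ → ℝ} {L U m0 : ℝ} (hTr : ∀ φ, T φ ∈ Ico L U)
    (hcap : ∀ t ≤ m0, ∃ α c : ℝ, ∀ φ, t < T φ ↔ c < cos (2 * (φ - α)))
    (h0 : ∃ α c : ℝ, 0 ≤ c ∧ ∀ φ, m0 < T φ ↔ c < cos (2 * (φ - α))) :
    (∀ φ, T φ ≤ m0) ∨ ∃ m ≤ m0, L ≤ m ∧ ∃ α : ℝ, (∀ φ, 0 < cos (2 * (φ - α)) → m ≤ T φ) ∧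
        (∀ φ, cos (2 * (φ - α)) < 0 → T φ ≤ m) := by
  obtain ⟨α, c, hc, h⟩ := h0
  have hLm0 : L ≤ m0 := by
    by_contra hcon
    push Not at hcon
    have h1 := (h (α + π / 2)).1 (hcon.trans_le (hTr _).1)
    have h2 : 2 * (α + π / 2 - α) = π := by ring
    rw [h2, cos_pi] at h1
    linarith
  rcases eq_or_lt_of_le hc with hc0 | hc0
  · right
    refine ⟨m0, le_rfl, hLm0, α, fun φ h1 => ?_, fun φ h1 => ?_⟩
    · exact ((h φ).2 (by rw [← hc0]; exact h1)).le
    · by_contra h2
      push Not at h2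
      have h3 := (h φ).1 h2
      linarith
  · classical
    have key := hH (fun φ => if T φ ≤ m0 then T φ else m0 + 1) L (max U (m0 + 2))
      (fun φ => by
        split_ifs with h1
        · exact ⟨(hTr φ).1, (hTr φ).2.trans_le (le_max_left _ _)⟩
        · exact ⟨by linarith, (by linarith : m0 + 1 < m0 + 2).trans_le (le_max_right _ _)⟩)
      (fun t => by
        rcases lt_or_ge t m0 with h1 | h1
        · obtain ⟨β, d, hd⟩ := hcap t h1.le
          refine ⟨β, d, fun φ => ?_⟩
          rw [← hd φ]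
          split_ifs with h2
          · rfl
          · push Not at h2
            exact ⟨fun _ => h1.trans h2, fun _ => by linarith⟩
        · rcases lt_or_ge t (m0 + 1) with h3 | h3
          · refine ⟨α, c, fun φ => ?_⟩
            rw [← h φ]
            split_ifs with h2
            · exact ⟨fun h4 => absurd (h4.trans_le h2) (not_lt.2 h1),
                fun h4 => absurd h4 (not_lt.2 h2)⟩
            · push Not at h2
              exact ⟨fun _ => h2, fun _ => h3⟩
          · refine ⟨0, 2, fun φ => ⟨fun h2 => ?_, fun h2 => ?_⟩⟩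
            · exfalso
              split_ifs at h2 with h4
              · linarith
              · linarith
            · have := cos_le_one (2 * (φ - 0))
              linarith) m0 ⟨α, c, hc0, fun φ => by
        rw [← h φ]
        split_ifs with h2
        · rfl
        · push Not at h2
          exact ⟨fun _ => h2, fun _ => by linarith⟩⟩
    rcases key with h1 | ⟨m, hm, hLm, β, hb1, hb2⟩
    · left
      intro φ
      have h2 := h1 φ
      split_ifs at h2 with h3
      · exact h3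
      · linarith
    · right
      refine ⟨m, hm, hLm, β, fun φ h2 => ?_, fun φ h2 => ?_⟩
      · have h3 := hb1 φ h2
        split_ifs at h3 with h4
        · exact h3
        · push Not at h4
          exact hm.trans h4.le
      · have h3 := hb2 φ h2
        split_ifs at h3 with h4
        · exact h3
        · linarith

/-- the alternative used in the angular argument -/
theorem alt_of (hH : S_H) {T : ℝ → ℝ} {L U q q1 : ℝ} (hTr : ∀ φ, T φ ∈ Ico L U) (hq1 : q < q1)
    (hcap : ∀ t < q1, (∀ t' < t, ∃ φ, t' < T φ ∧ t' < T (φ + π / 2)) →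
      ∃ α c : ℝ, ∀ φ, t < T φ ↔ c < cos (2 * (φ - α))) :
    (∃ α c : ℝ, c ≤ 0 ∧ ∀ φ, q < T φ ↔ c < cos (2 * (φ - α))) ∨
      (∀ φ, T φ ≤ q) ∨ ∃ m ≤ q, L ≤ m ∧ ∃ α : ℝ, (∀ φ, 0 < cos (2 * (φ - α)) → m ≤ T φ) ∧
        (∀ φ, cos (2 * (φ - α)) < 0 → T φ ≤ m) := by
  by_cases hA : ∀ t' < q, ∃ φ, t' < T φ ∧ t' < T (φ + π / 2)
  · obtain ⟨α, c, h⟩ := hcap q hq1 hA
    rcases le_or_gt c 0 with hc | hc
    · exact Or.inl ⟨α, c, hc, h⟩
    · right
      exact half_of hH hTr (fun t ht => hcap t (ht.trans_lt hq1) fun t' ht' => hA t'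
        (ht'.trans_le ht)) ⟨α, c, hc.le, h⟩
  · push Not at hA
    obtain ⟨t1, ht1, hnot⟩ := hA
    -- the levels without a square
    obtain ⟨S, hS⟩ : ∃ S : Set ℝ, S = {t | ∀ φ, t < T φ → T (φ + π / 2) ≤ t} := ⟨_, rfl⟩
    have hne : S.Nonempty := ⟨t1, by rw [hS]; exact hnot⟩
    have hbd : BddBelow S := by
      refine ⟨L, fun t ht => ?_⟩
      rw [hS] at ht
      by_contra hcon
      push Not at hcon
      have h1 := ht 0 (hcon.trans_le (hTr 0).1)
      have h2 := (hTr (0 + π / 2)).1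
      linarith
    obtain ⟨m0, hm0⟩ : ∃ m0, m0 = sInf S := ⟨_, rfl⟩
    have hm0q : m0 < q := by
      rw [hm0]
      exact (csInf_le hbd (by rw [hS]; exact hnot)).trans_lt ht1
    have hlow : ∀ t' < m0, ∃ φ, t' < T φ ∧ t' < T (φ + π / 2) := by
      intro t' ht'
      by_contra hcon
      push Not at hcon
      have : t' ∈ S := by rw [hS]; exact hcon
      have := csInf_le hbd this
      rw [← hm0] at this
      linarith
    have hcap' : ∀ t ≤ m0, ∃ α c : ℝ, ∀ φ, t < T φ ↔ c < cos (2 * (φ - α)) := fun t ht =>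
      hcap t (by linarith) fun t' ht' => hlow t' (ht'.trans_le ht)
    obtain ⟨α, c, h⟩ := hcap' m0 le_rfl
    have hc : 0 ≤ c := by
      by_contra hcon
      push Not at hcon
      have e1 : cos (2 * (α - π / 4 - α)) = 0 := by
        have : 2 * (α - π / 4 - α) = -(π / 2) := by ring
        rw [this, cos_neg, cos_pi_div_two]
      have e2 : cos (2 * (α - π / 4 + π / 2 - α)) = 0 := by
        have : 2 * (α - π / 4 + π / 2 - α) = π / 2 := by ring
        rw [this, cos_pi_div_two]
      have h1 := (h (α - π / 4)).2 (by rw [e1]; exact hcon)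
      have h2 := (h (α - π / 4 + π / 2)).2 (by rw [e2]; exact hcon)
      obtain ⟨s, hs1, hs2⟩ := exists_between (lt_min h1 h2)
      have h3 : s ≤ m0 := by
        rw [hm0]
        refine le_csInf hne fun t ht => ?_
        rw [hS] at ht
        by_contra hcon2
        push Not at hcon2
        have h4 := ht (α - π / 4) (by
          have := hs2.trans_le (min_le_left _ _)
          linarith)
        have h5 := hs2.trans_le (min_le_right _ _)
        linarith
      linarith
    right
    rcases half_of hH hTr hcap' ⟨α, c, hc, h⟩ with h1 | ⟨m, hm, hLm, β, hb1, hb2⟩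
    · exact Or.inl fun φ => (h1 φ).trans hm0q.le
    · exact Or.inr ⟨m, hm.trans hm0q.le, hLm, β, hb1, hb2⟩

theorem core3 (hA : S_A) (hA2 : S_A2) (hH : S_H) (hP : S_P) (hN : S_N) {Ω : Set ℂ}
    (ho : IsOpen Ω) (hcv : Convex ℝ Ω) (hb : Bornology.IsBounded Ω) (hne : Ω.Nonempty)
    (hsym : ∀ x ∈ Ω, -x ∈ Ω)
    (harc : ∀ t : ℝ, 0 < t → ball (0 : ℂ) (6 / 7 * t) ⊆ Ω →
      (∀ t' : ℝ, 0 < t' → t' < t → ∃ φ : ℝ, (t' : ℂ) * Complex.exp (φ * Complex.I) ∈ Ω ∧
        (t' : ℂ) * Complex.exp ((φ + π / 2 : ℝ) * Complex.I) ∈ Ω) → ∃ (α s : ℝ), ∀ φ : ℝ,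
      ((t : ℂ) * Complex.exp (φ * Complex.I) ∈ Ω ↔ s < |t * cos (φ - α)|))
    {lam : ℝ} (hlam : 0 < lam) {c : ℝ} {u : ℂ → ℝ} {G : ℂ → ℂ} (h : Sol Ω lam c u G)
    (hu0 : ¬ (u =ᵐ[volume.restrict Ω] 0)) : ∃ r : ℝ, 0 < r ∧ Ω = ball (0 : ℂ) r := by
  have hm := ho.measurableSet
  have hpi := Real.pi_pos
  obtain ⟨κ, hκ⟩ : ∃ κ, κ = √lam := ⟨_, rfl⟩
  have hk : 0 < κ := by rw [hκ]; exact Real.sqrt_pos.2 hlam
  have hkk : κ ^ 2 = lam := by rw [hκ]; exact Real.sq_sqrt hlam.le
  have hc := h.c_ne hb hm hlam hu0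
  have hft : ∀ ξ : ℂ, ‖ξ‖ = κ → ∫ x in Ω, Real.cos (inner ℝ ξ x) = 0 ∧
      ∫ x in Ω, Real.sin (inner ℝ ξ x) = 0 := fun ξ hξ =>
    Pool.Agent.W632.Schiffer.ft_zero hb hm hlam h.u2 h.h1 h.h2 hu0 ξ (by rw [hξ, hkk])
  by_cases hcase : ∃ e : ℂ, ‖e‖ = 1 ∧ ∃ w : ℝ, √lam * w < 4 * π ∧
        ∀ x ∈ Ω, ∀ y ∈ Ω, inner ℝ e (x - y) ≤ w
  · obtain ⟨e, he, w, hw1, hw2⟩ := hcase
    obtain ⟨p, r, hr, hball⟩ :=
      Pool.Agent.TH298.GB.first_band ho hcv hb hne hlam he hw2 hw1 h hu0
    have hp : p = 0 := TH259.NA.centre_zero hr (by rw [← hball]; exact hsym)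
    exact ⟨r, hr, by rw [hball, hp]⟩
  push Not at hcase
  rw [← hκ] at hcase
  obtain ⟨k, hk2, hin, hdiam⟩ := locate ho hcv hb hne hsym hk (fun ξ hξ => (hft ξ hξ).1)
    (fun ξ hξ => (hft ξ hξ).2) (fun e he w hw => by
      obtain ⟨x, hx, y, hy, hxy⟩ := hcase e he w hw
      exact ⟨x, hx, y, hy, hxy⟩)
  have hk2' : (2 : ℝ) ≤ k := by exact_mod_cast hk2
  have ha0 : 0 < k * π / κ := by positivity
  have hR : ∀ x ∈ Ω, ‖x‖ ≤ Metric.diam Ω / 2 := by
    intro x hx
    have h2 := Metric.dist_le_diam_of_mem hb hx (hsym x hx)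
    rw [dist_eq_norm, sub_neg_eq_add, ← two_mul, norm_mul] at h2
    simp only [Complex.norm_ofNat] at h2
    linarith
  obtain ⟨hT, hmem, hpol⟩ := hP Ω _ _ ho hcv ha0 hin hR
  obtain ⟨q, hq1, hq2, e1, e0, e2, j1, p2⟩ := co_c_of hN k hk2
  have hqle : q ≤ k * π + 1 := q_le hN hk2 e1
  obtain ⟨σ, hσ⟩ : ∃ σ : ℝ, σ = (-1) ^ k := ⟨_, rfl⟩
  rw [← hσ] at e1 e2 j1 p2
  have hσ2 : σ * σ = 1 := by rw [hσ]; exact sg_sq k
  -- the bounds for the radial function
  have hrad1 : ∀ φ, k * π / κ ≤ rad Ω φ := by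
    intro φ
    refine le_of_forall_lt fun t ht => ?_
    rcases le_or_gt t 0 with h0 | h0
    · have h1 : (k * π / κ) / 2 < rad Ω φ := by
        rw [← hmem φ _ (by positivity)]
        apply hin
        rw [mem_ball_zero_iff, norm_pt (by positivity)]
        linarith
      linarith
    · rw [← hmem φ t h0]
      apply hin
      rw [mem_ball_zero_iff, norm_pt h0.le]
      exact ht
  have hrad2 : ∀ φ, rad Ω φ ≤ Metric.diam Ω / 2 := by
    intro φ
    refine le_of_forall_lt fun t ht => ?_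
    by_contra hcon
    push Not at hcon
    obtain ⟨s, hs1, hs2⟩ := exists_between ht
    have hd0 : 0 ≤ Metric.diam Ω := Metric.diam_nonneg
    have hs0 : 0 < s := by linarith
    have h1 := hR _ ((hmem φ s hs0).2 hs2)
    rw [norm_pt hs0.le] at h1
    linarith
  have hTI : ∀ φ, κ * rad Ω φ ∈ Ico (k * π) ((k + 1) * π) := by
    intro φ
    constructor
    · have h1 := mul_le_mul_of_nonneg_left (hrad1 φ) hk.le
      have h2 : κ * (k * π / κ) = k * π := by field_simp
      linarith
    · have h1 := mul_le_mul_of_nonneg_left (hrad2 φ) hk.le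
      linarith
  -- the first moment
  have m0 : ∫ φ in Ioo (-π) π, e (κ * rad Ω φ) = 0 := by
    have h1 := int_J0 hb hm h hlam hc
    have h2 := hpol (fun x => B 0 (lam * ‖x‖ ^ 2 / 4))
      (Pool.Agent.TH298.AN.rad_c1 0 lam).continuous (fun _ t => e (κ * t) / lam) (fun φ t => by
        have k1 : HasDerivAt (fun t : ℝ => κ * t) κ t := by
          simpa using (hasDerivAt_id t).const_mul κ
        have k2 := ((e_deriv (κ * t)).comp t k1).div_const lam
        refine k2.congr_deriv ?_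
        rw [norm_mul, Complex.norm_exp_ofReal_mul_I, mul_one, Complex.norm_real, Real.norm_eq_abs,
          sq_abs]
        unfold j
        rw [mul_pow, hkk]
        rw [← hkk]
        field_simp) (fun φ => by simp [e_zero])
    rw [h1, integral_div] at h2
    have h3 := h2.symm
    rw [div_eq_zero_iff] at h3
    exact h3.resolve_right hlam.ne'
  -- the second moments
  have hrot : ∀ α : ℝ, ∫ x in Ω, B 2 (lam * ‖x‖ ^ 2 / 4) *
      (cos (2 * α) * (x.re ^ 2 - x.im ^ 2) + 2 * sin (2 * α) * (x.re * x.im)) = 0 := by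
    intro α
    have h1 := hA Ω lam c u G hb hm h hlam hc
    have h2 := hA2 Ω lam c u G hb hm h hlam hc
    have hint : ∀ g : ℂ → ℝ, Continuous g → IntegrableOn g Ω := by
      intro g hg
      exact (hg.continuousOn.integrableOn_compact hb.isCompact_closure).mono_set subset_closure
    have cB : Continuous fun x : ℂ => B 2 (lam * ‖x‖ ^ 2 / 4) :=
      (Pool.Agent.TH298.AN.rad_c1 2 lam).continuous
    have h3 : ∀ x : ℂ, B 2 (lam * ‖x‖ ^ 2 / 4) *
      (cos (2 * α) * (x.re ^ 2 - x.im ^ 2) + 2 * sin (2 * α) * (x.re * x.im)) =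
      cos (2 * α) * (B 2 (lam * ‖x‖ ^ 2 / 4) * (x.re ^ 2 - x.im ^ 2)) +
      2 * sin (2 * α) * (B 2 (lam * ‖x‖ ^ 2 / 4) * (x.re * x.im)) := by
      intro x; ring
    simp only [h3]
    rw [integral_add, integral_const_mul, integral_const_mul, h1, h2]
    · ring
    · apply Integrable.const_mul
      exact hint _ (cB.mul ((Complex.continuous_re.pow 2).sub (Complex.continuous_im.pow 2)))
    · apply Integrable.const_mul
      exact hint _ (cB.mul (Complex.continuous_re.mul Complex.continuous_im))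
  have m2 : ∀ α : ℝ, ∫ φ in Ioo (-π) π, (2 - P (κ * rad Ω φ)) * cos (2 * (φ - α)) = 0 := by
    intro α
    have h2 := hpol (fun x => B 2 (lam * ‖x‖ ^ 2 / 4) *
      (cos (2 * α) * (x.re ^ 2 - x.im ^ 2) + 2 * sin (2 * α) * (x.re * x.im)))
      ((Pool.Agent.TH298.AN.rad_c1 2 lam).continuous.mul (by fun_prop))
      (fun φ t => 4 / lam ^ 2 * ((2 - P (κ * t)) * cos (2 * (φ - α)))) (fun φ t => by
        have k1 : HasDerivAt (fun t : ℝ => κ * t) κ t := by
          simpa using (hasDerivAt_id t).const_mul κ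
        have k2 := ((((P_deriv (κ * t)).comp t k1).const_sub 2).mul_const
          (cos (2 * (φ - α)))).const_mul (4 / lam ^ 2)
        refine k2.congr_deriv ?_
        rw [norm_mul, Complex.norm_exp_ofReal_mul_I, mul_one, Complex.norm_real, Real.norm_eq_abs,
          sq_abs]
        simp only [Complex.mul_re, Complex.mul_im, Complex.ofReal_re, Complex.ofReal_im,
          Complex.exp_ofReal_mul_I_re, Complex.exp_ofReal_mul_I_im]
        have k3 : cos (2 * (φ - α)) = cos (2 * α) * (cos φ ^ 2 - sin φ ^ 2) +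
            2 * sin (2 * α) * (sin φ * cos φ) := by
          rw [mul_sub, cos_sub, cos_two_mul' φ, sin_two_mul φ]
          ring
        have k4 : (κ * t) ^ 2 / 4 = lam * t ^ 2 / 4 := by rw [mul_pow, hkk]
        rw [k3, k4, ← hkk]
        field_simp
        ring) (fun φ => by simp [P_zero])
    rw [hrot α, integral_const_mul] at h2
    have h3 := h2.symm
    rw [mul_eq_zero] at h3
    refine h3.resolve_left ?_
    positivity
  have hTm : Measurable fun φ => κ * rad Ω φ := hT.const_mul κ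
  have hbdd : ∀ g : ℝ → ℝ, Continuous g → ∀ α : ℝ,
      IntegrableOn (fun φ => g (κ * rad Ω φ) * cos (2 * (φ - α))) (Ioo (-π) π) := by
    intro g hg α
    obtain ⟨C, hC⟩ := isCompact_Icc.exists_bound_of_continuousOn
      (s := Icc (k * π) ((k + 1) * π)) hg.continuousOn
    have hfin : volume (Ioo (-π) π) < ⊤ := by
      rw [Real.volume_Ioo]; exact ENNReal.ofReal_lt_top
    refine Measure.integrableOn_of_bounded (M := C) hfin.ne ?_ ?_
    · exact ((hg.measurable.comp hTm).mul (by fun_prop)).aestronglyMeasurable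
    · refine Eventually.of_forall fun φ => ?_
      have h1 := hC _ ⟨(hTI φ).1, (hTI φ).2.le⟩
      rw [norm_mul]
      have h2 : ‖cos (2 * (φ - α))‖ ≤ 1 := by
        rw [Real.norm_eq_abs]; exact abs_cos_le_one _
      have h3 : 0 ≤ C := (norm_nonneg _).trans h1
      calc _ ≤ C * 1 := mul_le_mul h1 h2 (norm_nonneg _) h3
        _ = C := mul_one _
  -- the monotonicity of `J_0` and `t J_1` on the band
  have hL : k * π < q := hq1
  have hLpos : 0 < k * π := by positivity
  have hjm1 : MonotoneOn (fun t => σ * j t) (Icc (k * π) q) := by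
    apply monotoneOn_of_deriv_nonneg (convex_Icc _ _)
    · exact (continuous_const.mul j_cont).continuousOn
    · intro t ht
      exact ((j_deriv t).const_mul σ).differentiableAt.differentiableWithinAt
    · intro t ht
      rw [interior_Icc] at ht
      have ht0 : 0 < t := hLpos.trans ht.1
      rw [((j_deriv' ht0.ne').const_mul σ).deriv]
      have h1 := e1 t ⟨ht.1.le, ht.2⟩
      have h2 : σ * -(e t / t) = -(σ * e t) / t := by ring
      rw [h2]
      apply div_nonneg _ ht0.le
      linarith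
  have hjm2 : AntitoneOn (fun t => σ * j t) (Icc q ((k + 1) * π)) := by
    apply antitoneOn_of_deriv_nonpos (convex_Icc _ _)
    · exact (continuous_const.mul j_cont).continuousOn
    · intro t ht
      exact ((j_deriv t).const_mul σ).differentiableAt.differentiableWithinAt
    · intro t ht
      rw [interior_Icc] at ht
      have ht0 : 0 < t := hLpos.trans (hL.trans ht.1)
      rw [((j_deriv' ht0.ne').const_mul σ).deriv]
      have h1 := e2 t ⟨ht.1, ht.2.le⟩
      have h2 : σ * -(e t / t) = -(σ * e t / t) := by ring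
      rw [h2]
      have : 0 ≤ σ * e t / t := div_nonneg h1.le ht0.le
      linarith
  have hem : MonotoneOn (fun t => σ * e t) (Icc (k * π) q) := by
    apply monotoneOn_of_deriv_nonneg (convex_Icc _ _)
    · exact (continuous_const.mul e_cont).continuousOn
    · intro t ht
      exact ((e_deriv t).const_mul σ).differentiableAt.differentiableWithinAt
    · intro t ht
      rw [interior_Icc] at ht
      have ht0 : 0 < t := hLpos.trans ht.1
      rw [((e_deriv t).const_mul σ).deriv]
      have h1 := j1 t ⟨ht.1.le, ht.2.le⟩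
      have h2 : σ * (t * j t) = t * (σ * j t) := by ring
      rw [h2]
      exact (mul_pos ht0 h1).le
  have hqmem : q ∈ Icc (k * π) q := ⟨hL.le, le_rfl⟩
  have hcaps : ∀ t < 7 / 6 * (k * π),
      (∀ t' < t, ∃ φ, t' < κ * rad Ω φ ∧ t' < κ * rad Ω (φ + π / 2)) → ∃ α c : ℝ, ∀ φ,
      t < κ * rad Ω φ ↔ c < cos (2 * (φ - α)) := by
    intro t ht7 hsq
    rcases le_or_gt t 0 with h0 | h0
    · refine ⟨0, -2, fun φ => ⟨fun _ => ?_, fun _ => ?_⟩⟩
      · have := neg_one_le_cos (2 * (φ - 0))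
        linarith
      · have := (hTI φ).1
        linarith
    · have htκ : 0 < t / κ := by positivity
      obtain ⟨α, s, hs⟩ := harc (t / κ) htκ (by
        refine (ball_subset_ball ?_).trans hin
        rw [← mul_div_assoc]
        apply div_le_div_of_nonneg_right _ hk.le
        linarith) (fun t' ht'0 ht' => by
        obtain ⟨φ, h1, h2⟩ := hsq (κ * t') (by
          rw [lt_div_iff₀ hk] at ht'
          linarith)
        have h3 : t' < rad Ω φ := lt_of_mul_lt_mul_left h1 hk.le
        have h4 : t' < rad Ω (φ + π / 2) := lt_of_mul_lt_mul_left h2 hk.le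
        exact ⟨φ, (hmem φ t' ht'0).2 h3, (hmem (φ + π / 2) t' ht'0).2 h4⟩)
      have hiff : ∀ φ, t < κ * rad Ω φ ↔ s < |t / κ * cos (φ - α)| := by
        intro φ
        rw [← hs φ, hmem φ _ htκ, div_lt_iff₀ hk, mul_comm]
      rcases lt_or_ge s 0 with hs0 | hs0
      · refine ⟨0, -2, fun φ => ⟨fun _ => ?_, fun _ => ?_⟩⟩
        · have := neg_one_le_cos (2 * (φ - 0))
          linarith
        · rw [hiff]
          exact hs0.trans_le (abs_nonneg _)
      · refine ⟨α, 2 * (s / (t / κ)) ^ 2 - 1, fun φ => ?_⟩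
        rw [hiff, cos_two_mul]
        have h1 : s < |t / κ * cos (φ - α)| ↔ s ^ 2 < (t / κ * cos (φ - α)) ^ 2 := by
          rw [← sq_lt_sq₀ hs0 (abs_nonneg _), sq_abs]
        rw [h1, mul_pow, div_pow s, ← div_lt_iff₀' (by positivity)]
        constructor <;> intro h2 <;> linarith
  have hqq : q < 7 / 6 * (k * π) := by
    have := Real.pi_gt_d2
    nlinarith
  have hconcl := B3.main3 (volume.restrict (Ioo (-π) π)) (fun α v => B2.zero α v) B2.int_cos
    (fun φ => κ * rad Ω φ) hTm (k * π) q ((k + 1) * π) hTI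
    (alt_of hH hTI hqq hcaps)
    (fun t => σ * e t) (fun t => σ * (P t - P q)) (continuous_const.mul e_cont)
    (continuous_const.mul (P_cont.sub continuous_const)) e1 (by simp [e0]) ?_ ?_ (by simp) ?_ ?_ ?_ ?_
  · -- the conclusion
    refine ⟨q / κ, by have := hLpos.trans hL; positivity, ?_⟩
    refine ball_of_rad hP ho hcv ha0 hin hR (by have := hLpos.trans hL; positivity) ?_
    filter_upwards [hconcl] with φ hφ
    rw [eq_div_iff hk.ne', mul_comm]
    exact hφ
  · -- monotone
    intro s hs t ht hst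
    have h1 := hem hs ht hst
    have h2 := hjm1 hs ht hst
    simp only at h1 h2 ⊢
    unfold P
    linarith
  · intro t ht
    have h1 := e1 t ht
    have h2 := hjm1 ⟨ht.1, ht.2.le⟩ hqmem ht.2.le
    simp only at h2 ⊢
    unfold P
    rw [e0]
    linarith
  · intro t ht
    have h1 := p2 t ht
    unfold P
    rw [e0]
    linarith
  · intro t ht
    have h3 : σ * j t ≤ σ * j q := by
      rcases le_total t q with h4 | h4
      · exact hjm1 ⟨ht.1, h4⟩ hqmem h4
      · exact hjm2 ⟨le_rfl, hq2.le⟩ ⟨h4, ht.2⟩ h4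
    unfold P
    rw [e0]
    linarith
  · rw [integral_const_mul, m0, mul_zero]
  · intro α
    have h1 : ∀ φ, σ * (P (κ * rad Ω φ) - P q) * cos (2 * (φ - α)) =
        -σ * ((2 - P (κ * rad Ω φ)) * cos (2 * (φ - α))) +
          (σ * (2 - P q)) * cos (2 * (φ - α)) := by
      intro φ; ring
    simp only [h1]
    rw [integral_add, integral_const_mul, integral_const_mul, m2 α, int_cos2 α]
    · ring
    · apply Integrable.const_mul
      exact hbdd (fun t => 2 - P t) (continuous_const.sub P_cont) α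
    · apply Integrable.const_mul
      have h5 := hbdd (fun _ => 1) continuous_const α
      simp only [one_mul] at h5
      exact h5


end TH259.CO
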